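import Pool.Agent.LgP.Defs

/-!
# Kreknin's theorem for Lie closed submodules of an associative algebra

`S` is a Lie closed submodule, stable under `σ` (`σ^n = 1` on the algebra), with
`∑_{j<n} σ^j a = 0` for all `a` in `S`. Then `derL (2^(n-1) - 1) S = ⊥`.

Paper proof. Write `S_i = {a ∈ S : σ a = ζ^i • a}` (`i : ℕ`, only `i` modulo `n` matters) and
`π_i a = n⁻¹ ∑_j ζ^((n-i)j) σ^j a` (`i < n`; use `(n - i % n) * j` as exponent if convenient).
Facts (from `Prim`): `π_i a ∈ S_i`, `∑_{i<n} π_i a = a`, `S_0 = 0` (trace hypothesis, `n` invertible),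
`π_i` kills `S_j` for `j ≠ i` mod `n` and is the identity on `S_i`,
`a ∈ S_i, b ∈ S_j → a*b - b*a ∈ S_(i+j)`.
For a Lie closed `σ`-stable `T ≤ S` let `P_k(T)` = smallest Lie closed submodule containing all
`T_i`, `k < i < n`. CLAIM `C(k)` (`k ≤ n-1`): `derL (2^k - 1) T ≤ P_k(T)` for ALL Lie closed
`σ`-stable `T` with trace zero (`derL` of such a `T` is again Lie closed, `σ`-stable).
`C(0)`: `T` is the sum of its `T_i`, `0 < i < n`. `C(n-1)` gives the theorem because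
`P_(n-1)(T) = ⊥`.
`C(k) → C(k+1)` (`k + 1 ≤ n - 1`):
(a) `Q = {u ∈ T : ∀ v ∈ T, π_(k+1) (v*u - u*v) ∈ P_(k+1)(T)}` is Lie closed (Jacobi) and contains
`T_c` for `k < c < n`: if `u ∈ T_c`, only the component of `v` of degree `k+1-c` matters; for
`c = k+1` it has degree 0, so it is 0; for `c > k+1` it has degree `k+1-c+n`, which lies in
`(k+1, n)`, so both `v` and `u` lie in `P_(k+1)(T)`. Hence `P_k(T) ≤ Q`.
(b) By `C(k)` `N := derL (2^k) T ≤ span of [T, P_k(T)]`, so by (a) `π_(k+1) N ≤ P_(k+1)(T)`.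
(c) `C(k)` for `N`: `derL (2^k - 1) N ≤ P_k(N)`, and `P_k(N) ≤ P_(k+1)(T)` by (b). The derived
series composes: `derL a (derL b T) = derL (a + b) T`, `(2^k - 1) + 2^k = 2^(k+1) - 1`.
-/

set_option autoImplicit false

namespace Pool.Agent.LgP

variable {O A : Type} [CommRing O] [Ring A] [Algebra O A]

/-- the smallest Lie closed submodule containing a set -/
private def Krek_LC (O : Type) {A : Type} [CommRing O] [Ring A] [Algebra O A] (X : Set A) :
    Submodule O A :=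
  sInf {U | IsLie U ∧ X ⊆ U}

private theorem Krek_LC_sub (X : Set A) : X ⊆ Krek_LC O X := by
  intro x hx
  unfold Krek_LC
  rw [SetLike.mem_coe, Submodule.mem_sInf]
  rintro U ⟨-, hU⟩
  exact hU hx

private theorem Krek_LC_lie (X : Set A) : IsLie (Krek_LC O X) := by
  intro a ha b hb
  unfold Krek_LC at ha hb ⊢
  rw [Submodule.mem_sInf] at ha hb ⊢
  intro U hU
  exact hU.1 a (ha U hU) b (hb U hU)

private theorem Krek_LC_le {X : Set A} {U : Submodule O A} (hU : IsLie U) (hX : X ⊆ U) :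
    Krek_LC O X ≤ U :=
  sInf_le ⟨hU, hX⟩

/-- the projection to the eigenspace of `ζ ^ i` -/
private noncomputable def Krek_pr (n : ℕ) (ζ : O) (σ : A →ₐ[O] A) (i : ℕ) : A →ₗ[O] A :=
  (Ring.inverse (n : O)) •
    ∑ j ∈ Finset.range n, (ζ ^ ((n - 1) * i * j)) • (σ.toLinearMap ^ j)

private theorem Krek_pr_apply (n : ℕ) (ζ : O) (σ : A →ₐ[O] A) (i : ℕ) (a : A) :
    Krek_pr n ζ σ i a = (Ring.inverse (n : O)) •
      ∑ j ∈ Finset.range n, (ζ ^ ((n - 1) * i * j)) • (⇑σ)^[j] a := by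
  unfold Krek_pr
  rw [LinearMap.smul_apply, LinearMap.sum_apply]
  congr 1
  refine Finset.sum_congr rfl fun j _ => ?_
  rw [LinearMap.smul_apply, Module.End.pow_apply]
  rfl

private theorem Krek_iter_mem {σ : A →ₐ[O] A} {T : Submodule O A} (hσT : ∀ a ∈ T, σ a ∈ T)
    (j : ℕ) {a : A} (ha : a ∈ T) : (⇑σ)^[j] a ∈ T := by
  induction j with
  | zero => exact ha
  | succ j ih =>
    rw [Function.iterate_succ_apply']
    exact hσT _ ih

private theorem Krek_pr_mem (n : ℕ) (ζ : O) {σ : A →ₐ[O] A} {T : Submodule O A}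
    (hσT : ∀ a ∈ T, σ a ∈ T) (i : ℕ) {a : A} (ha : a ∈ T) : Krek_pr n ζ σ i a ∈ T := by
  rw [Krek_pr_apply]
  exact T.smul_mem _ (T.sum_mem fun j _ => T.smul_mem _ (Krek_iter_mem hσT j ha))

private theorem Krek_inv {n : ℕ} {ζ : O} (hP : Prim O n ζ) (a : A) :
    (Ring.inverse (n : O)) • ((n : O) • a) = a := by
  rw [smul_smul, Ring.inverse_mul_cancel _ hP.unit, one_smul]

private theorem Krek_zeta {n : ℕ} {ζ : O} (hP : Prim O n ζ) (i : ℕ) :
    ζ ^ ((n - 1) * i) * ζ ^ i = 1 := by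
  rw [← pow_add]
  have h1 : (n - 1) * i + i = n * i := by
    obtain ⟨m, hm⟩ : ∃ m, n = m + 1 := ⟨n - 1, by have := hP.pos; omega⟩
    rw [hm, Nat.add_sub_cancel]
    ring
  rw [h1, pow_mul, hP.pow, one_pow]

private theorem Krek_sig {n : ℕ} {ζ : O} (hP : Prim O n ζ) {σ : A →ₐ[O] A}
    (hσ : ∀ a, (⇑σ)^[n] a = a) (i : ℕ) (a : A) :
    σ (Krek_pr n ζ σ i a) = ζ ^ i • Krek_pr n ζ σ i a := by
  rw [Krek_pr_apply, map_smul, smul_comm, map_sum]
  congr 1
  rw [Finset.smul_sum]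
  have h1 : ∀ j, σ ((ζ ^ ((n - 1) * i * j)) • (⇑σ)^[j] a) =
      ζ ^ i • ((ζ ^ ((n - 1) * i * (j + 1))) • (⇑σ)^[j + 1] a) := by
    intro j
    rw [map_smul, ← Function.iterate_succ_apply' σ j a, smul_smul]
    congr 1
    have h2 := Krek_zeta hP i
    have h3 : (n - 1) * i * (j + 1) = (n - 1) * i * j + (n - 1) * i := by ring
    rw [h3, pow_add]
    calc ζ ^ ((n - 1) * i * j) = ζ ^ ((n - 1) * i * j) * (ζ ^ ((n - 1) * i) * ζ ^ i) := by
          rw [h2, mul_one]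
      _ = _ := by ring
  rw [Finset.sum_congr rfl (fun j _ => h1 j)]
  obtain ⟨F, hF⟩ : ∃ F : ℕ → A, F = fun j => ζ ^ i • ((ζ ^ ((n - 1) * i * j)) • (⇑σ)^[j] a) :=
    ⟨_, rfl⟩
  have h2 : ∑ j ∈ Finset.range n, F (j + 1) = ∑ j ∈ Finset.range n, F j := by
    have h3 := Finset.sum_range_succ F n
    have h4 := Finset.sum_range_succ' F n
    have h5 : F n = F 0 := by
      rw [hF]
      show ζ ^ i • ((ζ ^ ((n - 1) * i * n)) • (⇑σ)^[n] a) =
        ζ ^ i • ((ζ ^ ((n - 1) * i * 0)) • (⇑σ)^[0] a)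
      rw [hσ, mul_zero, pow_zero, mul_comm ((n - 1) * i) n, pow_mul, hP.pow, one_pow]
      rfl
    rw [h3, h5] at h4
    exact (add_right_cancel h4).symm
  rw [hF] at h2
  exact h2

private theorem Krek_eig_iter {ζ : O} {σ : A →ₐ[O] A} {i : ℕ} {a : A} (ha : σ a = ζ ^ i • a)
    (j : ℕ) : (⇑σ)^[j] a = ζ ^ (i * j) • a := by
  induction j with
  | zero => rw [mul_zero, pow_zero, one_smul]; rfl
  | succ j ih =>
    rw [Function.iterate_succ_apply', ih, map_smul, ha, smul_smul, ← pow_add]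
    congr 1

private theorem Krek_eig {n : ℕ} {ζ : O} {σ : A →ₐ[O] A} {i : ℕ} {a : A}
    (ha : σ a = ζ ^ i • a) (k : ℕ) : Krek_pr n ζ σ k a =
      (Ring.inverse (n : O)) • ((∑ j ∈ Finset.range n, ζ ^ (((n - 1) * k + i) * j)) • a) := by
  rw [Krek_pr_apply, Finset.sum_smul]
  congr 1
  refine Finset.sum_congr rfl fun j _ => ?_
  rw [Krek_eig_iter ha, smul_smul, ← pow_add]
  congr 2
  ring

private theorem Krek_eig_self {n : ℕ} {ζ : O} (hP : Prim O n ζ) {σ : A →ₐ[O] A} {i : ℕ} {a : A}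
    (ha : σ a = ζ ^ i • a) {k : ℕ} (hk : n ∣ (n - 1) * k + i) : Krek_pr n ζ σ k a = a := by
  rw [Krek_eig ha]
  obtain ⟨m, hm⟩ := hk
  have h1 : ∑ j ∈ Finset.range n, ζ ^ (((n - 1) * k + i) * j) = (n : O) := by
    rw [hm]
    have : ∀ j ∈ Finset.range n, ζ ^ (n * m * j) = 1 := by
      intro j _
      rw [mul_assoc, pow_mul, hP.pow, one_pow]
    rw [Finset.sum_congr rfl this, Finset.sum_const, Finset.card_range, nsmul_eq_mul, mul_one]
  rw [h1]
  exact Krek_inv hP a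

private theorem Krek_eig_zero {n : ℕ} {ζ : O} (hP : Prim O n ζ) {σ : A →ₐ[O] A} {i : ℕ} {a : A}
    (ha : σ a = ζ ^ i • a) {k : ℕ} (hk : ¬ n ∣ (n - 1) * k + i) : Krek_pr n ζ σ k a = 0 := by
  rw [Krek_eig ha, hP.sum _ hk, zero_smul, smul_zero]

private theorem Krek_sum {n : ℕ} {ζ : O} (hP : Prim O n ζ) (σ : A →ₐ[O] A) (a : A) :
    ∑ i ∈ Finset.range n, Krek_pr n ζ σ i a = a := by
  have h1 : ∀ i ∈ Finset.range n, Krek_pr n ζ σ i a = (Ring.inverse (n : O)) •
      ∑ j ∈ Finset.range n, (ζ ^ ((n - 1) * j * i)) • (⇑σ)^[j] a := by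
    intro i _
    rw [Krek_pr_apply]
    congr 1
    refine Finset.sum_congr rfl fun j _ => ?_
    congr 2
    ring
  rw [Finset.sum_congr rfl h1, ← Finset.smul_sum, Finset.sum_comm]
  have h2 : ∀ j ∈ Finset.range n, ∑ i ∈ Finset.range n, (ζ ^ ((n - 1) * j * i)) • (⇑σ)^[j] a =
      if j = 0 then (n : O) • a else 0 := by
    intro j hj
    rw [← Finset.sum_smul]
    by_cases hj0 : j = 0
    · rw [if_pos hj0, hj0]
      simp
    · rw [if_neg hj0, hP.sum, zero_smul]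
      intro hdvd
      have hjn : j < n := Finset.mem_range.1 hj
      have hcop : Nat.Coprime n (n - 1) := by
        have : Nat.Coprime (n - 1 + 1) (n - 1) := by
          rw [Nat.coprime_comm]
          exact Nat.coprime_self_add_right.2 (Nat.coprime_one_right _) |>.symm.symm
        rwa [Nat.sub_add_cancel hP.pos] at this
      have h3 := hcop.dvd_of_dvd_mul_left hdvd
      exact hj0 (Nat.eq_zero_of_dvd_of_lt h3 hjn)
  rw [Finset.sum_congr rfl h2, Finset.sum_ite_eq' (Finset.range n) 0 (fun _ => (n : O) • a),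
    if_pos (Finset.mem_range.2 hP.pos)]
  exact Krek_inv hP a

private theorem Krek_pr_zero (n : ℕ) (ζ : O) {σ : A →ₐ[O] A} {a : A}
    (ha : ∑ j ∈ Finset.range n, (⇑σ)^[j] a = 0) : Krek_pr n ζ σ 0 a = 0 := by
  rw [Krek_pr_apply]
  have h1 : ∑ j ∈ Finset.range n, (ζ ^ ((n - 1) * 0 * j)) • (⇑σ)^[j] a =
      ∑ j ∈ Finset.range n, (⇑σ)^[j] a := by
    refine Finset.sum_congr rfl fun j _ => ?_
    rw [mul_zero, zero_mul, pow_zero, one_smul]
  rw [h1, ha, smul_zero]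

private theorem Krek_br {ζ : O} {σ : A →ₐ[O] A} {i j : ℕ} {a b : A} (ha : σ a = ζ ^ i • a)
    (hb : σ b = ζ ^ j • b) : σ (a * b - b * a) = ζ ^ (i + j) • (a * b - b * a) := by
  rw [map_sub, map_mul, map_mul, ha, hb]
  simp only [smul_mul_assoc, mul_smul_comm, smul_smul, smul_sub, pow_add]
  rw [mul_comm (ζ ^ j) (ζ ^ i)]

/-! ### the derived series -/

private theorem Krek_der_lie {S : Submodule O A} (hS : IsLie S) (k : ℕ) :
    IsLie (derL k S) ∧ derL k S ≤ S := by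
  induction k with
  | zero => exact ⟨hS, le_rfl⟩
  | succ k ih =>
    have h1 : derL (k + 1) S ≤ derL k S := by
      refine Submodule.span_le.2 ?_
      rintro x ⟨a, ha, b, hb, rfl⟩
      exact ih.1 a ha b hb
    refine ⟨?_, h1.trans ih.2⟩
    intro a ha b hb
    exact Submodule.subset_span ⟨a, h1 ha, b, h1 hb, rfl⟩

private theorem Krek_der_sig {σ : A →ₐ[O] A} {S : Submodule O A} (hσS : ∀ a ∈ S, σ a ∈ S)
    (k : ℕ) : ∀ a ∈ derL k S, σ a ∈ derL k S := by
  induction k with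
  | zero => exact hσS
  | succ k ih =>
    have h1 : derL (k + 1) S ≤ (derL (k + 1) S).comap σ.toLinearMap := by
      refine Submodule.span_le.2 ?_
      rintro x ⟨a, ha, b, hb, rfl⟩
      show σ (a * b - b * a) ∈ derL (k + 1) S
      rw [map_sub, map_mul, map_mul]
      exact Submodule.subset_span ⟨σ a, ih a ha, σ b, ih b hb, rfl⟩
    exact fun a ha => h1 ha

private theorem Krek_der_comp (T : Submodule O A) (a b : ℕ) :
    derL a (derL b T) = derL (a + b) T := by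
  induction a with
  | zero => rw [Nat.zero_add]; rfl
  | succ a ih =>
    have h1 : a + 1 + b = (a + b) + 1 := by ring
    rw [h1]
    show Submodule.span O _ = Submodule.span O _
    rw [ih]

/-! ### the induction -/

/-- the Lie closed submodule generated by the components of degrees in `(k, n)` -/
private def Krek_P (n : ℕ) (ζ : O) (σ : A →ₐ[O] A) (k : ℕ) (T : Submodule O A) :
    Submodule O A :=
  Krek_LC O {a | a ∈ T ∧ ∃ i, k < i ∧ i < n ∧ σ a = ζ ^ i • a}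

private theorem Krek_step_a {n : ℕ} {ζ : O} (hP : Prim O n ζ) {σ : A →ₐ[O] A}
    (hσ : ∀ a, (⇑σ)^[n] a = a) {T : Submodule O A} (hT : IsLie T) (hσT : ∀ a ∈ T, σ a ∈ T)
    (hTr : ∀ a ∈ T, ∑ j ∈ Finset.range n, (⇑σ)^[j] a = 0) {k : ℕ} :
    ∀ u ∈ Krek_P n ζ σ k T, ∀ v ∈ T,
      Krek_pr n ζ σ (k + 1) (v * u - u * v) ∈ Krek_P n ζ σ (k + 1) T := by
  obtain ⟨Q, hQ⟩ : ∃ Q : Submodule O A, ∀ u, u ∈ Q ↔ u ∈ T ∧ ∀ v ∈ T,
      Krek_pr n ζ σ (k + 1) (v * u - u * v) ∈ Krek_P n ζ σ (k + 1) T := by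
    refine ⟨{ carrier := {u | u ∈ T ∧ ∀ v ∈ T,
                Krek_pr n ζ σ (k + 1) (v * u - u * v) ∈ Krek_P n ζ σ (k + 1) T}
              add_mem' := ?_, zero_mem' := ?_, smul_mem' := ?_ }, fun u => Iff.rfl⟩
    · rintro a b ⟨ha, ha'⟩ ⟨hb, hb'⟩
      refine ⟨T.add_mem ha hb, fun v hv => ?_⟩
      have h1 : v * (a + b) - (a + b) * v = (v * a - a * v) + (v * b - b * v) := by noncomm_ring
      rw [h1, map_add]
      exact Submodule.add_mem _ (ha' v hv) (hb' v hv)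
    · refine ⟨T.zero_mem, fun v _ => ?_⟩
      rw [mul_zero, zero_mul, sub_zero, map_zero]
      exact Submodule.zero_mem _
    · rintro c a ⟨ha, ha'⟩
      refine ⟨T.smul_mem c ha, fun v hv => ?_⟩
      have h1 : v * (c • a) - (c • a) * v = c • (v * a - a * v) := by
        rw [mul_smul_comm, smul_mul_assoc, smul_sub]
      rw [h1, map_smul]
      exact Submodule.smul_mem _ _ (ha' v hv)
  have hQlie : IsLie Q := by
    intro a ha b hb
    rw [hQ] at ha hb ⊢
    refine ⟨hT a ha.1 b hb.1, fun v hv => ?_⟩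
    have h1 : v * (a * b - b * a) - (a * b - b * a) * v =
        ((v * a - a * v) * b - b * (v * a - a * v)) -
          ((v * b - b * v) * a - a * (v * b - b * v)) := by noncomm_ring
    rw [h1, map_sub]
    exact Submodule.sub_mem _ (hb.2 _ (hT v hv a ha.1)) (ha.2 _ (hT v hv b hb.1))
  have hsub : {a | a ∈ T ∧ ∃ i, k < i ∧ i < n ∧ σ a = ζ ^ i • a} ⊆ (Q : Set A) := by
    rintro u ⟨hu, c, hc1, hc2, hc⟩
    rw [SetLike.mem_coe, hQ]
    refine ⟨hu, fun v hv => ?_⟩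
    have h1 : v * u - u * v = ∑ i ∈ Finset.range n,
        (Krek_pr n ζ σ i v * u - u * Krek_pr n ζ σ i v) := by
      rw [Finset.sum_sub_distrib, ← Finset.sum_mul, ← Finset.mul_sum, Krek_sum hP]
    rw [h1, map_sum]
    refine Submodule.sum_mem _ fun i hi => ?_
    have hin : i < n := Finset.mem_range.1 hi
    rcases Nat.eq_zero_or_pos i with hi0 | hi0
    · rw [hi0, Krek_pr_zero n ζ (hTr v hv), zero_mul, mul_zero, sub_zero, map_zero]
      exact Submodule.zero_mem _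
    · have h2 := Krek_br (Krek_sig hP hσ i v) hc
      have h3 : (n - 1) * (k + 1) + (i + c) = n * (k + 1) + (i + c - (k + 1)) := by
        obtain ⟨m, hm⟩ : ∃ m, n = m + 1 := ⟨n - 1, by have := hP.pos; omega⟩
        subst hm
        rw [Nat.add_sub_cancel]
        have : (m + 1) * (k + 1) = m * (k + 1) + (k + 1) := by ring
        omega
      by_cases h4 : i + c - (k + 1) = n
      · rw [Krek_eig_self hP h2 (by rw [h3, h4]; exact ⟨k + 2, by ring⟩)]
        refine Krek_LC_lie _ _ ?_ _ ?_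
        · exact Krek_LC_sub _ ⟨Krek_pr_mem n ζ hσT i hv, i, by omega, hin, Krek_sig hP hσ i v⟩
        · exact Krek_LC_sub _ ⟨hu, c, by omega, hc2, hc⟩
      · rw [Krek_eig_zero hP h2]
        · exact Submodule.zero_mem _
        · rw [h3, Nat.dvd_add_right (Dvd.intro _ rfl)]
          rintro ⟨m, hm⟩
          have h5 : 0 < i + c - (k + 1) := by omega
          have h6 : i + c - (k + 1) < n * 2 := by omega
          rw [hm] at h5 h6 h4
          have h7 : m < 2 := Nat.lt_of_mul_lt_mul_left h6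
          have h8 : m ≠ 0 := by
            rintro rfl
            rw [mul_zero] at h5
            exact lt_irrefl _ h5
          have h9 : m = 1 := by omega
          rw [h9, mul_one] at h4
          exact h4 rfl
  have hle : Krek_P n ζ σ k T ≤ Q := Krek_LC_le hQlie hsub
  intro u hu v hv
  exact ((hQ u).1 (hle hu)).2 v hv

private theorem Krek_claim {n : ℕ} {ζ : O} (hP : Prim O n ζ) {σ : A →ₐ[O] A}
    (hσ : ∀ a, (⇑σ)^[n] a = a) (k : ℕ) (hk : k ≤ n - 1) : ∀ T : Submodule O A, IsLie T →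
      (∀ a ∈ T, σ a ∈ T) → (∀ a ∈ T, ∑ j ∈ Finset.range n, (⇑σ)^[j] a = 0) →
      derL (2 ^ k - 1) T ≤ Krek_P n ζ σ k T := by
  induction k with
  | zero =>
    intro T hT hσT hTr a ha
    have ha' : a ∈ T := ha
    rw [← Krek_sum hP σ a]
    refine Submodule.sum_mem _ fun i hi => ?_
    rcases Nat.eq_zero_or_pos i with hi0 | hi0
    · rw [hi0, Krek_pr_zero n ζ (hTr a ha')]
      exact Submodule.zero_mem _
    · exact Krek_LC_sub _ ⟨Krek_pr_mem n ζ hσT i ha', i, hi0, Finset.mem_range.1 hi,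
        Krek_sig hP hσ i a⟩
  | succ k ih =>
    intro T hT hσT hTr
    have ihk := ih (by omega)
    have hT1 := ihk T hT hσT hTr
    obtain ⟨N, hN⟩ : ∃ N, N = derL (2 ^ k) T := ⟨_, rfl⟩
    have hNT : N ≤ T := by rw [hN]; exact (Krek_der_lie hT _).2
    have hNl : IsLie N := by rw [hN]; exact (Krek_der_lie hT _).1
    have hNσ : ∀ a ∈ N, σ a ∈ N := by rw [hN]; exact Krek_der_sig hσT _
    have hN1 := ihk N hNl hNσ (fun a ha => hTr a (hNT ha))
    have h2k : 0 < 2 ^ k := by positivity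
    have e1 : 2 ^ (k + 1) - 1 = (2 ^ k - 1) + 2 ^ k := by rw [pow_succ]; omega
    have e2 : 2 ^ k = (2 ^ k - 1) + 1 := by omega
    rw [e1, ← Krek_der_comp, ← hN]
    refine hN1.trans ?_
    refine Krek_LC_le (Krek_LC_lie _) ?_
    rintro a ⟨ha, i, hi1, hi2, hi⟩
    by_cases hik : i = k + 1
    · have h3 : Krek_pr n ζ σ (k + 1) a = a := by
        refine Krek_eig_self hP hi ?_
        rw [hik]
        obtain ⟨m, hm⟩ : ∃ m, n = m + 1 := ⟨n - 1, by have := hP.pos; omega⟩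
        subst hm
        rw [Nat.add_sub_cancel]
        exact ⟨k + 1, by ring⟩
      rw [← h3]
      have h4 : N ≤ (Krek_P n ζ σ (k + 1) T).comap (Krek_pr n ζ σ (k + 1)) := by
        rw [hN, e2]
        refine Submodule.span_le.2 ?_
        rintro x ⟨v, hv, u, hu, rfl⟩
        exact Krek_step_a hP hσ hT hσT hTr u (hT1 hu) v ((Krek_der_lie hT _).2 hv)
      exact h4 ha
    · exact Krek_LC_sub _ ⟨hNT ha, i, by omega, hi2, hi⟩

theorem kreknin {O A : Type} [CommRing O] [Ring A] [Algebra O A] (n : ℕ) (ζ : O)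
    (hP : Prim O n ζ) (σ : A →ₐ[O] A) (hσ : ∀ a, (⇑σ)^[n] a = a) (S : Submodule O A)
    (hS : IsLie S) (hσS : ∀ a ∈ S, σ a ∈ S)
    (hTr : ∀ a ∈ S, ∑ j ∈ Finset.range n, (⇑σ)^[j] a = 0) :
    derL (2 ^ (n - 1) - 1) S = ⊥ := by
  rw [eq_bot_iff]
  refine (Krek_claim hP hσ (n - 1) le_rfl S hS hσS hTr).trans ?_
  refine Krek_LC_le ?_ ?_
  · intro a ha b hb
    rw [Submodule.mem_bot] at ha hb ⊢
    rw [ha, hb, mul_zero, sub_zero]
  · rintro a ⟨-, i, h1, h2, -⟩
    omega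

end Pool.Agent.LgP
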