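import Pool.Agent.LgP.Defs

/-!
# A coefficient ring

For `gcd(n, N) = 1` take `O = AdjoinRoot (cyclotomic n (ZMod N))`, `ζ` the root. It is free over
`ZMod N` with power basis (`cyclotomic` is monic), the coordinate at `1` is the retraction `r`
(`N = 1`: everything is trivial). There is a ring homomorphism from
`AdjoinRoot (cyclotomic n ℤ)` (a domain of characteristic zero, because the cyclotomic polynomial
is irreducible/prime over `ℤ`; its root is a primitive `n`-th root of unity) to `O` mapping root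
to root. In the domain `∑_j ζ^(i j) = 0` for `n ∤ i` (geometric sum of the primitive root `ζ^i` of
order `> 1`) and `ζ^c` is a primitive root of order `n / gcd n c`, so it is a root of the corresponding
cyclotomic polynomial. Alternatively avoid the domain: `cyclotomic n ℤ` divides
`∑_j X^(i j)` and `(cyclotomic (n / gcd n c) ℤ)(X^c)` in `ℤ[X]` (`minpoly`/roots in `ℂ`, primitive
polynomial), and map to `O`.
-/

set_option autoImplicit false

open Polynomial

namespace Pool.Agent.LgP

private theorem Root_dvd {n : ℕ} (hn : 0 < n) (p : ℤ[X])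
    (hp : aeval (Complex.exp (2 * Real.pi * Complex.I / n)) p = 0) : cyclotomic n ℤ ∣ p := by
  have hμ := Complex.isPrimitiveRoot_exp n hn.ne'
  rw [cyclotomic_eq_minpoly hμ hn]
  exact minpoly.isIntegrallyClosed_dvd (hμ.isIntegral hn) hp

private theorem Root_aeval {n N : ℕ} (hn : 0 < n) (p : ℤ[X])
    (hp : aeval (Complex.exp (2 * Real.pi * Complex.I / n)) p = 0) :
    aeval (AdjoinRoot.root (cyclotomic n (ZMod N))) p = 0 := by
  obtain ⟨q, hq⟩ := Root_dvd hn p hp
  have h1 : aeval (AdjoinRoot.root (cyclotomic n (ZMod N))) (cyclotomic n ℤ) = 0 := by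
    have h2 := AdjoinRoot.eval₂_root (cyclotomic n (ZMod N))
    rw [← map_cyclotomic_int n (ZMod N), eval₂_map] at h2
    rw [aeval_def]
    have h3 : algebraMap ℤ (AdjoinRoot (cyclotomic n (ZMod N))) =
        (AdjoinRoot.of (cyclotomic n (ZMod N))).comp (Int.castRingHom (ZMod N)) :=
      RingHom.ext_int _ _
    rw [h3]
    rw [← map_cyclotomic_int n (ZMod N)]
    exact h2
  rw [hq, map_mul, h1, zero_mul]

theorem root_exists (n N : ℕ) (hn : 0 < n) (hN : 0 < N) (hco : Nat.Coprime n N) :
    ∃ (O : Type) (_ : CommRing O) (_ : Algebra (ZMod N) O) (ζ : O), Prim O n ζ ∧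
      (∀ c : ℕ, aeval (ζ ^ c) (cyclotomic (n / Nat.gcd n c) ℤ) = 0) ∧
      (∀ k : ℕ, Nat.Coprime k N → IsUnit (k : O)) ∧
      ∃ r : O →ₗ[ZMod N] ZMod N, r 1 = 1 := by
  have hμ := Complex.isPrimitiveRoot_exp n hn.ne'
  set μ := Complex.exp (2 * Real.pi * Complex.I / n) with hμdef
  have hunit : ∀ k : ℕ, Nat.Coprime k N → IsUnit (k : AdjoinRoot (cyclotomic n (ZMod N))) := by
    intro k hk
    have h1 : IsUnit (k : ZMod N) := (ZMod.isUnit_iff_coprime k N).2 hk
    have h2 := h1.map (algebraMap (ZMod N) (AdjoinRoot (cyclotomic n (ZMod N))))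
    simpa using h2
  refine ⟨AdjoinRoot (cyclotomic n (ZMod N)), inferInstance, inferInstance,
    AdjoinRoot.root (cyclotomic n (ZMod N)), ⟨hn, ?_, ?_, hunit n hco⟩, ?_, hunit, ?_⟩
  · have h := Root_aeval (N := N) hn (X ^ n - 1) (by simp [← hμdef, hμ.pow_eq_one])
    simpa [sub_eq_zero] using h
  · intro i hi
    have h := Root_aeval (N := N) hn (∑ j ∈ Finset.range n, X ^ (i * j)) (by
      rw [← hμdef]
      simp only [map_sum, map_pow, aeval_X]
      have h1 : μ ^ i ≠ 1 := fun h => hi ((hμ.pow_eq_one_iff_dvd i).1 h)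
      have h2 : (∑ j ∈ Finset.range n, (μ ^ i) ^ j) * (μ ^ i - 1) = 0 := by
        rw [geom_sum_mul, ← pow_mul, mul_comm, pow_mul, hμ.pow_eq_one, one_pow, sub_self]
      have h3 := (mul_eq_zero.1 h2).resolve_right (sub_ne_zero.2 h1)
      simpa [pow_mul] using h3)
    simpa using h
  · intro c
    have h := Root_aeval (N := N) hn ((cyclotomic (n / Nat.gcd n c) ℤ).comp (X ^ c)) (by
      rw [← hμdef, aeval_comp]
      simp only [map_pow, aeval_X]
      have h1 : orderOf (μ ^ c) = n / Nat.gcd n c := by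
        have h2 : IsOfFinOrder μ := isOfFinOrder_iff_pow_eq_one.2 ⟨n, hn, hμ.pow_eq_one⟩
        rw [h2.orderOf_pow, ← hμ.eq_orderOf]
      have h3 : IsPrimitiveRoot (μ ^ c) (n / Nat.gcd n c) := by
        rw [← h1]; exact IsPrimitiveRoot.orderOf _
      have h4 : 0 < n / Nat.gcd n c :=
        Nat.div_pos (Nat.le_of_dvd hn (Nat.gcd_dvd_left n c)) (Nat.gcd_pos_of_pos_left _ hn)
      rw [cyclotomic_eq_minpoly h3 h4]
      exact minpoly.aeval ℤ _)
    rw [aeval_comp] at h
    simp only [map_pow, aeval_X] at h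
    rw [aeval_def] at h ⊢
    convert h using 2
    exact RingHom.ext_int _ _
  · rcases Nat.lt_or_ge 1 N with h1 | h1
    · have : Fact (1 < N) := ⟨h1⟩
      have hm : (cyclotomic n (ZMod N)).Monic := cyclotomic.monic n _
      refine ⟨(lcoeff (ZMod N) 0).comp (AdjoinRoot.modByMonicHom hm), ?_⟩
      have h2 : AdjoinRoot.modByMonicHom hm 1 = 1 := by
        have h3 := AdjoinRoot.modByMonicHom_mk hm (1 : (ZMod N)[X])
        rw [map_one] at h3
        rw [h3]
        apply (modByMonic_eq_self_iff hm).2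
        rw [degree_one]
        have h4 := degree_cyclotomic_pos n (ZMod N) hn
        exact h4
      rw [LinearMap.comp_apply, h2, lcoeff_apply, coeff_one_zero]
    · have h2 : N = 1 := by omega
      subst h2
      exact ⟨0, Subsingleton.elim _ _⟩

end Pool.Agent.LgP
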