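import Pool.Agent.LgP.Pw
import Pool.Agent.LgP.Root

/-!
# The representation on the abelianisation of a normal invariant subgroup

`G` finite nilpotent, `N = |G|` coprime to `n`, `φ^n = 1`, `H` normal and `φ`-invariant. `O` from
`root_exists n N`. `H^ab = Abelianization H` written additively is a `ZMod N`-module
(`AddCommGroup.zmodModule`, `|G|` kills it), `V = O ⊗[ZMod N] H^ab`. `G` acts on `H` by
conjugation (`MulAut.conjNormal`), hence on `Abelianization H` (`Abelianization.map`), on `V` by base
change (`LinearMap.baseChange`); `φ` restricted to `H` gives `Φ`, its inverse (`φ^(n-1)`) gives `Ψ`.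
`ρ (φ g) = Φ ρ(g) Ψ` because `φ (g φ⁻¹(h) g⁻¹) = φ(g) h φ(g)⁻¹`. If `ρ g = 1` then, by the retraction
`r` (`(r ⊗ id)(1 ⊗ v) = v`, so `v ↦ 1 ⊗ v` is injective), `g` acts trivially on `H^ab`, i.e.
`⁅g, h⁆ ∈ ⁅H, H⁆` for `h ∈ H`. Nilpotency: `(ρ g₁ - 1) ⋯ (ρ g_K - 1) (1 ⊗ [h])` is `1 ⊗` the class of
`⁅g₁, ⁅g₂, ⋯ ⁅g_K, h⁆⁆⁆`, which lies in the lower central series of `G`; take `K` = nilpotency class.
If `pw φ f h ∈ ⁅H,H⁆` for all `h ∈ H` then `f(Φ) = 0` by `pw_aeval`.
-/

set_option autoImplicit false

open Polynomial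
open scoped commutatorElement TensorProduct

namespace Pool.Agent.LgP

/-- base change of endomorphisms of a commutative group -/
private noncomputable def RepT (N : ℕ) (O C : Type) [CommRing O] [Algebra (ZMod N) O] [CommGroup C]
    [Module (ZMod N) (Additive C)] :
    Monoid.End C →* Module.End O (O ⊗[ZMod N] (Additive C)) where
  toFun θ := LinearMap.baseChange O ((MonoidHom.toAdditive (θ : C →* C)).toZModLinearMap N)
  map_one' := LinearMap.baseChange_id
  map_mul' f g := LinearMap.baseChange_comp
    (f := (MonoidHom.toAdditive (g : C →* C)).toZModLinearMap N)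
    (g := (MonoidHom.toAdditive (f : C →* C)).toZModLinearMap N)

private theorem RepT_apply {N : ℕ} {O C : Type} [CommRing O] [Algebra (ZMod N) O] [CommGroup C]
    [Module (ZMod N) (Additive C)] (θ : Monoid.End C) (c : C) :
    RepT N O C θ ((1 : O) ⊗ₜ[ZMod N] Additive.ofMul c) = (1 : O) ⊗ₜ[ZMod N] Additive.ofMul (θ c) :=
  LinearMap.baseChange_tmul _ _ _

/-- the functor of abelianisation on endomorphisms -/
private noncomputable def RepA (H : Type) [Group H] :
    Monoid.End H →* Monoid.End (Abelianization H) where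
  toFun f := Abelianization.map f
  map_one' := Abelianization.map_id
  map_mul' f g := (Abelianization.map_comp (f := g) (g := f)).symm

private theorem RepA_of {H : Type} [Group H] (f : Monoid.End H) (h : H) :
    RepA H f (Abelianization.of h) = Abelianization.of (f h) := rfl

/-- the conjugation action -/
private noncomputable def RepC {G : Type} [Group G] (H : Subgroup G) [H.Normal] :
    G →* Monoid.End H where
  toFun g := (MulAut.conjNormal g).toMonoidHom
  map_one' := by
    rw [map_one]
    rfl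
  map_mul' g g' := by
    rw [map_mul]
    rfl

private theorem RepC_apply {G : Type} [Group G] (H : Subgroup G) [H.Normal] (g : G) (h : H) :
    ((RepC H g h : H) : G) = g * h * g⁻¹ := MulAut.conjNormal_apply g h

/-- the representation of all endomorphisms of `H` -/
private noncomputable def RepE (N : ℕ) (O H : Type) [CommRing O] [Algebra (ZMod N) O] [Group H]
    [Module (ZMod N) (Additive (Abelianization H))] :
    Monoid.End H →* Module.End O (O ⊗[ZMod N] (Additive (Abelianization H))) :=
  (RepT N O (Abelianization H)).comp (RepA H)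

section
variable {N : ℕ} {O H : Type} [CommRing O] [Algebra (ZMod N) O] [Group H]
    [Module (ZMod N) (Additive (Abelianization H))]

/-- the basic vectors -/
private noncomputable def RepI (N : ℕ) (O : Type) {H : Type} [CommRing O] [Algebra (ZMod N) O]
    [Group H] [Module (ZMod N) (Additive (Abelianization H))] :
    Additive (Abelianization H) →+ O ⊗[ZMod N] (Additive (Abelianization H)) :=
  (TensorProduct.mk (ZMod N) O (Additive (Abelianization H)) 1).toAddMonoidHom

private theorem RepE_apply (f : Monoid.End H) (h : H) :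
    RepE N O H f (RepI N O (Additive.ofMul (Abelianization.of h))) =
      RepI N O (Additive.ofMul (Abelianization.of (f h))) :=
  RepT_apply (RepA H f) (Abelianization.of h)

private theorem RepI_inj (r : O →ₗ[ZMod N] ZMod N) (hr : r 1 = 1) {a b : Additive (Abelianization H)}
    (h : RepI N O a = RepI N O b) : a = b := by
  have h1 := congrArg (fun v => TensorProduct.lid (ZMod N) (Additive (Abelianization H))
    (LinearMap.rTensor (Additive (Abelianization H)) r v)) h
  simp only [RepI, LinearMap.toAddMonoidHom_coe, TensorProduct.mk_apply, LinearMap.rTensor_tmul,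
    TensorProduct.lid_tmul, hr, one_smul] at h1
  exact h1

private theorem RepI_span : (⊤ : Submodule O (O ⊗[ZMod N] (Additive (Abelianization H)))) ≤
    Submodule.span O (Set.range fun h : H =>
      RepI N O (Additive.ofMul (Abelianization.of h))) := by
  intro v _
  induction v using TensorProduct.induction_on with
  | zero => exact zero_mem _
  | add x y hx hy => exact add_mem (hx trivial) (hy trivial)
  | tmul a c =>
    obtain ⟨h, hh⟩ : ∃ h : H, Abelianization.of h = Additive.toMul c :=
      QuotientGroup.mk_surjective (Additive.toMul c)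
    have e : a ⊗ₜ[ZMod N] c = a • RepI N O (Additive.ofMul (Abelianization.of h)) := by
      rw [hh]
      show a ⊗ₜ[ZMod N] c = a • ((1 : O) ⊗ₜ[ZMod N] c)
      rw [TensorProduct.smul_tmul', smul_eq_mul, mul_one]
    rw [e]
    exact Submodule.smul_mem _ _ (Submodule.subset_span ⟨h, rfl⟩)

private theorem RepE_ext {a b : Module.End O (O ⊗[ZMod N] (Additive (Abelianization H)))}
    (h : ∀ x : H, a (RepI N O (Additive.ofMul (Abelianization.of x))) =
      b (RepI N O (Additive.ofMul (Abelianization.of x)))) : a = b := by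
  refine LinearMap.ext_on_range (v := fun h : H =>
      RepI N O (Additive.ofMul (Abelianization.of h))) (top_le_iff.1 RepI_span) h

private theorem RepE_aeval (f : Monoid.End H) (p : ℤ[X]) (c : Additive (Abelianization H)) :
    aeval (RepE N O H f) p (RepI N O c) =
      RepI N O (aeval (MonoidHom.toAdditive (Abelianization.map f)).toIntLinearMap p c) := by
  have h0 : ∀ c : Additive (Abelianization H), RepE N O H f (RepI N O c) =
      RepI N O ((MonoidHom.toAdditive (Abelianization.map f)).toIntLinearMap c) :=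
    fun c => RepT_apply (RepA H f) (Additive.toMul c)
  have h1 : ∀ (i : ℕ) (c : Additive (Abelianization H)), (RepE N O H f ^ i) (RepI N O c) =
      RepI N O (((MonoidHom.toAdditive (Abelianization.map f)).toIntLinearMap ^ i) c) := by
    intro i
    induction i with
    | zero => intro c; rfl
    | succ i ih =>
      intro c
      rw [pow_succ, pow_succ, Module.End.mul_apply, Module.End.mul_apply, h0, ih]
  rw [aeval_eq_sum_range, aeval_eq_sum_range, LinearMap.sum_apply, LinearMap.sum_apply, map_sum]
  refine Finset.sum_congr rfl fun i _ => ?_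
  rw [LinearMap.smul_apply, LinearMap.smul_apply, h1, map_zsmul]

end

section Nil
variable {G : Type} [Group G] {N : ℕ} {O : Type} [CommRing O] [Algebra (ZMod N) O] (H : Subgroup G)
    [H.Normal] [Module (ZMod N) (Additive (Abelianization H))]

/-- the filtration by the lower central series of `G` -/
private noncomputable def RepW (N : ℕ) (O : Type) [CommRing O] [Algebra (ZMod N) O] (H : Subgroup G)
    [Module (ZMod N) (Additive (Abelianization H))] (i : ℕ) :
    Submodule O (O ⊗[ZMod N] (Additive (Abelianization H))) :=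
  Submodule.span O {v | ∃ h : H, (h : G) ∈ Subgroup.lowerCentralSeries (⊤ : Subgroup G) i ∧
    v = RepI N O (Additive.ofMul (Abelianization.of h))}

private theorem RepW_step (g : G) (i : ℕ) :
    ∀ v ∈ RepW N O H i, (RepE N O H (RepC H g) - 1) v ∈ RepW N O H (i + 1) := by
  intro v hv
  induction hv using Submodule.span_induction with
  | mem x hx =>
    obtain ⟨h, hh, rfl⟩ := hx
    refine Submodule.subset_span ⟨RepC H g h * h⁻¹, ?_, ?_⟩
    · have e : ((RepC H g h * h⁻¹ : H) : G) = ⁅g, (h : G)⁆ := by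
        rw [Subgroup.coe_mul, RepC_apply, commutatorElement_def]
        rfl
      rw [e, Subgroup.lowerCentralSeries_succ, Subgroup.commutator_comm]
      exact Subgroup.commutator_mem_commutator (Subgroup.mem_top g) hh
    · rw [LinearMap.sub_apply, RepE_apply, Module.End.one_apply, ← map_sub]
      congr 1
      rw [map_mul, map_inv, ofMul_mul, ofMul_inv, sub_eq_add_neg]
  | zero => rw [map_zero]; exact zero_mem _
  | add x y _ _ hx hy => rw [map_add]; exact add_mem hx hy
  | smul a x _ hx => rw [map_smul]; exact Submodule.smul_mem _ _ hx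

private theorem RepW_aug (k : ℕ) : ∀ a ∈ (aug (E := Module.End O
      (O ⊗[ZMod N] (Additive (Abelianization H)))) O ((RepE N O H).comp (RepC H))) ^ k,
    ∀ i, ∀ v ∈ RepW N O H i, a v ∈ RepW N O H (i + k) := by
  induction k with
  | zero =>
    intro a ha i v hv
    rw [pow_zero, Submodule.mem_one] at ha
    obtain ⟨c, rfl⟩ := ha
    rw [Module.algebraMap_end_apply]
    exact Submodule.smul_mem _ _ hv
  | succ k ih =>
    intro a ha
    rw [pow_succ] at ha
    refine Submodule.mul_induction_on ha ?_ ?_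
    · intro b hb c hc i v hv
      rw [Module.End.mul_apply]
      have h1 : ∀ i, ∀ v ∈ RepW N O H i, c v ∈ RepW N O H (i + 1) := by
        unfold aug at hc
        induction hc using Submodule.span_induction with
        | mem x hx =>
          obtain ⟨g, rfl⟩ := hx
          exact fun i v hv => RepW_step H g i v hv
        | zero => intro i v _; exact zero_mem _
        | add x y _ _ hx hy => exact fun i v hv => add_mem (hx i v hv) (hy i v hv)
        | smul a x _ hx => exact fun i v hv => Submodule.smul_mem _ _ (hx i v hv)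
      have h2 := ih b hb (i + 1) _ (h1 i v hv)
      have e : i + 1 + k = i + (k + 1) := by omega
      rwa [e] at h2
    · exact fun x y hx hy i v hv => add_mem (hx i v hv) (hy i v hv)

private theorem Rep_nil [Group.IsNilpotent G] : ∃ K : ℕ, (aug (E := Module.End O
      (O ⊗[ZMod N] (Additive (Abelianization H)))) O ((RepE N O H).comp (RepC H))) ^ K = ⊥ := by
  obtain ⟨K, hK⟩ := Subgroup.nilpotent_iff_lowerCentralSeries.1 (inferInstance : Group.IsNilpotent G)
  refine ⟨K, (Submodule.eq_bot_iff _).2 fun a ha => ?_⟩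
  refine RepE_ext fun x => ?_
  have h0 : RepI N O (Additive.ofMul (Abelianization.of x)) ∈ RepW N O H 0 :=
    Submodule.subset_span ⟨x, Subgroup.mem_top _, rfl⟩
  have h1 := RepW_aug H K a ha 0 _ h0
  have h2 : RepW N O H (0 + K) = ⊥ := by
    rw [zero_add]
    unfold RepW
    rw [Submodule.span_eq_bot]
    rintro v ⟨h, hh, rfl⟩
    rw [hK, Subgroup.mem_bot] at hh
    have : h = 1 := Subtype.ext hh
    rw [this, map_one, ofMul_one, map_zero]
  rw [h2, Submodule.mem_bot] at h1
  rw [h1]
  rfl

end Nil

private theorem Rep_main {G : Type} [Group G] [Group.IsNilpotent G] (n N : ℕ) (hn : 0 < n)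
    (φ : G →* G) (hφ : ∀ g, (⇑φ)^[n] g = g) (H : Subgroup G)
    [H.Normal] (hH : ∀ h ∈ H, φ h ∈ H) (O : Type) [CommRing O] [Algebra (ZMod N) O]
    [Module (ZMod N) (Additive (Abelianization H))] (r : O →ₗ[ZMod N] ZMod N) (hr : r 1 = 1) :
    ∃ (V : Type) (_ : AddCommGroup V) (_ : Module O V) (ρ : G →* Module.End O V)
      (Φ Ψ : Module.End O V),
      Φ * Ψ = 1 ∧ Ψ * Φ = 1 ∧ Φ ^ n = 1 ∧ (∀ g, ρ (φ g) = Φ * ρ g * Ψ) ∧
      (∀ g, ρ g = 1 → ∀ h ∈ H, ⁅g, h⁆ ∈ ⁅H, H⁆) ∧
      (∃ K : ℕ, (aug (E := Module.End O V) O ρ) ^ K = ⊥) ∧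
      (∀ f : ℤ[X], (∀ h ∈ H, pw φ f h ∈ ⁅H, H⁆) → aeval Φ f = 0) := by
  let φH : Monoid.End H := (φ.comp H.subtype).codRestrict H (fun h => hH h h.2)
  have hφH : ∀ h : H, ((φH h : H) : G) = φ h := fun h => rfl
  have hφn : φH ^ n = 1 := by
    have h1 : ∀ (i : ℕ) (h : H), (((φH ^ i) h : H) : G) = (⇑φ)^[i] h := by
      intro i
      induction i with
      | zero => intro h; rfl
      | succ i ih =>
        intro h
        rw [Function.iterate_succ_apply, pow_succ]
        show (((φH ^ i) (φH h) : H) : G) = _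
        rw [ih, hφH]
    refine MonoidHom.ext fun h => Subtype.ext ?_
    exact (h1 n h).trans (hφ h)
  let A := RepE N O H
  let ρ := A.comp (RepC H)
  let Φ := A φH
  have hΦn : Φ ^ n = 1 := by rw [← map_pow, hφn, map_one]
  have h12 : Φ * Φ ^ (n - 1) = 1 := by rw [← pow_succ', Nat.sub_add_cancel hn, hΦn]
  have h21 : Φ ^ (n - 1) * Φ = 1 := by rw [← pow_succ, Nat.sub_add_cancel hn, hΦn]
  have hcomm : ∀ g, ρ (φ g) * Φ = Φ * ρ g := by
    intro g
    have e : RepC H (φ g) * φH = φH * RepC H g := by
      refine MonoidHom.ext fun h => Subtype.ext ?_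
      show ((RepC H (φ g) (φH h) : H) : G) = ((φH (RepC H g h) : H) : G)
      rw [RepC_apply, hφH, hφH, RepC_apply, map_mul, map_mul, map_inv]
    show A (RepC H (φ g)) * A φH = A φH * A (RepC H g)
    rw [← map_mul, e, map_mul]
  refine ⟨O ⊗[ZMod N] (Additive (Abelianization H)), TensorProduct.addCommGroup,
    TensorProduct.leftModule, ρ, Φ, Φ ^ (n - 1), h12, h21, hΦn, ?_, ?_, ?_, ?_⟩
  · intro g
    rw [← hcomm, mul_assoc, h12, mul_one]
  · intro g hg h hh
    have e1 : RepE N O H (RepC H g) (RepI N O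
        (Additive.ofMul (Abelianization.of (⟨h, hh⟩ : H)))) = RepI N O
        (Additive.ofMul (Abelianization.of (⟨h, hh⟩ : H))) := by
      have h1 : RepE N O H (RepC H g) = 1 := hg
      rw [h1]
      rfl
    rw [RepE_apply] at e1
    have e2 : Abelianization.of (RepC H g ⟨h, hh⟩) = Abelianization.of (⟨h, hh⟩ : H) :=
      Additive.ofMul.injective (RepI_inj r hr e1)
    have e3 : RepC H g ⟨h, hh⟩ * (⟨h, hh⟩ : H)⁻¹ ∈ commutator H := by
      rw [← Abelianization.ker_of, MonoidHom.mem_ker, map_mul, e2, map_inv, mul_inv_cancel]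
    rw [← Subgroup.map_subtype_commutator]
    refine ⟨_, e3, ?_⟩
    show ((RepC H g ⟨h, hh⟩ : H) : G) * h⁻¹ = _
    rw [RepC_apply, commutatorElement_def]
  · exact Rep_nil H
  · intro f hf
    refine RepE_ext fun x => ?_
    have e1 := RepE_aeval (N := N) (O := O) φH f (Additive.ofMul (Abelianization.of x))
    have e2 := pw_aeval (φH : H →* H) (Abelianization.map (φH : H →* H)) Abelianization.of
      (fun g => rfl) f x
    have e3 : pw (φH : H →* H) f x ∈ commutator H := by
      have h1 := pw_map (φH : H →* H) φ H.subtype (fun g => rfl) f x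
      have h2 := hf x x.2
      rw [← Subgroup.map_subtype_commutator] at h2
      obtain ⟨y, hy, hyx⟩ := h2
      have h3 : y = pw (φH : H →* H) f x := Subtype.ext (by
        show H.subtype y = H.subtype _
        rw [hyx, h1]
        rfl)
      rw [← h3]
      exact hy
    rw [← Abelianization.ker_of, MonoidHom.mem_ker] at e3
    rw [e3, ofMul_one] at e2
    show aeval (RepE N O H φH) f _ = _
    rw [e1, ← e2, map_zero]
    rfl

theorem rep_exists {G : Type} [Group G] [Finite G] [Group.IsNilpotent G] (n : ℕ) (hn : 0 < n)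
    (hco : Nat.Coprime n (Nat.card G)) (φ : G →* G) (hφ : ∀ g, (⇑φ)^[n] g = g) (H : Subgroup G)
    (hHn : H.Normal) (hH : ∀ h ∈ H, φ h ∈ H) :
    ∃ (O V : Type) (_ : CommRing O) (_ : AddCommGroup V) (_ : Module O V) (ζ : O)
      (ρ : G →* Module.End O V) (Φ Ψ : Module.End O V), Prim O n ζ ∧
      (∀ c : ℕ, aeval (ζ ^ c) (cyclotomic (n / Nat.gcd n c) ℤ) = 0) ∧
      (∀ k : ℕ, Nat.Coprime k (Nat.card G) → IsUnit (k : O)) ∧
      Φ * Ψ = 1 ∧ Ψ * Φ = 1 ∧ Φ ^ n = 1 ∧ (∀ g, ρ (φ g) = Φ * ρ g * Ψ) ∧
      (∀ g, ρ g = 1 → ∀ h ∈ H, ⁅g, h⁆ ∈ ⁅H, H⁆) ∧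
      (∃ K : ℕ, (aug (E := Module.End O V) O ρ) ^ K = ⊥) ∧
      (∀ f : ℤ[X], (∀ h ∈ H, pw φ f h ∈ ⁅H, H⁆) → aeval Φ f = 0) := by
  obtain ⟨O, iO, iA, ζ, hprim, hcyc, hunit, r, hr⟩ := root_exists n (Nat.card G) hn Nat.card_pos hco
  have hkill : ∀ x : Additive (Abelianization H), Nat.card G • x = 0 := by
    intro x
    obtain ⟨h, hh⟩ : ∃ h : H, Abelianization.of h = Additive.toMul x :=
      QuotientGroup.mk_surjective (Additive.toMul x)
    have e : h ^ Nat.card G = 1 := by
      refine Subtype.ext ?_
      rw [SubmonoidClass.coe_pow, pow_card_eq_one']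
      rfl
    have e2 : x = Additive.ofMul (Abelianization.of h) := by rw [hh]; rfl
    rw [e2, ← ofMul_pow, ← map_pow, e, map_one, ofMul_one]
  have iM : Module (ZMod (Nat.card G)) (Additive (Abelianization H)) := AddCommGroup.zmodModule hkill
  obtain ⟨V, iV, iMV, ρ, Φ, Ψ, h1, h2, h3, h4, h5, h6, h7⟩ :=
    Rep_main n (Nat.card G) hn φ hφ H hH O r hr
  exact ⟨O, V, iO, iV, iMV, ζ, ρ, Φ, Ψ, hprim, hcyc, hunit, h1, h2, h3, h4, h5, h6, h7⟩

end Pool.Agent.LgP
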