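import Pool.Agent.LgP.Defs

/-!
# Generator trick, splitting identity, gamma trick

`derG_closure`: if `X` is closed under conjugation then `derG k (closure X) = closure (dval k X)`:
`dval k X` is closed under conjugation (`⁅a,b⁆^g = ⁅a^g, b^g⁆`); for conjugation-closed sets `A`
`⁅closure A, closure A⁆ = closure {⁅a,b⁆}`: the right side `K` is normal in the closure (it is
closed under conjugation), modulo `K` the generators commute. (`Subgroup.commutator_le`, and
`Subgroup.closure_induction` twice; or `⁅a₁a₂, b⁆ = a₁⁅a₂,b⁆a₁⁻¹ ⁅a₁,b⁆`.)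

`dval_orb`: `g ∈ dval k X` is a value of the commutator word at `2^k` elements `x i` of `X`, so it lies
in `derG k (orb φ x)` (induction on `k`, concatenate the two tuples; `derG` and `orb` are monotone).

`split_of_fpf`: `g ↦ g⁻¹ φ(g)` is injective (if `g⁻¹φ(g) = h⁻¹φ(h)` then `h g⁻¹` is fixed), hence
surjective on the finite group; for `x = g⁻¹ φ(g)` the product `∏_{j<n} φ^j(x)` telescopes to
`g⁻¹ φ^n(g) = 1`.

`gamma`: `K' = ⁅K,K⁆`, `K'' = ⁅K',K'⁆`. Suppose `⁅K', K⁆ ≤ K''` and `G` nilpotent; then `K'' = ⊥`.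
Put `L3 = ⁅K',K⁆`, `L4 = ⁅L3,K⁆` (all normal in `G`, as `K` is). Three subgroups lemma modulo `L4`:
`⁅⁅K,K⁆,K'⁆ ≤ L4`. So `L3 ≤ K'' ≤ L4 = ⁅L3,K⁆ ≤ ⁅L3,⊤⁆`, and `G` nilpotent gives `L3 = ⊥`, so
`K'' ≤ L4 = ⊥`.

`perfect`: a nilpotent group with `⁅⊤,⊤⁆ = ⊤` is trivial.
-/

set_option autoImplicit false

open scoped commutatorElement

namespace Pool.Agent.LgP

theorem dval_conj {G : Type} [Group G] (X : Set G) (hX : ∀ x ∈ X, ∀ g : G, g * x * g⁻¹ ∈ X)
    (k : ℕ) : ∀ x ∈ dval k X, ∀ g : G, g * x * g⁻¹ ∈ dval k X := by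
  induction k with
  | zero => exact hX
  | succ k ih =>
    rintro x ⟨a, ha, b, hb, rfl⟩ g
    exact ⟨_, ih a ha g, _, ih b hb g, conjugate_commutatorElement _ _ _⟩

private theorem Gen_closure_conj {G : Type} [Group G] (X : Set G)
    (hX : ∀ x ∈ X, ∀ g : G, g * x * g⁻¹ ∈ X) :
    ∀ x ∈ Subgroup.closure X, ∀ g : G, g * x * g⁻¹ ∈ Subgroup.closure X := by
  intro x hx g
  induction hx using Subgroup.closure_induction with
  | mem x hx => exact Subgroup.subset_closure (hX x hx g)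
  | one => simp
  | mul x y _ _ h1 h2 =>
    have h3 := Subgroup.mul_mem _ h1 h2
    have h4 : g * x * g⁻¹ * (g * y * g⁻¹) = g * (x * y) * g⁻¹ := by group
    rwa [h4] at h3
  | inv x _ h1 =>
    have h3 := Subgroup.inv_mem _ h1
    have h4 : (g * x * g⁻¹)⁻¹ = g * x⁻¹ * g⁻¹ := by group
    rwa [h4] at h3

private theorem Gen_comm_mem {G : Type} [Group G] (A : Set G) (K : Subgroup G)
    (hK : ∀ x ∈ K, ∀ g : G, g * x * g⁻¹ ∈ K) (y : G) (h : ∀ a ∈ A, ⁅a, y⁆ ∈ K) :
    ∀ x ∈ Subgroup.closure A, ⁅x, y⁆ ∈ K := by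
  intro x hx
  induction hx using Subgroup.closure_induction with
  | mem x hx => exact h x hx
  | one => simp
  | mul a b _ _ h1 h2 =>
    rw [commutatorElement_mul_left_eq_conj_mul]
    exact K.mul_mem (hK _ h2 a) h1
  | inv a _ h1 =>
    rw [commutatorElement_inv_left]
    have h3 := hK _ (K.inv_mem h1) a⁻¹
    rw [commutatorElement_inv, inv_inv] at h3
    exact h3

private theorem Gen_comm_closure {G : Type} [Group G] (A : Set G)
    (hA : ∀ x ∈ A, ∀ g : G, g * x * g⁻¹ ∈ A) :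
    ⁅Subgroup.closure A, Subgroup.closure A⁆ =
      Subgroup.closure {g | ∃ a ∈ A, ∃ b ∈ A, g = ⁅a, b⁆} := by
  apply le_antisymm
  · rw [Subgroup.commutator_le]
    have hK := Gen_closure_conj {g | ∃ a ∈ A, ∃ b ∈ A, g = ⁅a, b⁆} (by
      rintro x ⟨a, ha, b, hb, rfl⟩ g
      exact ⟨_, hA a ha g, _, hA b hb g, conjugate_commutatorElement _ _ _⟩)
    have h1 : ∀ b ∈ A, ∀ x ∈ Subgroup.closure A,
        ⁅x, b⁆ ∈ Subgroup.closure {g | ∃ a ∈ A, ∃ b ∈ A, g = ⁅a, b⁆} := by
      intro b hb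
      exact Gen_comm_mem A _ hK b (fun a ha => Subgroup.subset_closure ⟨a, ha, b, hb, rfl⟩)
    intro x hx y hy
    have h2 := Gen_comm_mem A _ hK x (fun a ha => by
      have h3 := Subgroup.inv_mem _ (h1 a ha x hx)
      rwa [commutatorElement_inv] at h3) y hy
    have h3 := Subgroup.inv_mem _ h2
    rwa [commutatorElement_inv] at h3
  · rw [Subgroup.closure_le]
    rintro x ⟨a, ha, b, hb, rfl⟩
    exact Subgroup.commutator_mem_commutator (Subgroup.subset_closure ha)
      (Subgroup.subset_closure hb)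

theorem derG_closure {G : Type} [Group G] (X : Set G)
    (hX : ∀ x ∈ X, ∀ g : G, g * x * g⁻¹ ∈ X) (k : ℕ) :
    derG k (Subgroup.closure X) = Subgroup.closure (dval k X) := by
  induction k with
  | zero => rfl
  | succ k ih =>
    change ⁅derG k (Subgroup.closure X), derG k (Subgroup.closure X)⁆ = _
    rw [ih]
    exact Gen_comm_closure (dval k X) (dval_conj X hX k)

private theorem Gen_derG_mono {G : Type} [Group G] {H K : Subgroup G} (h : H ≤ K) (k : ℕ) :
    derG k H ≤ derG k K := by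
  induction k with
  | zero => exact h
  | succ k ih => exact Subgroup.commutator_mono ih ih

private theorem Gen_orb_le {G ι κ : Type} [Group G] (φ : G →* G) (x : ι → G) (z : κ → G)
    (h : ∀ i, ∃ j, x i = z j) : orb φ x ≤ orb φ z := by
  unfold orb
  rw [Subgroup.closure_le]
  rintro g ⟨i, j, rfl⟩
  obtain ⟨i', hi'⟩ := h i
  rw [hi']
  exact Subgroup.subset_closure ⟨i', j, rfl⟩

theorem dval_orb {G : Type} [Group G] (φ : G →* G) (X : Set G) (k : ℕ) (g : G)
    (hg : g ∈ dval k X) : ∃ x : Fin (2 ^ k) → G, (∀ i, x i ∈ X) ∧ g ∈ derG k (orb φ x) := by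
  induction k generalizing g with
  | zero =>
    refine ⟨fun _ => g, fun _ => hg, ?_⟩
    exact Subgroup.subset_closure ⟨⟨0, by norm_num⟩, 0, rfl⟩
  | succ k ih =>
    obtain ⟨a, ha, b, hb, rfl⟩ := hg
    obtain ⟨x, hx, hxa⟩ := ih a ha
    obtain ⟨y, hy, hyb⟩ := ih b hb
    have hc : 2 ^ (k + 1) = 2 ^ k + 2 ^ k := by ring
    refine ⟨fun i => Fin.append x y (Fin.cast hc i), ?_, ?_⟩
    · intro i
      refine Fin.addCases (motive := fun j => Fin.append x y j ∈ X) ?_ ?_ (Fin.cast hc i)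
      · intro j
        rw [Fin.append_left]
        exact hx j
      · intro j
        rw [Fin.append_right]
        exact hy j
    · have h1 : orb φ x ≤ orb φ (fun i => Fin.append x y (Fin.cast hc i)) := by
        apply Gen_orb_le
        intro i
        refine ⟨Fin.cast hc.symm (Fin.castAdd _ i), ?_⟩
        have h3 : Fin.cast hc (Fin.cast hc.symm (Fin.castAdd (2 ^ k) i)) =
          Fin.castAdd (2 ^ k) i := rfl
        rw [h3, Fin.append_left]
      have h2 : orb φ y ≤ orb φ (fun i => Fin.append x y (Fin.cast hc i)) := by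
        apply Gen_orb_le
        intro i
        refine ⟨Fin.cast hc.symm (Fin.natAdd _ i), ?_⟩
        have h3 : Fin.cast hc (Fin.cast hc.symm (Fin.natAdd (2 ^ k) i)) = Fin.natAdd (2 ^ k) i := rfl
        rw [h3, Fin.append_right]
      exact Subgroup.commutator_mem_commutator (Gen_derG_mono h1 k hxa) (Gen_derG_mono h2 k hyb)

private theorem Gen_telescope {G : Type} [Group G] (φ : G →* G) (g : G) (m : ℕ) :
    ((List.range m).map fun j => (⇑φ)^[j] (g⁻¹ * φ g)).prod = g⁻¹ * (⇑φ)^[m] g := by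
  induction m with
  | zero => simp
  | succ m ih =>
    rw [List.range_succ, List.map_append, List.prod_append, ih]
    simp only [List.map_cons, List.map_nil, List.prod_cons, List.prod_nil, mul_one]
    rw [iterate_map_mul, iterate_map_inv, Function.iterate_succ_apply]
    group

theorem split_of_fpf {G : Type} [Group G] [Finite G] (n : ℕ) (φ : G →* G)
    (hφ : ∀ g, (⇑φ)^[n] g = g) (h : ∀ g, φ g = g → g = 1) : Split n φ := by
  intro x
  have hinj : Function.Injective (fun g : G => g⁻¹ * φ g) := by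
    intro a b hab
    have h1 : a⁻¹ * φ a = b⁻¹ * φ b := hab
    have h2 : φ (b * a⁻¹) = b * a⁻¹ := by
      rw [map_mul, map_inv]
      have h3 : φ b = b * (a⁻¹ * φ a) := by rw [h1]; group
      rw [h3]
      group
    have h4 := h _ h2
    exact (mul_inv_eq_one.1 h4).symm
  obtain ⟨g, hg⟩ := (Finite.injective_iff_surjective.1 hinj) x
  have hg' : g⁻¹ * φ g = x := hg
  rw [← hg', Gen_telescope, hφ]
  group

private theorem Gen_nil {G : Type} [Group G] [Group.IsNilpotent G] (L : Subgroup G)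
    (h : L ≤ ⁅L, (⊤ : Subgroup G)⁆) : L = ⊥ := by
  obtain ⟨n, hn⟩ := Subgroup.nilpotent_iff_lowerCentralSeries.1 (inferInstance :
    Group.IsNilpotent G)
  have h1 : ∀ m : ℕ, L ≤ (⊤ : Subgroup G).lowerCentralSeries m := by
    intro m
    induction m with
    | zero => exact le_top
    | succ m ih =>
      rw [Subgroup.lowerCentralSeries_succ]
      exact h.trans (Subgroup.commutator_mono ih le_rfl)
  exact eq_bot_iff.2 ((h1 n).trans hn.le)

theorem gamma {G : Type} [Group G] [Group.IsNilpotent G] (K : Subgroup G) (hK : K.Normal)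
    (h : ∀ g ∈ K, ∀ a ∈ ⁅K, K⁆, ⁅g, a⁆ ∈ ⁅⁅K, K⁆, ⁅K, K⁆⁆) : ⁅⁅K, K⁆, ⁅K, K⁆⁆ = ⊥ := by
  haveI := hK
  obtain ⟨L, hL⟩ : ∃ L : Subgroup G, L = ⁅K, ⁅K, K⁆⁆ := ⟨_, rfl⟩
  haveI hLn : L.Normal := by rw [hL]; infer_instance
  haveI hMn : (⁅L, K⁆ : Subgroup G).Normal := inferInstance
  have h1 : L ≤ ⁅⁅K, K⁆, ⁅K, K⁆⁆ := by
    rw [hL, Subgroup.commutator_le]
    exact h
  have h2 : ⁅⁅K, K⁆, ⁅K, K⁆⁆ ≤ ⁅L, K⁆ := by
    have hm : ∀ H : Subgroup G, H.map (QuotientGroup.mk' ⁅L, K⁆) = ⊥ ↔ H ≤ ⁅L, K⁆ := by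
      intro H
      rw [Subgroup.map_eq_bot_iff, QuotientGroup.ker_mk']
    rw [← hm, Subgroup.map_commutator, Subgroup.map_commutator]
    have h3 : ⁅⁅K.map (QuotientGroup.mk' ⁅L, K⁆), ⁅K.map (QuotientGroup.mk' ⁅L, K⁆),
        K.map (QuotientGroup.mk' ⁅L, K⁆)⁆⁆, K.map (QuotientGroup.mk' ⁅L, K⁆)⁆ = ⊥ := by
      rw [← Subgroup.map_commutator, ← Subgroup.map_commutator, ← Subgroup.map_commutator, hm,
        ← hL]
    apply Subgroup.commutator_commutator_eq_bot_of_rotate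
    · exact h3
    · rw [Subgroup.commutator_comm (H₁ := ⁅K.map (QuotientGroup.mk' ⁅L, K⁆),
        K.map (QuotientGroup.mk' ⁅L, K⁆)⁆) (H₂ := K.map (QuotientGroup.mk' ⁅L, K⁆))]
      exact h3
  have h4 : L = ⊥ := by
    apply Gen_nil
    exact h1.trans (h2.trans (Subgroup.commutator_mono le_rfl le_top))
  rw [eq_bot_iff]
  refine h2.trans ?_
  rw [h4, Subgroup.commutator_bot_left]

theorem perfect {G : Type} [Group G] [Group.IsNilpotent G] (h : ⁅(⊤ : Subgroup G), (⊤ : Subgroup G)⁆ = ⊤) :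
    (⊤ : Subgroup G) = ⊥ :=
  Gen_nil ⊤ h.ge

end Pool.Agent.LgP
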