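import Pool.Agent.LgP.Pw

/-!
# Lifting elements of pure type; the level drops in the quotient

`G` finite nilpotent, `|G|` coprime to `n`, `φ^n = 1`, `k ∣ n`, `1 < k`, level `k` (`Lev n k φ`), `N`
normal `φ`-invariant containing all elements of pure type `k`. Then `G / N` has level `k - 1`.

Paper proof. `X^n - 1 = cyclotomic k * w` in `ℤ[X]`; differentiate: with `c` an inverse of `n` modulo
`|G|` and `π = c * X * cyclotomic k ' * w` one has
`π ≡ 1 - c X (cyclotomic k) w'` modulo `(X^n - 1, |G|)`. So on every commutative group killed by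
`|G|` on which `θ^n = 1`: `cyclotomic k (θ) π(θ) = 0`, and `π(θ) u = u` if `cyclotomic k (θ) u = 0`.
Let `H'` be a normal invariant subgroup of `G / N`, `H` its preimage (`N ≤ H`, normal, invariant),
`C = Abelianization H'`, `q : H → C`. `fk n k (θ) = 0` on `C` by `Lev` for `H` (`pw_aeval`). Suppose
`v ∈ C` and `u = fk n (k-1) (θ) v`; then `cyclotomic k (θ) u = fk n k (θ) v = 0`. Let `a₀ ∈ H`
with `q a₀ = u` and `a_(i+1) = pw φ π a_i`, `Y_i = orb φ a_i`: a decreasing sequence of finite
subgroups, so `Y_i = Y_(i+1)` for some `i`. `q a_i = u` for all `i` (`pw_aeval`, `π(θ)u = u`). Let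
`Y = Y_i = Y_(i+1)`, `D = Abelianization Y` with the induced `θ`: `D` is generated by the
`θ^j [a_(i+1)]`, so every element of `D` is of the form `f(θ)[a_(i+1)] = f(θ)π(θ)[a_i]`, `f ∈ ℤ[X]`;
hence `cyclotomic k (θ)` kills `D`; in particular `pw φ (cyclotomic k) a_i ∈ ⁅Y,Y⁆`: `a_i` is of
pure type `k`, `a_i ∈ N`, so `u = q a_i = 1`. So `fk n (k-1) (θ) = 0` on `C`, which is
`pw φ' (fk n (k-1)) h ∈ ⁅H',H'⁆` for `h ∈ H'`.
(`θ` on `Abelianization Y` is induced by the restriction of `φ` to `Y`; `|Y|` divides `|G|`.)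
-/

set_option autoImplicit false

open Polynomial
open scoped commutatorElement

namespace Pool.Agent.LgP

private theorem LiftE_of_surj {Y : Type} [Group Y] :
    Function.Surjective (Abelianization.of (G := Y)) := fun v => Quot.exists_rep v

/-- restriction of an endomorphism to an invariant subgroup -/
private def LiftE_res {G : Type} [Group G] (φ : G →* G) (H : Subgroup G)
    (hH : ∀ h ∈ H, φ h ∈ H) : H →* H :=
  (φ.comp H.subtype).codRestrict H (fun h => hH h h.2)

private theorem LiftE_res_coe {G : Type} [Group G] (φ : G →* G) (H : Subgroup G)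
    (hH : ∀ h ∈ H, φ h ∈ H) (x : H) : ((LiftE_res φ H hH x : H) : G) = φ x := rfl

private theorem LiftE_pw {G : Type} [Group G] (φ : G →* G) (H : Subgroup G)
    (hH : ∀ h ∈ H, φ h ∈ H) (f : ℤ[X]) (x : H) :
    ((pw (LiftE_res φ H hH) f x : H) : G) = pw φ f x :=
  pw_map (LiftE_res φ H hH) φ H.subtype (fun _ => rfl) f x

private theorem LiftE_iter {G : Type} [Group G] (φ : G →* G) (H : Subgroup G)
    (hH : ∀ h ∈ H, φ h ∈ H) (j : ℕ) (x : H) :
    (((⇑(LiftE_res φ H hH))^[j] x : H) : G) = (⇑φ)^[j] x := by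
  induction j with
  | zero => rfl
  | succ j ih => rw [Function.iterate_succ_apply', Function.iterate_succ_apply', ← ih]; rfl

private theorem LiftE_comm {G : Type} [Group G] (H : Subgroup G) (x : H) :
    x ∈ _root_.commutator H ↔ (x : G) ∈ ⁅H, H⁆ := by
  rw [← Subgroup.map_subtype_commutator, Subgroup.mem_map]
  constructor
  · intro h
    exact ⟨x, h, rfl⟩
  · rintro ⟨y, hy, hyx⟩
    have : y = x := Subtype.ext hyx
    rw [← this]
    exact hy

/-- The polynomial of the projection to the part of type `k`. -/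
private theorem LiftE_poly (n k m : ℕ) (hn : 0 < n) (hkn : k ∣ n) (hco : Nat.Coprime n m) :
    ∃ π a b t : ℤ[X], cyclotomic k ℤ * π = a * (X ^ n - 1) ∧
      π = X ^ n + C (m : ℤ) * t + b * cyclotomic k ℤ := by
  have hdvd : cyclotomic k ℤ ∣ X ^ n - 1 := by
    refine (cyclotomic.dvd_X_pow_sub_one k ℤ).trans ?_
    obtain ⟨c, rfl⟩ := hkn
    have := sub_dvd_pow_sub_pow ((X : ℤ[X]) ^ k) 1 c
    rw [one_pow, ← pow_mul] at this
    exact this
  obtain ⟨w, hw⟩ := hdvd
  obtain ⟨c, b', hcb⟩ := Nat.isCoprime_iff_coprime.2 hco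
  have hd : C (n : ℤ) * X ^ (n - 1) = derivative (cyclotomic k ℤ) * w +
      cyclotomic k ℤ * derivative w := by
    have h1 : derivative ((X : ℤ[X]) ^ n - 1) = C (n : ℤ) * X ^ (n - 1) := by
      rw [derivative_sub, derivative_one, sub_zero, derivative_X_pow]
    rw [← h1, hw, derivative_mul]
  refine ⟨C c * X * derivative (cyclotomic k ℤ) * w, C c * X * derivative (cyclotomic k ℤ),
    -(C c * X * derivative w), -(C b' * X ^ n), ?_, ?_⟩
  · rw [hw]
    ring
  · have h2 : C c * X * (C (n : ℤ) * X ^ (n - 1)) = C (c * n) * X ^ n := by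
      obtain ⟨n', rfl⟩ : ∃ n', n = n' + 1 := ⟨n - 1, by omega⟩
      rw [Nat.add_sub_cancel, C_mul, pow_succ]
      ring
    have h3 : C (c * n) = (1 : ℤ[X]) - C b' * C (m : ℤ) := by
      rw [← C_mul, ← C_1, ← C_sub, ← hcb]
      congr 1
      ring
    have h4 : C c * X * derivative (cyclotomic k ℤ) * w =
        C c * X * (C (n : ℤ) * X ^ (n - 1)) - C c * X * (cyclotomic k ℤ * derivative w) := by
      rw [hd]
      ring
    rw [h4, h2, h3]
    ring

private theorem LiftE_alg {V : Type} [AddCommGroup V] (T : V →ₗ[ℤ] V) (n k m : ℕ)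
    {π a b t : ℤ[X]} (h1 : cyclotomic k ℤ * π = a * (X ^ n - 1))
    (h2 : π = X ^ n + C (m : ℤ) * t + b * cyclotomic k ℤ) (hT : ∀ v, (T ^ n) v = v)
    (hm : ∀ v : V, (m : ℤ) • v = 0) :
    (∀ v, aeval T (cyclotomic k ℤ) (aeval T π v) = 0) ∧
      ∀ u, aeval T (cyclotomic k ℤ) u = 0 → aeval T π u = u := by
  constructor
  · intro v
    rw [← Module.End.mul_apply, ← map_mul, h1, map_mul, Module.End.mul_apply]
    have : aeval T ((X : ℤ[X]) ^ n - 1) v = 0 := by
      rw [map_sub, map_pow, aeval_X, map_one, LinearMap.sub_apply, hT, Module.End.one_apply,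
        sub_self]
    rw [this, map_zero]
  · intro u hu
    rw [h2, map_add, map_add, map_mul, map_mul, LinearMap.add_apply, LinearMap.add_apply,
      Module.End.mul_apply, Module.End.mul_apply, hu, map_zero, add_zero, map_pow, aeval_X, hT]
    have : aeval T (C (m : ℤ)) (aeval T t u) = 0 := by
      rw [aeval_C, Module.algebraMap_end_apply]
      exact hm _
    rw [this, add_zero]

/-- The facts about the induced endomorphism of a commutative quotient. -/
private theorem LiftE_quot {Y C : Type} [Group Y] [CommGroup C] (ψ : Y →* Y) (θ : C →* C)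
    (q : Y →* C) (hq : Function.Surjective q) (h : ∀ g, q (ψ g) = θ (q g)) (n m : ℕ)
    (hψ : ∀ x, (⇑ψ)^[n] x = x) (hm : ∀ x : Y, x ^ m = 1) :
    (∀ (j : ℕ) (x : Y), ((MonoidHom.toAdditive θ).toIntLinearMap ^ j) (Additive.ofMul (q x)) =
      Additive.ofMul (q ((⇑ψ)^[j] x))) ∧
    (∀ v, ((MonoidHom.toAdditive θ).toIntLinearMap ^ n) v = v) ∧
    ∀ v : Additive C, (m : ℤ) • v = 0 := by
  have key : ∀ (j : ℕ) (x : Y),
      ((MonoidHom.toAdditive θ).toIntLinearMap ^ j) (Additive.ofMul (q x)) =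
      Additive.ofMul (q ((⇑ψ)^[j] x)) := by
    intro j
    induction j with
    | zero => intro x; rfl
    | succ j ih =>
      intro x
      rw [pow_succ', Module.End.mul_apply, ih, Function.iterate_succ_apply', h]
      rfl
  refine ⟨key, fun v => ?_, fun v => ?_⟩
  · obtain ⟨x, hx⟩ := hq v.toMul
    have hv : v = Additive.ofMul (q x) := by rw [hx]; rfl
    rw [hv, key, hψ]
  · obtain ⟨x, hx⟩ := hq v.toMul
    have hv : v = Additive.ofMul (q x) := by rw [hx]; rfl
    rw [hv, natCast_zsmul, ← ofMul_pow, ← map_pow, hm, map_one]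
    rfl

private theorem LiftE_orb_inv {G : Type} [Group G] (φ : G →* G) (a : G) :
    ∀ h ∈ orb φ (fun _ : Unit => a), φ h ∈ orb φ (fun _ : Unit => a) := by
  have h1 : orb φ (fun _ : Unit => a) ≤ (orb φ (fun _ : Unit => a)).comap φ := by
    unfold orb
    rw [Subgroup.closure_le]
    rintro g ⟨i, j, rfl⟩
    refine Subgroup.subset_closure ⟨i, j + 1, ?_⟩
    rw [Function.iterate_succ_apply']
  exact h1

private theorem LiftE_orb_mem {G : Type} [Group G] (φ : G →* G) (a : G) :
    a ∈ orb φ (fun _ : Unit => a) :=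
  Subgroup.subset_closure ⟨(), 0, rfl⟩

private theorem LiftE_orb_le {G : Type} [Group G] (φ : G →* G) (a : G) (H : Subgroup G)
    (hH : ∀ h ∈ H, φ h ∈ H) (ha : a ∈ H) : orb φ (fun _ : Unit => a) ≤ H := by
  unfold orb
  rw [Subgroup.closure_le]
  rintro g ⟨i, j, rfl⟩
  induction j with
  | zero => exact ha
  | succ j ih =>
    rw [Function.iterate_succ_apply']
    exact hH _ ih

/-- If `a` and `pw φ π a` generate the same invariant subgroup, `a` is of pure type `k`. -/
private theorem LiftE_pure {G : Type} [Group G] [Finite G] (n k : ℕ) (φ : G →* G)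
    (hφ : ∀ g, (⇑φ)^[n] g = g) {π A b t : ℤ[X]} (h1 : cyclotomic k ℤ * π = A * (X ^ n - 1))
    (h2 : π = X ^ n + C (Nat.card G : ℤ) * t + b * cyclotomic k ℤ) (a : G)
    (hY : orb φ (fun _ : Unit => a) = orb φ (fun _ : Unit => pw φ π a)) : Pure k φ a := by
  have hinv := LiftE_orb_inv φ a
  set Y := orb φ (fun _ : Unit => a) with hYdef
  have haY : a ∈ Y := LiftE_orb_mem φ a
  have hq := LiftE_quot (LiftE_res φ Y hinv) (Abelianization.map (LiftE_res φ Y hinv))
    (Abelianization.of (G := Y)) LiftE_of_surj (fun g => rfl) n (Nat.card G)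
    (fun x => Subtype.ext (by rw [LiftE_iter]; exact hφ x))
    (fun x => Subtype.ext (by
      rw [Subgroup.coe_pow, Subgroup.coe_one]
      exact pow_card_eq_one'))
  obtain ⟨hq1, hq2, hq3⟩ := hq
  set T := (MonoidHom.toAdditive (Abelianization.map (LiftE_res φ Y hinv))).toIntLinearMap with hT
  obtain ⟨ha1, -⟩ := LiftE_alg T n k (Nat.card G) h1 h2 hq2 hq3
  have key : ∀ g (hg : g ∈ Y), aeval T (cyclotomic k ℤ)
      (Additive.ofMul (Abelianization.of (⟨g, hg⟩ : Y))) = 0 := by
    have hgen : ∀ g ∈ Subgroup.closure {g | ∃ _ : Unit, ∃ j : ℕ, g = (⇑φ)^[j] (pw φ π a)},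
        ∀ hg : g ∈ Y, aeval T (cyclotomic k ℤ)
          (Additive.ofMul (Abelianization.of (⟨g, hg⟩ : Y))) = 0 := by
      intro g hg
      induction hg using Subgroup.closure_induction with
      | mem g hg =>
        obtain ⟨-, j, rfl⟩ := hg
        intro hg
        have e1 : (⟨(⇑φ)^[j] (pw φ π a), hg⟩ : Y) =
            (⇑(LiftE_res φ Y hinv))^[j] (pw (LiftE_res φ Y hinv) π ⟨a, haY⟩) := by
          apply Subtype.ext
          rw [LiftE_iter, LiftE_pw]
        rw [e1, ← hq1 j, pw_aeval (LiftE_res φ Y hinv)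
          (Abelianization.map (LiftE_res φ Y hinv)) Abelianization.of (fun g => rfl)]
        rw [← hT, ← Module.End.mul_apply, ← Module.End.mul_apply, mul_assoc]
        have e2 : aeval T (cyclotomic k ℤ) * (T ^ j * aeval T π) =
            T ^ j * (aeval T (cyclotomic k ℤ) * aeval T π) := by
          have e3 : T ^ j = aeval T ((X : ℤ[X]) ^ j) := by rw [map_pow, aeval_X]
          rw [e3, ← map_mul, ← map_mul, ← map_mul, ← map_mul]
          congr 1
          ring
        rw [e2, Module.End.mul_apply, Module.End.mul_apply, ha1, map_zero]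
      | one =>
        intro hg
        have : (⟨1, hg⟩ : Y) = 1 := rfl
        rw [this, map_one]
        exact map_zero _
      | mul x y hx hy ihx ihy =>
        intro hg
        have hxY : x ∈ Y := by rw [hY]; exact hx
        have hyY : y ∈ Y := by rw [hY]; exact hy
        have : (⟨x * y, hg⟩ : Y) = ⟨x, hxY⟩ * ⟨y, hyY⟩ := rfl
        rw [this, map_mul, ofMul_mul, map_add, ihx, ihy, add_zero]
      | inv x hx ihx =>
        intro hg
        have hxY : x ∈ Y := by rw [hY]; exact hx
        have : (⟨x⁻¹, hg⟩ : Y) = (⟨x, hxY⟩ : Y)⁻¹ := rfl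
        rw [this, map_inv, ofMul_inv, map_neg, ihx, neg_zero]
    intro g hg
    refine hgen g ?_ hg
    rw [hY] at hg
    exact hg
  unfold Pure
  rw [← hYdef]
  have e4 := key a haY
  rw [← pw_aeval (LiftE_res φ Y hinv) (Abelianization.map (LiftE_res φ Y hinv))
    Abelianization.of (fun g => rfl)] at e4
  have e5 : Abelianization.of (pw (LiftE_res φ Y hinv) (cyclotomic k ℤ) ⟨a, haY⟩) = 1 := e4
  rw [← MonoidHom.mem_ker, Abelianization.ker_of, LiftE_comm, LiftE_pw] at e5
  exact e5

theorem lift_step {G : Type} [Group G] [Finite G] (n k : ℕ) (hn : 0 < n) (hk : 1 < k)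
    (hkn : k ∣ n) (hco : Nat.Coprime n (Nat.card G)) (φ : G →* G)
    (hφ : ∀ g, (⇑φ)^[n] g = g) (hL : Lev n k φ) (N : Subgroup G) [N.Normal]
    (hNφ : N ≤ N.comap φ) (hN : ∀ y, Pure k φ y → y ∈ N) :
    Lev n (k - 1) (QuotientGroup.map N N φ hNφ) := by
  intro H' hH'n hH'i h' hh'
  obtain ⟨π, A, b, t, h1, h2⟩ := LiftE_poly n k (Nat.card G) hn hkn hco
  set φ' := QuotientGroup.map N N φ hNφ with hφ'
  set H := H'.comap (QuotientGroup.mk' N) with hH
  have hHn : H.Normal := hH'n.comap _
  have hφφ' : ∀ g : G, φ' (QuotientGroup.mk' N g) = QuotientGroup.mk' N (φ g) := fun g => rfl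
  have hHi : ∀ h ∈ H, φ h ∈ H := by
    intro h hh
    rw [hH, Subgroup.mem_comap, ← hφφ']
    exact hH'i _ hh
  let r : H →* H' := (QuotientGroup.mk' N).subgroupComap H'
  have hr : Function.Surjective r :=
    MonoidHom.subgroupComap_surjective_of_surjective _ _ (QuotientGroup.mk'_surjective N)
  let q : H →* Abelianization H' := Abelianization.of.comp r
  have hqs : Function.Surjective q := LiftE_of_surj.comp hr
  let θ : Abelianization H' →* Abelianization H' := Abelianization.map (LiftE_res φ' H' hH'i)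
  have hqθ : ∀ x, q (LiftE_res φ H hHi x) = θ (q x) := fun x => rfl
  obtain ⟨hq1, hq2, hq3⟩ := LiftE_quot (LiftE_res φ H hHi) θ q hqs hqθ n (Nat.card G)
    (fun x => Subtype.ext (by rw [LiftE_iter]; exact hφ x))
    (fun x => Subtype.ext (by
      rw [Subgroup.coe_pow, Subgroup.coe_one]
      exact pow_card_eq_one'))
  set T := (MonoidHom.toAdditive θ).toIntLinearMap with hT
  obtain ⟨ha1, ha2⟩ := LiftE_alg T n k (Nat.card G) h1 h2 hq2 hq3
  -- the level `k` on the quotient
  have hlev : ∀ v, aeval T (fk n k) v = 0 := by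
    intro v
    obtain ⟨x, hx⟩ := hqs v.toMul
    have hv : v = Additive.ofMul (q x) := by rw [hx]; rfl
    rw [hv, ← pw_aeval (LiftE_res φ H hHi) θ q hqθ]
    have e1 := hL H hHn hHi x x.2
    rw [← LiftE_pw φ H hHi, ← LiftE_comm] at e1
    have e2 := Abelianization.commutator_subset_ker q e1
    rw [MonoidHom.mem_ker] at e2
    rw [e2]
    rfl
  have hkill : ∀ v, aeval T (fk n (k - 1)) v = 0 := by
    intro v
    set u := aeval T (fk n (k - 1)) v with hu
    have hu0 : aeval T (cyclotomic k ℤ) u = 0 := by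
      rw [hu, ← Module.End.mul_apply, ← map_mul, ← fk_succ n k hn hk hkn]
      exact hlev v
    have hu1 : aeval T π u = u := ha2 u hu0
    obtain ⟨a₀, ha₀⟩ := hqs u.toMul
    let s : ℕ → H := fun i => (fun x => pw (LiftE_res φ H hHi) π x)^[i] a₀
    have hs : ∀ i, s (i + 1) = pw (LiftE_res φ H hHi) π (s i) := fun i =>
      Function.iterate_succ_apply' _ _ _
    have hsq : ∀ i, Additive.ofMul (q (s i)) = u := by
      intro i
      induction i with
      | zero =>
        have : s 0 = a₀ := rfl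
        rw [this, ha₀]
        rfl
      | succ i ih => rw [hs, pw_aeval (LiftE_res φ H hHi) θ q hqθ, ih, hu1]
    have hsc : ∀ i, ((s (i + 1) : H) : G) = pw φ π (s i) := by
      intro i
      rw [hs, LiftE_pw]
    obtain ⟨i, hi⟩ : ∃ i, orb φ (fun _ : Unit => (s i : G)) =
        orb φ (fun _ : Unit => (s (i + 1) : G)) := by
      by_contra hcon
      push Not at hcon
      have hanti : StrictAnti (fun i => orb φ (fun _ : Unit => (s i : G))) := by
        apply strictAnti_nat_of_succ_lt
        intro i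
        refine lt_of_le_of_ne ?_ (hcon i).symm
        apply LiftE_orb_le _ _ _ (LiftE_orb_inv φ _)
        rw [hsc]
        exact pw_mem _ _ _ (LiftE_orb_inv φ _) _ (LiftE_orb_mem φ _)
      exact not_injective_infinite_finite _ hanti.injective
    rw [hsc] at hi
    have hpure := LiftE_pure n k φ hφ h1 h2 (s i : G) hi
    have hsN := hN _ hpure
    have e3 : r (s i) = 1 := by
      apply Subtype.ext
      exact (QuotientGroup.eq_one_iff _).2 hsN
    have e4 : q (s i) = 1 := by
      have : q (s i) = Abelianization.of (r (s i)) := rfl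
      rw [this, e3, map_one]
    rw [← hsq i, e4]
    rfl
  have e6 := hkill (Additive.ofMul (Abelianization.of (⟨h', hh'⟩ : H')))
  rw [hT, ← pw_aeval (LiftE_res φ' H' hH'i) θ Abelianization.of (fun g => rfl)] at e6
  have e7 : Abelianization.of (pw (LiftE_res φ' H' hH'i) (fk n (k - 1)) ⟨h', hh'⟩) = 1 := e6
  rw [← MonoidHom.mem_ker, Abelianization.ker_of, LiftE_comm, LiftE_pw] at e7
  exact e7

end Pool.Agent.LgP
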