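import Pool.Agent.LgP.Key
import Pool.Agent.LgP.LiftE

set_option autoImplicit false

open Polynomial
open scoped commutatorElement

namespace Pool.Agent.LgP

theorem derG_mono {G : Type} [Group G] (k : ℕ) {H K : Subgroup G} (h : H ≤ K) :
    derG k H ≤ derG k K := by
  induction k with
  | zero => exact h
  | succ k ih => exact Subgroup.commutator_mono ih ih

theorem derG_anti {G : Type} [Group G] (k j : ℕ) (H : Subgroup G) :
    derG (k + j) H ≤ derG k H := by
  induction j with
  | zero => exact le_rfl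
  | succ j ih =>
    refine le_trans ?_ ih
    show ⁅derG (k + j) H, derG (k + j) H⁆ ≤ _
    exact Subgroup.commutator_le_self _

theorem derG_normal {G : Type} [Group G] (k : ℕ) (H : Subgroup G) (hH : H.Normal) :
    (derG k H).Normal := by
  induction k with
  | zero => exact hH
  | succ k ih => exact Subgroup.commutator_normal _ _

theorem derG_inv {G : Type} [Group G] (φ : G →* G) (k : ℕ) (H : Subgroup G)
    (hH : ∀ h ∈ H, φ h ∈ H) : ∀ h ∈ derG k H, φ h ∈ derG k H := by
  have h0 : H.map φ ≤ H := by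
    rintro _ ⟨x, hx, rfl⟩
    exact hH x hx
  have h1 : ∀ j, (derG j H).map φ = derG j (H.map φ) := by
    intro j
    induction j with
    | zero => rfl
    | succ j ih =>
      show (⁅derG j H, derG j H⁆).map φ = ⁅derG j (H.map φ), derG j (H.map φ)⁆
      rw [Subgroup.map_commutator, ih]
  intro h hh
  have h2 : φ h ∈ (derG k H).map φ := Subgroup.mem_map_of_mem φ hh
  rw [h1] at h2
  exact derG_mono k h0 h2

theorem derG_map' {G G' : Type} [Group G] [Group G'] (q : G →* G') (k : ℕ) (H : Subgroup G) :
    (derG k H).map q = derG k (H.map q) := by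
  induction k with
  | zero => rfl
  | succ k ih =>
    show (⁅derG k H, derG k H⁆).map q = ⁅derG k (H.map q), derG k (H.map q)⁆
    rw [Subgroup.map_commutator, ih]

theorem fk_zero (n k : ℕ) (hk : k ≤ 1) : fk n k = 1 := by
  unfold fk
  rw [Finset.prod_eq_one]
  intro d hd
  simp only [Finset.mem_filter] at hd
  omega

theorem lev_low {G : Type} [Group G] [Group.IsNilpotent G] (n k : ℕ) (hk : k ≤ 1) (φ : G →* G)
    (hL : Lev n k φ) : derG 0 (⊤ : Subgroup G) = ⊥ := by
  have h1 : ⁅(⊤ : Subgroup G), (⊤ : Subgroup G)⁆ = ⊤ := by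
    rw [eq_top_iff]
    intro g _
    have h2 := hL ⊤ inferInstance (fun h _ => Subgroup.mem_top _) g (Subgroup.mem_top _)
    rwa [fk_zero n k hk, pw_one] at h2
  exact perfect h1

/-- induction on the level -/
theorem level (n k : ℕ) (hn : 0 < n) : ∃ B d : ℕ, ∀ (G : Type) [Group G] [Finite G]
    [Group.IsNilpotent G], (∀ q, 0 < q → q ≤ B → Nat.Coprime q (Nat.card G)) →
    ∀ (φ : G →* G), (∀ g, (⇑φ)^[n] g = g) → Split n φ → Lev n k φ →
    derG d (⊤ : Subgroup G) = ⊥ := by
  induction k with
  | zero =>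
    refine ⟨0, 0, ?_⟩
    intro G _ _ _ _ φ _ _ hL
    exact lev_low n 0 (by omega) φ hL
  | succ k ih =>
    obtain ⟨B0, d0, h0⟩ := ih
    obtain ⟨B1, h1⟩ := key n
    by_cases hk : k + 1 ≤ 1
    · refine ⟨0, 0, ?_⟩
      intro G _ _ _ _ φ _ _ hL
      exact lev_low n (k + 1) hk φ hL
    by_cases hkn : (k + 1) ∣ n
    · refine ⟨max n (max B0 B1), dd n + 2 + d0, ?_⟩
      intro G _ _ _ hco φ hφ hS hL
      have hNn : (NN (k + 1) φ).Normal := NN_normal (k + 1) φ
      have hNc := NN_le_comap (k + 1) φ
      have hLq := lift_step n (k + 1) hn (by omega) hkn (hco n hn (le_max_left _ _)) φ hφ hL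
        (NN (k + 1) φ) hNc (fun y hy => Subgroup.subset_closure ⟨y, hy, 1, by simp⟩)
      have hdvd : Nat.card (G ⧸ NN (k + 1) φ) ∣ Nat.card G :=
        Subgroup.card_quotient_dvd_card _
      have hq : derG d0 (⊤ : Subgroup (G ⧸ NN (k + 1) φ)) = ⊥ := by
        refine h0 (G ⧸ NN (k + 1) φ) (fun q hq0 hq1 => ?_)
          (QuotientGroup.map _ _ φ hNc) ?_ ?_ hLq
        · exact Nat.Coprime.coprime_dvd_right hdvd
            (hco q hq0 (hq1.trans (le_trans (le_max_left _ _) (le_max_right _ _))))
        · intro g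
          obtain ⟨g, rfl⟩ := QuotientGroup.mk_surjective g
          have h2 : ∀ j, (⇑(QuotientGroup.map _ _ φ hNc))^[j] (g : G ⧸ NN (k + 1) φ) =
              (((⇑φ)^[j] g : G) : G ⧸ NN (k + 1) φ) := by
            intro j
            induction j with
            | zero => rfl
            | succ j ihj =>
              rw [Function.iterate_succ_apply', ihj, Function.iterate_succ_apply']
              rfl
          rw [h2, hφ]
        · intro g
          obtain ⟨g, rfl⟩ := QuotientGroup.mk_surjective g
          have h2 : ∀ j, (⇑(QuotientGroup.map _ _ φ hNc))^[j] (g : G ⧸ NN (k + 1) φ) =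
              (((⇑φ)^[j] g : G) : G ⧸ NN (k + 1) φ) := by
            intro j
            induction j with
            | zero => rfl
            | succ j ihj =>
              rw [Function.iterate_succ_apply', ihj, Function.iterate_succ_apply']
              rfl
          have h3 := congrArg (QuotientGroup.mk' (NN (k + 1) φ)) (hS g)
          rw [map_list_prod, List.map_map, map_one] at h3
          rw [← h3]
          congr 1
          apply List.map_congr_left
          intro j _
          exact h2 j
      -- derG d0 ⊤ ≤ N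
      have hle : derG d0 (⊤ : Subgroup G) ≤ NN (k + 1) φ := by
        intro g hg
        have h2 : QuotientGroup.mk' (NN (k + 1) φ) g ∈
            (derG d0 (⊤ : Subgroup G)).map (QuotientGroup.mk' (NN (k + 1) φ)) :=
          Subgroup.mem_map_of_mem _ hg
        rw [derG_map'] at h2
        have h3 := derG_mono d0 (le_top : (⊤ : Subgroup G).map
          (QuotientGroup.mk' (NN (k + 1) φ)) ≤ ⊤) h2
        rw [hq, Subgroup.mem_bot] at h3
        exact (QuotientGroup.eq_one_iff g).1 h3
      -- the gamma trick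
      have hKn : (derG (dd n) (NN (k + 1) φ)).Normal := derG_normal _ _ hNn
      have hK2 : derG (dd n + 2) (NN (k + 1) φ) = ⊥ := by
        refine gamma (derG (dd n) (NN (k + 1) φ)) hKn ?_
        intro g hg a ha
        refine h1 G (k + 1) hn (by omega) hkn (fun q hq0 hq1 => hco q hq0
          (hq1.trans (le_trans (le_max_right _ _) (le_max_right _ _)))) φ hφ hS hL
          ⁅derG (dd n) (NN (k + 1) φ), derG (dd n) (NN (k + 1) φ)⁆
          (Subgroup.commutator_normal _ _) ?_ g hg a ha
        exact derG_inv φ (dd n + 1) (NN (k + 1) φ) (fun h hh => hNc hh)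
      rw [← derG_add, eq_bot_iff, ← hK2]
      exact derG_mono _ hle
    · refine ⟨B0, d0, ?_⟩
      intro G _ _ _ hco φ hφ hS hL
      refine h0 G hco φ hφ hS ?_
      intro H hHn hH h hh
      have h2 := hL H hHn hH h hh
      rwa [fk_not_dvd n (k + 1) (by omega) hkn] at h2

theorem derG_derivedSeries {G : Type} [Group G] (k : ℕ) :
    derG k (⊤ : Subgroup G) = derivedSeries G k := by
  induction k with
  | zero => rfl
  | succ k ih =>
    show ⁅derG k (⊤ : Subgroup G), derG k ⊤⁆ = _
    rw [ih]
    rfl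

theorem main (n : ℕ) (hn : 0 < n) : ∃ B d : ℕ, ∀ (G : Type) [Group G] [Finite G]
    [Group.IsNilpotent G] (φ : MulAut G), (∀ q : ℕ, q.Prime → q ∣ Nat.card G → B < q) →
    φ ^ n = 1 → (∀ g, φ g = g → g = 1) → derivedSeries G d = ⊥ := by
  obtain ⟨B, d, h⟩ := level n n hn
  refine ⟨B, d, ?_⟩
  intro G _ _ _ φ hB hφ hfix
  have hit : ∀ (j : ℕ) (g : G), (⇑(φ : G ≃* G).toMonoidHom)^[j] g = (φ ^ j) g := by
    intro j
    induction j with
    | zero => intro g; rfl
    | succ j ihj =>
      intro g
      rw [Function.iterate_succ_apply', ihj, pow_succ']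
      rfl
  have hφ' : ∀ g, (⇑(φ : G ≃* G).toMonoidHom)^[n] g = g := by
    intro g
    rw [hit, hφ]
    rfl
  have hS : Split n (φ : G ≃* G).toMonoidHom := split_of_fpf n _ hφ' (fun g hg => hfix g hg)
  rw [← derG_derivedSeries]
  refine h G ?_ (φ : G ≃* G).toMonoidHom hφ' hS (lev_start n hn _ hS)
  intro q hq0 hqB
  rw [Nat.coprime_iff_gcd_eq_one]
  by_contra hne
  obtain ⟨r, hr, hrd⟩ := Nat.exists_prime_and_dvd hne
  have h1 : r ∣ q := hrd.trans (Nat.gcd_dvd_left _ _)
  have h2 : r ∣ Nat.card G := hrd.trans (Nat.gcd_dvd_right _ _)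
  have h3 := hB r hr h2
  have h4 := Nat.le_of_dvd hq0 h1
  omega

end Pool.Agent.LgP
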