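import Pool.Agent.LgP.Lg

/-!
# The conjugation representation on a submodule

`W ≤ E` is stable under conjugation by `ρ g`. `ρ' g w = ρ g * w * ρ g⁻¹`.
Nilpotency: let `F k = ⨆_{a+b=k} I^a * ⊤ * I^b ≤ E`, `I = aug O ρ` (`I^0 = 1`); `ρ' g - 1` maps
`F k` into `F (k+1)` (`ρ g (i e i') ρ g⁻¹ - i e i' = (ρ g - 1) i e i' ρ g⁻¹ + i e i' (ρ g⁻¹ - 1)`,
`I^b ρ g⁻¹ ≤ I^b` for `b ≥ 1`, and for `b = 0` absorb into `e ∈ ⊤`), and `F (2M) = ⊥` because
`a ≥ M` or `b ≥ M`. Logarithm: `ρ'(g)^s w = ρ(g^s) w ρ(g^-s)` is a polynomial family in `s`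
(`powFam` for `ρ g` and `ρ g⁻¹`), coefficient of `s^1`: `lg(ρ g - 1) w + w lg(ρ g⁻¹ - 1)`, and
`lg(ρ g⁻¹ - 1) = - lg(ρ g - 1)` (coefficient of `s` in `ρ(g)^s ρ(g⁻¹)^s = 1`). Compare with
`lg_unique` (or with `powFam` for `ρ' g` and `vand`).

`derL_ad`: an element of `derL k (lgSpan O (2*M) ρ')` acts on `W` as `w ↦ a w - w a` for some
`a ∈ derL k (lgSpan O M ρ)`; induction on `k`, span induction.
-/

set_option autoImplicit false

namespace Pool.Agent.LgP

/-- the conjugation representation -/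
private noncomputable def AdRep_rho {O E X : Type} [CommRing O] [Ring E] [Algebra O E] [Group X]
    (ρ : X →* E) (W : Submodule O E) (hW : ∀ g, ∀ w ∈ W, ρ g * w * ρ g⁻¹ ∈ W) :
    X →* Module.End O W where
  toFun g :=
    { toFun := fun w => ⟨ρ g * w * ρ g⁻¹, hW g w w.2⟩
      map_add' := fun a b => by
        apply Subtype.ext
        simp [mul_add, add_mul]
      map_smul' := fun r a => by
        apply Subtype.ext
        simp }
  map_one' := by
    ext w
    simp
  map_mul' g h := by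
    ext w
    simp [mul_assoc, mul_inv_rev]

/-- the filtration -/
private def AdRep_F {O E : Type} [CommRing O] [Ring E] [Algebra O E] (I : Submodule O E) (k : ℕ) :
    Submodule O E :=
  ⨆ a : ℕ, ⨆ b : ℕ, ⨆ _ : a + b = k, I ^ a * (⊤ * I ^ b)

private lemma AdRep_mem_F {O E : Type} [CommRing O] [Ring E] [Algebra O E] {I : Submodule O E}
    {a b k : ℕ} (h : a + b = k) {z : E} (hz : z ∈ I ^ a * (⊤ * I ^ b)) : z ∈ AdRep_F I k :=
  (le_iSup_of_le a (le_iSup_of_le b (le_iSup_of_le h le_rfl)) :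
    I ^ a * (⊤ * I ^ b) ≤ AdRep_F I k) hz

private lemma AdRep_F_zero {O E : Type} [CommRing O] [Ring E] [Algebra O E] {I : Submodule O E}
    (z : E) : z ∈ AdRep_F I 0 := by
  refine AdRep_mem_F (a := 0) (b := 0) rfl ?_
  rw [pow_zero, one_mul, mul_one]
  exact Submodule.mem_top

private lemma AdRep_F_bot {O E : Type} [CommRing O] [Ring E] [Algebra O E] {I : Submodule O E}
    {M : ℕ} (hM : I ^ M = ⊥) : AdRep_F I (2 * M) = ⊥ := by
  rw [eq_bot_iff]
  refine iSup_le fun a => iSup_le fun b => iSup_le fun h => ?_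
  rcases le_or_gt M a with h1 | h1
  · obtain ⟨c, rfl⟩ := Nat.exists_eq_add_of_le h1
    rw [pow_add, hM, Submodule.bot_mul, Submodule.bot_mul]
  · have h2 : M ≤ b := by omega
    obtain ⟨c, rfl⟩ := Nat.exists_eq_add_of_le h2
    rw [pow_add, hM, Submodule.bot_mul, Submodule.mul_bot, Submodule.mul_bot]

private lemma AdRep_aug_mul {O E X : Type} [CommRing O] [Ring E] [Algebra O E] [Group X]
    (ρ : X →* E) (h : X) : ∀ i ∈ aug O ρ, i * ρ h ∈ aug O ρ := by
  intro i hi
  unfold aug at hi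
  refine Submodule.span_induction (p := fun i _ => i * ρ h ∈ aug O ρ) ?_ ?_ ?_ ?_ hi
  · rintro _ ⟨x, rfl⟩
    have e : (ρ x - 1) * ρ h = (ρ (x * h) - 1) - (ρ h - 1) := by
      rw [map_mul, sub_mul, one_mul]
      abel
    simp only
    rw [e]
    exact Submodule.sub_mem _ (Submodule.subset_span ⟨_, rfl⟩) (Submodule.subset_span ⟨_, rfl⟩)
  · rw [zero_mul]
    exact Submodule.zero_mem _
  · intro x y _ _ hx hy
    rw [add_mul]
    exact Submodule.add_mem _ hx hy
  · intro r x _ hx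
    rw [smul_mul_assoc]
    exact Submodule.smul_mem _ _ hx

private lemma AdRep_R_mul {O E X : Type} [CommRing O] [Ring E] [Algebra O E] [Group X]
    (ρ : X →* E) (h : X) (b : ℕ) :
    ∀ y ∈ (⊤ * (aug O ρ) ^ b : Submodule O E), y * ρ h ∈ (⊤ * (aug O ρ) ^ b : Submodule O E) := by
  induction b with
  | zero =>
    intro y _
    rw [pow_zero, mul_one]
    exact Submodule.mem_top
  | succ b ih =>
    intro y hy
    rw [pow_succ, ← mul_assoc] at hy ⊢
    refine Submodule.mul_induction_on hy ?_ ?_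
    · intro m hm i hi
      have e : m * i * ρ h = m * (i * ρ h) := mul_assoc _ _ _
      rw [e]
      exact Submodule.mul_mem_mul hm (AdRep_aug_mul ρ h i hi)
    · intro x y hx hy
      rw [add_mul]
      exact Submodule.add_mem _ hx hy

private lemma AdRep_conj {O E X : Type} [CommRing O] [Ring E] [Algebra O E] [Group X]
    (ρ : X →* E) (g : X) (k : ℕ) (z : E) (hz : z ∈ AdRep_F (aug O ρ) k) :
    ρ g * z * ρ g⁻¹ - z ∈ AdRep_F (aug O ρ) (k + 1) := by
  set I := aug O ρ with hI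
  let c : E →ₗ[O] E :=
    { toFun := fun z => ρ g * z * ρ g⁻¹ - z
      map_add' := fun a b => by
        rw [mul_add, add_mul]
        abel
      map_smul' := fun r a => by
        rw [mul_smul_comm, smul_mul_assoc, smul_sub]
        rfl }
  have key : AdRep_F I k ≤ (AdRep_F I (k + 1)).comap c := by
    refine iSup_le fun a => iSup_le fun b => iSup_le fun h => ?_
    rw [Submodule.mul_le]
    intro x hx y hy
    rw [Submodule.mem_comap]
    have e : c (x * y) = ((ρ g - 1) * x) * (y * ρ g⁻¹) + x * (y * (ρ g⁻¹ - 1)) := by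
      change ρ g * (x * y) * ρ g⁻¹ - x * y = _
      noncomm_ring
    rw [e]
    refine Submodule.add_mem _ ?_ ?_
    · refine AdRep_mem_F (a := a + 1) (b := b) (by omega) ?_
      refine Submodule.mul_mem_mul ?_ (AdRep_R_mul ρ g⁻¹ b y hy)
      rw [pow_succ']
      exact Submodule.mul_mem_mul (Submodule.subset_span ⟨_, rfl⟩) hx
    · refine AdRep_mem_F (a := a) (b := b + 1) (by omega) ?_
      refine Submodule.mul_mem_mul hx ?_
      rw [pow_succ, ← mul_assoc]
      exact Submodule.mul_mem_mul hy (Submodule.subset_span ⟨_, rfl⟩)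
  exact key hz

private lemma AdRep_pow {O E X : Type} [CommRing O] [Ring E] [Algebra O E] [Group X]
    (ρ : X →* E) (W : Submodule O E) (ρ' : X →* Module.End O W)
    (h : ∀ (g : X) (w : W), ((ρ' g w : W) : E) = ρ g * w * ρ g⁻¹) (k : ℕ) :
    ∀ T ∈ (aug (E := Module.End O W) O ρ') ^ k, ∀ w : W,
      ((T w : W) : E) ∈ AdRep_F (aug O ρ) k := by
  induction k with
  | zero =>
    intro T _ w
    exact AdRep_F_zero _
  | succ k ih =>
    intro T hT
    rw [pow_succ'] at hT
    refine Submodule.mul_induction_on hT ?_ ?_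
    · intro S hS T' hT' w
      have h1 := ih T' hT' w
      rw [Module.End.mul_apply]
      generalize T' w = w' at h1
      unfold aug at hS
      refine Submodule.span_induction
        (p := fun S _ => ((S w' : W) : E) ∈ AdRep_F (aug O ρ) (k + 1)) ?_ ?_ ?_ ?_ hS
      · rintro _ ⟨g, rfl⟩
        have e : (((ρ' g - 1) w' : W) : E) = ρ g * (w' : E) * ρ g⁻¹ - w' := by
          rw [LinearMap.sub_apply, Submodule.coe_sub, h, Module.End.one_apply]
        simp only
        rw [e]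
        exact AdRep_conj ρ g k _ h1
      · simp
      · intro x y _ _ hx hy
        rw [LinearMap.add_apply, Submodule.coe_add]
        exact Submodule.add_mem _ hx hy
      · intro r x _ hx
        rw [LinearMap.smul_apply, Submodule.coe_smul]
        exact Submodule.smul_mem _ _ hx
    · intro x y hx hy w
      rw [LinearMap.add_apply, Submodule.coe_add]
      exact Submodule.add_mem _ (hx w) (hy w)

private lemma AdRep_sum {V : Type} [AddCommGroup V] (M : ℕ) (B : ℕ → ℕ → V)
    (h1 : ∀ i j, M < i → B i j = 0) (h2 : ∀ i j, M < j → B i j = 0) :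
    ∑ i ∈ Finset.range (M + 1), ∑ j ∈ Finset.range (M + 1), B i j =
      ∑ k ∈ Finset.range (2 * M + 1), ∑ p ∈ Finset.HasAntidiagonal.antidiagonal k, B p.1 p.2 := by
  classical
  rw [← Finset.sum_product']
  have h3 : ∀ x ∈ Finset.range (M + 1) ×ˢ Finset.range (M + 1),
      x.1 + x.2 ∈ Finset.range (2 * M + 1) := by
    intro x hx
    rw [Finset.mem_product, Finset.mem_range, Finset.mem_range] at hx
    rw [Finset.mem_range]
    omega
  rw [← Finset.sum_fiberwise_of_maps_to h3]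
  refine Finset.sum_congr rfl (fun k _ => ?_)
  refine Finset.sum_subset ?_ ?_
  · intro x hx
    rw [Finset.mem_filter] at hx
    rw [Finset.HasAntidiagonal.mem_antidiagonal]
    exact hx.2
  · intro x hx hx'
    rw [Finset.HasAntidiagonal.mem_antidiagonal] at hx
    rw [Finset.mem_filter, Finset.mem_product, Finset.mem_range, Finset.mem_range] at hx'
    by_cases h : M < x.1
    · exact h1 _ _ h
    · refine h2 _ _ ?_
      by_contra h'
      exact hx' ⟨⟨by omega, by omega⟩, hx⟩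

private lemma AdRep_expand {O E : Type} [CommRing O] [Ring E] [Algebra O E] (M : ℕ)
    (a b w : E) (e f : ℕ → E) (he : ∀ k, M < k → e k = 0) (hf : ∀ k, M < k → f k = 0)
    (hea : ∀ s : ℕ, a ^ s = ∑ k ∈ Finset.range (M + 1), (s : O) ^ k • e k)
    (hfb : ∀ s : ℕ, b ^ s = ∑ k ∈ Finset.range (M + 1), (s : O) ^ k • f k) (s : ℕ) :
    a ^ s * w * b ^ s = ∑ k ∈ Finset.range (2 * M + 1),
      (s : O) ^ k • ∑ p ∈ Finset.HasAntidiagonal.antidiagonal k, e p.1 * w * f p.2 := by
  rw [hea, hfb, Finset.sum_mul, Finset.sum_mul_sum]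
  rw [AdRep_sum M (fun i j => (s : O) ^ i • e i * w * (s : O) ^ j • f j)]
  · refine Finset.sum_congr rfl (fun k _ => ?_)
    rw [Finset.smul_sum]
    refine Finset.sum_congr rfl (fun p hp => ?_)
    rw [Finset.HasAntidiagonal.mem_antidiagonal] at hp
    rw [smul_mul_assoc, smul_mul_assoc, mul_smul_comm, smul_smul, ← pow_add, hp]
  · intro i j h
    simp only [he i h, smul_zero, zero_mul]
  · intro i j h
    simp only [hf j h, smul_zero, mul_zero]

private lemma AdRep_pow_mem {O E X : Type} [CommRing O] [Ring E] [Algebra O E] [Group X]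
    (ρ : X →* E) {M : ℕ} (hM : (aug O ρ) ^ M = ⊥) (g : X) : (ρ g - 1) ^ M = 0 := by
  have h0 : ρ g - 1 ∈ aug O ρ := Submodule.subset_span ⟨g, rfl⟩
  have h : (ρ g - 1) ^ M ∈ (aug O ρ) ^ M := Submodule.pow_mem_pow _ h0 M
  rw [hM] at h
  exact (Submodule.mem_bot O).1 h

theorem ad_exists {O E X : Type} [CommRing O] [Ring E] [Algebra O E] [Group X] (M : ℕ)
    (hM0 : 0 < M) (hU : UpTo O (4 * M + 4)) (ρ : X →* E) (hM : (aug O ρ) ^ M = ⊥)
    (W : Submodule O E) (hW : ∀ g, ∀ w ∈ W, ρ g * w * ρ g⁻¹ ∈ W) :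
    ∃ ρ' : X →* Module.End O W, (∀ (g : X) (w : W), ((ρ' g w : W) : E) = ρ g * w * ρ g⁻¹) ∧
      (aug (E := Module.End O W) O ρ') ^ (2 * M) = ⊥ ∧
      (∀ (g : X) (w : W), ((lg O (2 * M) (ρ' g - 1) w : W) : E) =
        lg O M (ρ g - 1) * w - w * lg O M (ρ g - 1)) := by
  have hUle : ∀ B ≤ 4 * M + 4, UpTo O B := fun B hB k hk hkB => hU k hk (hkB.trans hB)
  obtain ⟨ρ', hρ'⟩ : ∃ ρ' : X →* Module.End O W,
      ∀ (g : X) (w : W), ((ρ' g w : W) : E) = ρ g * w * ρ g⁻¹ :=
    ⟨AdRep_rho ρ W hW, fun g w => rfl⟩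
  have hnil : (aug (E := Module.End O W) O ρ') ^ (2 * M) = ⊥ := by
    rw [eq_bot_iff]
    intro T hT
    rw [Submodule.mem_bot]
    ext w
    have h1 := AdRep_pow ρ W ρ' hρ' (2 * M) T hT w
    rw [AdRep_F_bot hM, Submodule.mem_bot] at h1
    rw [h1]
    rfl
  refine ⟨ρ', hρ', hnil, fun g w => ?_⟩
  obtain ⟨e, he0, he1, heM, -, hes⟩ := powFam (O := O) M (hUle _ (by omega)) (ρ g - 1)
    (AdRep_pow_mem ρ hM g)
  obtain ⟨f, hf0, hf1, hfM, -, hfs⟩ := powFam (O := O) M (hUle _ (by omega)) (ρ g⁻¹ - 1)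
    (AdRep_pow_mem ρ hM g⁻¹)
  have h0 : ρ' g - 1 ∈ aug (E := Module.End O W) O ρ' := Submodule.subset_span ⟨g, rfl⟩
  have hp1 := Submodule.pow_mem_pow _ h0 (2 * M)
  rw [hnil] at hp1
  have hp : (ρ' g - 1) ^ (2 * M) = 0 := (Submodule.mem_bot O).1 hp1
  obtain ⟨e', he'0, he'1, he'M, -, he's⟩ := powFam (O := O) (E := Module.End O W) (2 * M)
    (hUle _ (by omega)) (ρ' g - 1) hp
  have hes' : ∀ s : ℕ, (ρ g) ^ s = ∑ k ∈ Finset.range (M + 1), (s : O) ^ k • e k := fun s => by
    rw [← hes s, add_sub_cancel]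
  have hfs' : ∀ s : ℕ, (ρ g⁻¹) ^ s = ∑ k ∈ Finset.range (M + 1), (s : O) ^ k • f k := fun s => by
    rw [← hfs s, add_sub_cancel]
  have hexp := fun w : E => AdRep_expand (O := O) M (ρ g) (ρ g⁻¹) w e f heM hfM hes' hfs'
  have hanti : ∀ F : ℕ × ℕ → E, ∑ p ∈ Finset.HasAntidiagonal.antidiagonal 1, F p = F (0, 1) + F (1, 0) := by
    intro F
    rw [Finset.Nat.antidiagonal_succ]
    simp
  -- the logarithm of the inverse
  have hinv : f 1 + e 1 = 0 := by
    have h1 := vand (O := O) (2 * M + 1) (hUle _ (by omega)) (⊥ : Submodule O E)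
      (fun k => ∑ p ∈ Finset.HasAntidiagonal.antidiagonal k, e p.1 * 1 * f p.2 - if k = 0 then 1 else 0)
      (fun s => by
        rw [Submodule.mem_bot]
        simp only [smul_sub, Finset.sum_sub_distrib]
        rw [← hexp 1 s]
        have h2 : ∑ k ∈ Finset.range (2 * M + 1), (s : O) ^ k • (if k = 0 then (1 : E) else 0) =
            1 := by
          rw [Finset.sum_eq_single 0]
          · simp
          · intro b _ hb
            simp [hb]
          · intro h
            exact absurd (Finset.mem_range.2 (by omega)) h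
        rw [h2, mul_one]
        have h3 : Commute (ρ g) (ρ g⁻¹) := by
          change ρ g * ρ g⁻¹ = ρ g⁻¹ * ρ g
          rw [← map_mul, ← map_mul, mul_inv_cancel, inv_mul_cancel]
        rw [← h3.mul_pow, ← map_mul, mul_inv_cancel, map_one, one_pow, sub_self]) 1 (by omega)
    rw [Submodule.mem_bot, hanti] at h1
    simp only [he0, hf0, mul_one, one_mul, if_neg one_ne_zero, sub_zero] at h1
    exact h1
  -- comparison of the two expansions
  have hcmp := vand (O := O) (2 * M + 1) (hUle _ (by omega)) (⊥ : Submodule O E)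
    (fun k => ((e' k w : W) : E) - ∑ p ∈ Finset.HasAntidiagonal.antidiagonal k, e p.1 * (w : E) * f p.2)
    (fun s => by
      rw [Submodule.mem_bot]
      simp only [smul_sub, Finset.sum_sub_distrib]
      rw [← hexp (w : E) s]
      have h2 : ∑ k ∈ Finset.range (2 * M + 1), (s : O) ^ k • ((e' k w : W) : E) =
          (((ρ' g) ^ s) w : W) := by
        have h30 : 1 + (ρ' g - 1) = ρ' g := by abel
        have h3 := he's s
        rw [h30] at h3
        rw [h3, LinearMap.sum_apply, Submodule.coe_sum]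
        refine Finset.sum_congr rfl (fun k _ => ?_)
        rw [LinearMap.smul_apply, Submodule.coe_smul]
      rw [h2]
      have h4 : ∀ s : ℕ, ((((ρ' g) ^ s) w : W) : E) =
          (ρ g) ^ s * w * (ρ g⁻¹) ^ s := by
        intro s
        induction s with
        | zero => simp
        | succ s ih =>
          rw [pow_succ', Module.End.mul_apply, hρ', ih, pow_succ' (ρ g), pow_succ (ρ g⁻¹)]
          simp only [mul_assoc]
      rw [h4, sub_self]) 1 (by omega)
  rw [Submodule.mem_bot, hanti] at hcmp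
  simp only [he0, hf0, mul_one, one_mul] at hcmp
  rw [← he'1, ← he1, sub_eq_zero.1 hcmp, eq_neg_of_add_eq_zero_left hinv]
  noncomm_ring

theorem derL_ad {O E X : Type} [CommRing O] [Ring E] [Algebra O E] [Group X] (M : ℕ)
    (ρ : X →* E) (W : Submodule O E) (ρ' : X →* Module.End O W)
    (h : ∀ (g : X) (w : W), ((lg O (2 * M) (ρ' g - 1) w : W) : E) =
        lg O M (ρ g - 1) * w - w * lg O M (ρ g - 1)) (k : ℕ) :
    ∀ T ∈ derL k (lgSpan (E := Module.End O W) O (2 * M) ρ'), ∃ a ∈ derL k (lgSpan O M ρ),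
      ∀ w : W, ((T w : W) : E) = a * w - w * a := by
  have hlin : ∀ (S : Submodule O E) (G : Set (Module.End O W)),
      (∀ T ∈ G, ∃ a ∈ S, ∀ w : W, ((T w : W) : E) = a * w - w * a) →
      ∀ T ∈ Submodule.span O G, ∃ a ∈ S, ∀ w : W, ((T w : W) : E) = a * w - w * a := by
    intro S G hG T hT
    refine Submodule.span_induction
      (p := fun T _ => ∃ a ∈ S, ∀ w : W, ((T w : W) : E) = a * w - w * a) ?_ ?_ ?_ ?_ hT
    · exact fun T hT => hG T hT
    · exact ⟨0, Submodule.zero_mem _, fun w => by simp⟩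
    · rintro x y _ _ ⟨a, ha, ha'⟩ ⟨b, hb, hb'⟩
      refine ⟨a + b, Submodule.add_mem _ ha hb, fun w => ?_⟩
      rw [LinearMap.add_apply, Submodule.coe_add, ha', hb']
      noncomm_ring
    · rintro r x _ ⟨a, ha, ha'⟩
      refine ⟨r • a, Submodule.smul_mem _ _ ha, fun w => ?_⟩
      rw [LinearMap.smul_apply, Submodule.coe_smul, ha', smul_sub, smul_mul_assoc, mul_smul_comm]
  induction k with
  | zero =>
    refine hlin _ _ ?_
    rintro _ ⟨x, rfl⟩
    exact ⟨lg O M (ρ x - 1), Submodule.subset_span ⟨x, rfl⟩, fun w => h x w⟩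
  | succ k ih =>
    refine hlin _ _ ?_
    rintro _ ⟨A, hA, B, hB, rfl⟩
    obtain ⟨a, ha, ha'⟩ := ih A hA
    obtain ⟨b, hb, hb'⟩ := ih B hB
    refine ⟨a * b - b * a, Submodule.subset_span ⟨a, ha, b, hb, rfl⟩, fun w => ?_⟩
    rw [LinearMap.sub_apply, Submodule.coe_sub, Module.End.mul_apply, Module.End.mul_apply,
      ha' (B w), hb' w, hb' (A w), ha' w]
    noncomm_ring

end Pool.Agent.LgP
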