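import Mathlib

/-!
# LgP: fixed-point-free automorphisms, large primes (MP_2cd00b_al)

Definitions used by all modules. Conventions: `O` is a commutative ring containing a principal
`n`-th root of unity `ζ`, in which all small integers are invertible; `E`, `A` are associative
`O`-algebras with an algebra endomorphism `σ`, `σ^n = 1`; `ρ : X →* E` is a representation of a
group `X` and `aug O ρ` is the `O`-span of the elements `ρ x - 1`.
-/

set_option autoImplicit false

open scoped commutatorElement

namespace Pool.Agent.LgP

/-- `ζ` is a principal `n`-th root of unity and `n` is invertible. -/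
structure Prim (O : Type) [CommRing O] (n : ℕ) (ζ : O) : Prop where
  pos : 0 < n
  pow : ζ ^ n = 1
  sum : ∀ i : ℕ, ¬ n ∣ i → ∑ j ∈ Finset.range n, ζ ^ (i * j) = 0
  unit : IsUnit (n : O)

/-- all positive integers up to `B` are invertible in `O` -/
def UpTo (O : Type) [CommRing O] (B : ℕ) : Prop := ∀ k : ℕ, 0 < k → k ≤ B → IsUnit (k : O)

/-- a submodule of an associative algebra which is closed under commutators -/
def IsLie {O A : Type} [CommRing O] [Ring A] [Algebra O A] (S : Submodule O A) : Prop :=
  ∀ a ∈ S, ∀ b ∈ S, a * b - b * a ∈ S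

/-- the derived series of a (Lie closed) submodule of an associative algebra -/
def derL {O A : Type} [CommRing O] [Ring A] [Algebra O A] : ℕ → Submodule O A → Submodule O A
  | 0, S => S
  | k + 1, S => Submodule.span O {x | ∃ a ∈ derL k S, ∃ b ∈ derL k S, x = a * b - b * a}

/-- left normed commutators of weight `k + 1` in the elements `s i` -/
def LN {A ι : Type} [Ring A] (s : ι → A) : ℕ → Set A
  | 0 => Set.range s
  | k + 1 => {x | ∃ a ∈ LN s k, ∃ i, x = a * s i - s i * a}

/-- the span of all `ρ x - 1` -/
def aug (O : Type) {E X : Type} [CommRing O] [Ring E] [Algebra O E] [Group X] (ρ : X →* E) :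
    Submodule O E :=
  Submodule.span O (Set.range fun x => ρ x - 1)

/-- truncated logarithm of `1 + u` -/
noncomputable def lg (O : Type) {E : Type} [CommRing O] [Ring E] [Algebra O E] (M : ℕ) (u : E) :
    E :=
  ∑ k ∈ Finset.Ico 1 M, ((-1) ^ (k + 1) * Ring.inverse (k : O)) • u ^ k

/-- the span of the logarithms of the elements `ρ x` -/
noncomputable def lgSpan (O : Type) {E X : Type} [CommRing O] [Ring E] [Algebra O E] [Group X]
    (M : ℕ) (ρ : X →* E) : Submodule O E :=
  Submodule.span O (Set.range fun x => lg O M (ρ x - 1))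

/-- the integral polynomial `f = ∑ f_i t^i` applied to the group element `g` through the
endomorphism `φ`: the product of the `φ^i(g)^(f_i)` in the order of increasing `i`. -/
def pw {G : Type} [Group G] (φ : G →* G) (f : Polynomial ℤ) (g : G) : G :=
  ((List.range (f.natDegree + 1)).map fun i => ((⇑φ)^[i] g) ^ (f.coeff i)).prod

/-- the splitting identity: `g φ(g) φ²(g) ⋯ φ^(n-1)(g) = 1` for all `g`. -/
def Split {G : Type} [Group G] (n : ℕ) (φ : G →* G) : Prop :=
  ∀ g : G, ((List.range n).map fun j => (⇑φ)^[j] g).prod = 1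

/-- the subgroup generated by the `φ`-orbits of the elements `x i` -/
def orb {G ι : Type} [Group G] (φ : G →* G) (x : ι → G) : Subgroup G :=
  Subgroup.closure {g | ∃ i : ι, ∃ j : ℕ, g = (⇑φ)^[j] (x i)}

/-- the product of the cyclotomic polynomials of the divisors `d` of `n` with `1 < d ≤ k` -/
noncomputable def fk (n k : ℕ) : Polynomial ℤ :=
  ∏ d ∈ n.divisors.filter (fun d => 1 < d ∧ d ≤ k), Polynomial.cyclotomic d ℤ

/-- level `k`: on the abelianisation of every normal `φ`-invariant subgroup only eigenvalues of
order `d` with `1 < d ≤ k` occur. -/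
def Lev {G : Type} [Group G] (n k : ℕ) (φ : G →* G) : Prop :=
  ∀ H : Subgroup G, H.Normal → (∀ h ∈ H, φ h ∈ H) → ∀ h ∈ H, pw φ (fk n k) h ∈ ⁅H, H⁆

/-- elements of pure type `k`: the `φ`-invariant subgroup `Y` generated by `y` has an
abelianisation killed by the `k`-th cyclotomic polynomial. -/
def Pure {G : Type} [Group G] (k : ℕ) (φ : G →* G) (y : G) : Prop :=
  pw φ (Polynomial.cyclotomic k ℤ) y ∈ ⁅orb φ (fun _ : Unit => y), orb φ (fun _ : Unit => y)⁆

/-- derived series of a subgroup, inside the big group -/
def derG {G : Type} [Group G] : ℕ → Subgroup G → Subgroup G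
  | 0, H => H
  | k + 1, H => ⁅derG k H, derG k H⁆

/-- values of the outer commutator word of the derived series on a set -/
def dval {G : Type} [Group G] : ℕ → Set G → Set G
  | 0, X => X
  | k + 1, X => {g | ∃ a ∈ dval k X, ∃ b ∈ dval k X, g = ⁅a, b⁆}

end Pool.Agent.LgP
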