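import Pool.Agent.LgP.Defs

/-!
# The associated graded algebra of the augmentation filtration

`E` is an `O`-algebra with an endomorphism `σ`, `σ^n = 1`, `ρ : X →* E`, `I = aug O ρ`,
`σ (ρ x) = ρ (φ x)` and `x φ(x) ⋯ φ^(n-1)(x) = 1` for all `x` in `X`. `gr_exists` produces an
`O`-algebra `A` with endomorphism `τ`, a Lie closed `τ`-stable submodule `S` with trace zero and a
linear letter map `ℓ : E →ₗ[O] A` such that for `u ∈ I` the letter `ℓ u` lies in `S`,
`u^m = 0` implies `(ℓ u)^m = 0` (for `0 < m`), and: if all products of `M` letters `ℓ (u i)` vanish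
(`u i ∈ I`) then all products of `M` elements `u i` lie in `I^(M+1)`.

Paper proof. Note `I * I ≤ I` (`(ρ x - 1)(ρ y - 1) = (ρ (xy) - 1) - (ρ x - 1) - (ρ y - 1)`), `I^0 = 1`,
`I^i * I^j = I^(i+j)`, `σ (I^j) ≤ I^j`. Let `R` be the set of polynomials `f ∈ E[T]` (Polynomial E)
with `f.coeff j ∈ I^j` for all `j`: a subalgebra. Let `J` be the set of `f ∈ R` with
`f.coeff j ∈ I^(j+1)` for all `j`: a two-sided ideal of `R`. `A = R / J`. `τ` is induced by `σ`
acting on the coefficients. Letters: `ℓ u = class of u T` for `u ∈ I`; to have a linear map on all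
of `E` compose with anything, or let `ℓ` be defined on the submodule `I` (the statement below takes
`ℓ : I →ₗ[O] A`). `(ℓ u)^m = class of u^m T^m`. A product of `M` letters is the class of
`(u_1 ⋯ u_M) T^M`, it vanishes iff `u_1 ⋯ u_M ∈ I^(M+1)`.
`S` = span of the classes of `(ρ g - 1) T^k` with `1 ≤ k`, `ρ g - 1 ∈ I^k`. For `ρ g - 1 ∈ I^k`,
`ρ h - 1 ∈ I^l` and `c = g⁻¹ h⁻¹ g h` one has
`(ρ g - 1)(ρ h - 1) - (ρ h - 1)(ρ g - 1) = ρ g ρ h - ρ h ρ g = ρ (h g) (ρ c - 1)`, so
`ρ c - 1 = ρ ((h g)⁻¹) * [..] ∈ I^(k+l)` and the difference of `[..]` and `ρ c - 1` lies in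
`I * I^(k+l) = I^(k+l+1)`: so `S` is Lie closed. `τ` maps `(ρ g - 1)T^k` to `(ρ (φ g) - 1) T^k`.
Trace: `∑_j (ρ (φ^j g) - 1) ≡ ρ (∏_j φ^j g) - 1 = 0` modulo `I^(2k) ≤ I^(k+1)`
(`ρ (ab) - 1 = (ρ a - 1) + (ρ b - 1) + (ρ a - 1)(ρ b - 1)`).
-/

set_option linter.all false
set_option autoImplicit false

namespace Pool.Agent.LgP

open Polynomial in
/-- the Rees algebra of the powers of `I` -/
def grR {O E : Type} [CommRing O] [Ring E] [Algebra O E] (I : Submodule O E) :
    Subalgebra O (Polynomial E) where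
  carrier := {f | ∀ j, f.coeff j ∈ I ^ j}
  mul_mem' := by
    intro f g hf hg j
    rw [coeff_mul]
    refine Submodule.sum_mem _ fun x hx => ?_
    rw [← Finset.HasAntidiagonal.mem_antidiagonal.mp hx, pow_add]
    exact Submodule.mul_mem_mul (hf _) (hg _)
  add_mem' := by
    intro f g hf hg j
    rw [coeff_add]
    exact Submodule.add_mem _ (hf j) (hg j)
  algebraMap_mem' := by
    intro r j
    rw [Polynomial.algebraMap_apply, coeff_C]
    split_ifs with h
    · subst h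
      rw [pow_zero]
      exact Submodule.algebraMap_mem r
    · exact Submodule.zero_mem _

section gr

variable {O E : Type} [CommRing O] [Ring E] [Algebra O E]

theorem gr_coeff_mul {I : Submodule O E} (f g : Polynomial E) (a b : ℕ)
    (hf : ∀ j, f.coeff j ∈ I ^ (j + a)) (hg : ∀ j, g.coeff j ∈ I ^ (j + b)) (j : ℕ) :
    (f * g).coeff j ∈ I ^ (j + (a + b)) := by
  rw [Polynomial.coeff_mul]
  refine Submodule.sum_mem _ fun x hx => ?_
  have h1 : j + (a + b) = (x.1 + a) + (x.2 + b) := by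
    rw [← Finset.HasAntidiagonal.mem_antidiagonal.mp hx]; ring
  rw [h1, pow_add]
  exact Submodule.mul_mem_mul (hf _) (hg _)

/-- the congruence modulo the next power -/
def grC (I : Submodule O E) : RingCon (grR I) where
  r f g := ∀ j, ((f : Polynomial E) - g).coeff j ∈ I ^ (j + 1)
  iseqv :=
    { refl := fun f j => by rw [sub_self, Polynomial.coeff_zero]; exact Submodule.zero_mem _
      symm := fun {f g} h j => by
        have := Submodule.neg_mem _ (h j)
        rwa [← Polynomial.coeff_neg, neg_sub] at this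
      trans := fun {f g k} h1 h2 j => by
        have := Submodule.add_mem _ (h1 j) (h2 j)
        rwa [← Polynomial.coeff_add, sub_add_sub_cancel] at this }
  mul' := by
    intro w x y z h1 h2 j
    have e : ((w * y : grR I) : Polynomial E) - ((x * z : grR I) : Polynomial E) =
        (w : Polynomial E) * ((y : Polynomial E) - z) + ((w : Polynomial E) - x) * z := by
      push_cast
      noncomm_ring
    rw [e, Polynomial.coeff_add]
    refine Submodule.add_mem _ ?_ ?_
    · exact gr_coeff_mul (I := I) _ _ 0 1 w.2 h2 j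
    · exact gr_coeff_mul (I := I) _ _ 1 0 h1 z.2 j
  add' := by
    intro w x y z h1 h2 j
    have e : ((w + y : grR I) : Polynomial E) - ((x + z : grR I) : Polynomial E) =
        ((w : Polynomial E) - x) + ((y : Polynomial E) - z) := by
      push_cast
      abel
    rw [e, Polynomial.coeff_add]
    exact Submodule.add_mem _ (h1 j) (h2 j)

/-- the monomial `u T^k` -/
noncomputable def grMono (I : Submodule O E) (k : ℕ) : ↥(I ^ k) →ₗ[O] grR I where
  toFun u := ⟨Polynomial.monomial k (u : E), fun j => by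
    rw [Polynomial.coeff_monomial]
    split_ifs with h
    · subst h; exact u.2
    · exact Submodule.zero_mem _⟩
  map_add' u v := by
    ext1
    simp
  map_smul' r u := by
    apply Subtype.ext
    show Polynomial.monomial k (r • (u : E)) = r • Polynomial.monomial k (u : E)
    rw [Polynomial.smul_monomial]

/-- the class of the monomial `u T^k` -/
noncomputable def grM (I : Submodule O E) (k : ℕ) : ↥(I ^ k) →ₗ[O] (grC I).Quotient :=
  ((grC I).mkₐ O).toLinearMap ∘ₗ grMono I k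

theorem grM_eq_zero {I : Submodule O E} {k : ℕ} (u : ↥(I ^ k)) :
    grM I k u = 0 ↔ (u : E) ∈ I ^ (k + 1) := by
  have h0 : grM I k u = 0 ↔ (grC I) (grMono I k u) 0 := by
    rw [← RingCon.eq]
    rfl
  rw [h0]
  constructor
  · intro h
    have := h k
    simpa [grMono] using this
  · intro h j
    show (((grMono I k u : grR I) : Polynomial E) - ((0 : grR I) : Polynomial E)).coeff j ∈ _
    have e : ((grMono I k u : grR I) : Polynomial E) = Polynomial.monomial k (u : E) := rfl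
    rw [e, ZeroMemClass.coe_zero, sub_zero, Polynomial.coeff_monomial]
    split_ifs with h1
    · subst h1; exact h
    · exact Submodule.zero_mem _

theorem grM_mul {I : Submodule O E} {k l : ℕ} (u : ↥(I ^ k)) (v : ↥(I ^ l)) :
    grM I k u * grM I l v = grM I (k + l) ⟨(u : E) * v, by
      rw [pow_add]; exact Submodule.mul_mem_mul u.2 v.2⟩ := by
  unfold grM
  simp only [LinearMap.comp_apply, AlgHom.toLinearMap_apply]
  rw [← map_mul]
  congr 1
  ext1
  show Polynomial.monomial k (u : E) * Polynomial.monomial l (v : E) = _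
  rw [Polynomial.monomial_mul_monomial]
  rfl

theorem grM_congr {I : Submodule O E} {k l : ℕ} (h : k = l) (u : ↥(I ^ k)) (v : ↥(I ^ l))
    (huv : (u : E) = v) : grM I k u = grM I l v := by
  subst h
  congr 1
  exact Subtype.ext huv

theorem grM_pow {I : Submodule O E} (u : ↥(I ^ 1)) (m : ℕ) (hm : (u : E) ^ (m + 1) = 0) :
    grM I 1 u ^ (m + 1) = 0 := by
  have key : ∀ m : ℕ, ∃ h : (u : E) ^ (m + 1) ∈ I ^ (m + 1),
      grM I 1 u ^ (m + 1) = grM I (m + 1) ⟨(u : E) ^ (m + 1), h⟩ := by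
    intro m
    induction m with
    | zero =>
      refine ⟨by simpa using u.2, ?_⟩
      exact (pow_one (grM I 1 u)).trans (grM_congr (by norm_num) _ _ (by simp))
    | succ m ih =>
      obtain ⟨h, e⟩ := ih
      have h2 : (u : E) ^ (m + 1 + 1) ∈ I ^ (m + 1 + 1) := by
        rw [pow_succ I, pow_succ (u : E)]
        exact Submodule.mul_mem_mul h (by simpa using u.2)
      refine ⟨h2, ?_⟩
      rw [pow_succ, e, grM_mul]
      exact grM_congr rfl _ _ (by simp [pow_succ])
  obtain ⟨h, e⟩ := key m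
  rw [e]
  rw [grM_eq_zero]
  show (u : E) ^ (m + 1) ∈ _
  rw [hm]
  exact Submodule.zero_mem _

/-- the letters -/
noncomputable def grl (I : Submodule O E) : ↥I →ₗ[O] (grC I).Quotient :=
  grM I 1 ∘ₗ (LinearEquiv.ofEq I (I ^ 1) (pow_one I).symm).toLinearMap

theorem grl_apply {I : Submodule O E} (u : ↥I) :
    grl I u = grM I 1 ⟨(u : E), by rw [pow_one]; exact u.2⟩ := by
  unfold grl
  simp only [LinearMap.comp_apply]
  congr 1

theorem gr_prod {I : Submodule O E} (U : Submodule O ↥I) (M : ℕ) (v : E)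
    (hv : v ∈ (U.map I.subtype) ^ M) :
    ∃ h : v ∈ I ^ M, grM I M ⟨v, h⟩ ∈ (U.map (grl I)) ^ M := by
  have hUI : U.map I.subtype ≤ I := by
    rintro _ ⟨u, -, rfl⟩
    exact u.2
  induction M generalizing v with
  | zero =>
    rw [pow_zero, Submodule.mem_one] at hv
    obtain ⟨r, rfl⟩ := hv
    refine ⟨by rw [pow_zero]; exact Submodule.algebraMap_mem r, ?_⟩
    rw [pow_zero, Submodule.mem_one]
    refine ⟨r, ?_⟩
    rfl
  | succ M ih =>
    rw [pow_succ] at hv
    refine Submodule.mul_induction_on hv ?_ ?_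
    · intro a ha b hb
      obtain ⟨h1, h2⟩ := ih a ha
      have hb' : b ∈ I := hUI hb
      have h3 : grl I ⟨b, hb'⟩ ∈ U.map (grl I) := by
        obtain ⟨u, hu, rfl⟩ := hb
        exact ⟨u, hu, rfl⟩
      have h4 : a * b ∈ I ^ (M + 1) := by
        rw [pow_succ]; exact Submodule.mul_mem_mul h1 hb'
      refine ⟨h4, ?_⟩
      have h5 : grM I (M + 1) ⟨a * b, h4⟩ = grM I M ⟨a, h1⟩ * grl I ⟨b, hb'⟩ := by
        rw [grl_apply, grM_mul]
      rw [h5, pow_succ]
      exact Submodule.mul_mem_mul h2 h3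
    · rintro a b ⟨h1, h2⟩ ⟨h3, h4⟩
      refine ⟨Submodule.add_mem _ h1 h3, ?_⟩
      have h5 : grM I (M + 1) ⟨a + b, Submodule.add_mem _ h1 h3⟩ =
          grM I (M + 1) ⟨a, h1⟩ + grM I (M + 1) ⟨b, h3⟩ := by
        rw [← map_add]
        rfl
      rw [h5]
      exact Submodule.add_mem _ h2 h4

/-- the endomorphism of the Rees algebra -/
noncomputable def grσ {I : Submodule O E} (σ : E →ₐ[O] E) (h : ∀ j, ∀ a ∈ I ^ j, σ a ∈ I ^ j) :
    grR I →ₐ[O] grR I :=
  ((Polynomial.mapAlgHom σ).comp (grR I).val).codRestrict (grR I) (by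
    intro f j
    show ((f : Polynomial E).map (σ : E →+* E)).coeff j ∈ _
    rw [Polynomial.coeff_map]
    exact h j _ (f.2 j))

theorem grσ_coe {I : Submodule O E} (σ : E →ₐ[O] E) (h : ∀ j, ∀ a ∈ I ^ j, σ a ∈ I ^ j)
    (f : grR I) (j : ℕ) : ((grσ σ h f : grR I) : Polynomial E).coeff j = σ ((f : Polynomial E).coeff j) := by
  show ((f : Polynomial E).map (σ : E →+* E)).coeff j = _
  rw [Polynomial.coeff_map]
  rfl

/-- the endomorphism of the graded algebra -/
noncomputable def grτ {I : Submodule O E} (σ : E →ₐ[O] E) (h : ∀ j, ∀ a ∈ I ^ j, σ a ∈ I ^ j) :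
    (grC I).Quotient →ₐ[O] (grC I).Quotient :=
  (grC I).liftₐ (((grC I).mkₐ O).comp (grσ σ h)) (by
    intro f g hfg
    show ((grC I).mkₐ O) (grσ σ h f) = ((grC I).mkₐ O) (grσ σ h g)
    refine (RingCon.eq (grC I)).mpr ?_
    intro j
    rw [Polynomial.coeff_sub, grσ_coe, grσ_coe, ← map_sub, ← Polynomial.coeff_sub]
    exact h _ _ (hfg j))

theorem grτ_mk {I : Submodule O E} (σ : E →ₐ[O] E) (h : ∀ j, ∀ a ∈ I ^ j, σ a ∈ I ^ j)
    (f : grR I) : grτ σ h ((grC I).mkₐ O f) = (grC I).mkₐ O (grσ σ h f) := rfl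

theorem grτ_iter {I : Submodule O E} (σ : E →ₐ[O] E) (h : ∀ j, ∀ a ∈ I ^ j, σ a ∈ I ^ j)
    (f : grR I) (i : ℕ) :
    (⇑(grτ σ h))^[i] ((grC I).mkₐ O f) = (grC I).mkₐ O ((⇑(grσ σ h))^[i] f) := by
  induction i with
  | zero => rfl
  | succ i ih => rw [Function.iterate_succ_apply', Function.iterate_succ_apply', ih, grτ_mk]

theorem grσ_iter {I : Submodule O E} (σ : E →ₐ[O] E) (h : ∀ j, ∀ a ∈ I ^ j, σ a ∈ I ^ j)
    (f : grR I) (i j : ℕ) : (((⇑(grσ σ h))^[i] f : grR I) : Polynomial E).coeff j =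
      (⇑σ)^[i] ((f : Polynomial E).coeff j) := by
  induction i with
  | zero => rfl
  | succ i ih => rw [Function.iterate_succ_apply', Function.iterate_succ_apply', grσ_coe, ih]

theorem grτ_M {I : Submodule O E} (σ : E →ₐ[O] E) (h : ∀ j, ∀ a ∈ I ^ j, σ a ∈ I ^ j)
    {k : ℕ} (u : ↥(I ^ k)) : grτ σ h (grM I k u) = grM I k ⟨σ u, h k _ u.2⟩ := by
  show grτ σ h ((grC I).mkₐ O (grMono I k u)) = (grC I).mkₐ O (grMono I k _)
  rw [grτ_mk]
  congr 1
  ext1
  ext j
  rw [grσ_coe]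
  show σ ((Polynomial.monomial k (u : E)).coeff j) = (Polynomial.monomial k (σ (u : E))).coeff j
  rw [Polynomial.coeff_monomial, Polynomial.coeff_monomial]
  split_ifs
  · rfl
  · exact map_zero σ

end gr

section aug

variable {O E X : Type} [CommRing O] [Ring E] [Algebra O E] [Group X] (ρ : X →* E)

theorem gr_aug_mem (x : X) : ρ x - 1 ∈ aug O ρ := Submodule.subset_span ⟨x, rfl⟩

theorem gr_aug_mul : aug O ρ * aug O ρ ≤ aug O ρ := by
  unfold aug
  rw [Submodule.span_mul_span, Submodule.span_le]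
  rintro _ ⟨_, ⟨x, rfl⟩, _, ⟨y, rfl⟩, rfl⟩
  have e : (ρ x - 1) * (ρ y - 1) = (ρ (x * y) - 1) - (ρ x - 1) - (ρ y - 1) := by
    rw [map_mul]; noncomm_ring
  show (ρ x - 1) * (ρ y - 1) ∈ _
  rw [e]
  exact Submodule.sub_mem _ (Submodule.sub_mem _ (Submodule.subset_span ⟨_, rfl⟩)
    (Submodule.subset_span ⟨_, rfl⟩)) (Submodule.subset_span ⟨_, rfl⟩)

theorem gr_aug_pow_succ (k : ℕ) : aug O ρ ^ (k + 1 + 1) ≤ aug O ρ ^ (k + 1) := by
  rw [pow_succ (aug O ρ) (k + 1), pow_succ (aug O ρ) k, mul_assoc]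
  exact mul_le_mul' le_rfl (gr_aug_mul ρ)

theorem gr_aug_pow_le {a b : ℕ} (h : a ≤ b) : aug O ρ ^ (b + 1) ≤ aug O ρ ^ (a + 1) := by
  induction b, h using Nat.le_induction with
  | base => exact le_rfl
  | succ b _ ih => exact (gr_aug_pow_succ ρ b).trans ih

theorem gr_aug_pow_le' {a b : ℕ} (ha : 1 ≤ a) (h : a ≤ b) : aug O ρ ^ b ≤ aug O ρ ^ a := by
  obtain ⟨a', rfl⟩ := Nat.exists_eq_add_of_le' ha
  obtain ⟨b', rfl⟩ := Nat.exists_eq_add_of_le' (ha.trans h)
  exact gr_aug_pow_le ρ (by omega)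

theorem gr_rho_mul (x : X) {k : ℕ} (hk : 1 ≤ k) {v : E} (hv : v ∈ aug O ρ ^ k) :
    ρ x * v ∈ aug O ρ ^ k := by
  have e : ρ x * v = v + (ρ x - 1) * v := by noncomm_ring
  rw [e]
  refine Submodule.add_mem _ hv ?_
  have h1 : (ρ x - 1) * v ∈ aug O ρ ^ (1 + k) := by
    rw [pow_add, pow_one]
    exact Submodule.mul_mem_mul (gr_aug_mem ρ x) hv
  exact gr_aug_pow_le' ρ hk (by omega) h1

theorem gr_comm {k l : ℕ} (hk : 1 ≤ k) (hl : 1 ≤ l) (g h : X) (hg : ρ g - 1 ∈ aug O ρ ^ k)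
    (hh : ρ h - 1 ∈ aug O ρ ^ l) :
    ρ (g⁻¹ * h⁻¹ * g * h) - 1 ∈ aug O ρ ^ (k + l) ∧
    ((ρ g - 1) * (ρ h - 1) - (ρ h - 1) * (ρ g - 1)) - (ρ (g⁻¹ * h⁻¹ * g * h) - 1) ∈
      aug O ρ ^ (k + l + 1) := by
  set D := (ρ g - 1) * (ρ h - 1) - (ρ h - 1) * (ρ g - 1) with hD
  have hDm : D ∈ aug O ρ ^ (k + l) := by
    refine Submodule.sub_mem _ ?_ ?_
    · rw [pow_add]; exact Submodule.mul_mem_mul hg hh
    · rw [add_comm, pow_add]; exact Submodule.mul_mem_mul hh hg
  have e1 : D = ρ (h * g) * (ρ (g⁻¹ * h⁻¹ * g * h) - 1) := by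
    rw [mul_sub, ← map_mul, mul_one]
    have : h * g * (g⁻¹ * h⁻¹ * g * h) = g * h := by group
    rw [this, hD, map_mul, map_mul]
    noncomm_ring
  have e2 : ρ (g⁻¹ * h⁻¹ * g * h) - 1 = ρ ((h * g)⁻¹) * D := by
    rw [e1, ← mul_assoc, ← map_mul, inv_mul_cancel, map_one, one_mul]
  have h1 : ρ (g⁻¹ * h⁻¹ * g * h) - 1 ∈ aug O ρ ^ (k + l) := by
    rw [e2]; exact gr_rho_mul ρ _ (by omega) hDm
  refine ⟨h1, ?_⟩
  have e3 : D - (ρ (g⁻¹ * h⁻¹ * g * h) - 1) =
      (ρ (h * g) - 1) * (ρ (g⁻¹ * h⁻¹ * g * h) - 1) := by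
    rw [sub_mul, one_mul, ← e1]
  rw [e3, add_comm, pow_add, pow_one]
  exact Submodule.mul_mem_mul (gr_aug_mem ρ _) h1

theorem gr_list {k : ℕ} (hk : 1 ≤ k) (L : List X) (hL : ∀ x ∈ L, ρ x - 1 ∈ aug O ρ ^ k) :
    ρ L.prod - 1 ∈ aug O ρ ^ k ∧
    (L.map fun x => ρ x - 1).sum - (ρ L.prod - 1) ∈ aug O ρ ^ (k + 1) := by
  induction L with
  | nil => simp
  | cons x L ih =>
    obtain ⟨h1, h2⟩ := ih fun y hy => hL y (List.mem_cons_of_mem _ hy)
    have hx := hL x List.mem_cons_self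
    have e : ρ (x :: L).prod - 1 = (ρ x - 1) + (ρ L.prod - 1) + (ρ x - 1) * (ρ L.prod - 1) := by
      rw [List.prod_cons, map_mul]; noncomm_ring
    have h3 : (ρ x - 1) * (ρ L.prod - 1) ∈ aug O ρ ^ (k + k) := by
      rw [pow_add]; exact Submodule.mul_mem_mul hx h1
    have h4 := gr_aug_pow_le' ρ (a := k) hk (by omega) h3
    have h5 := gr_aug_pow_le' ρ (a := k + 1) (by omega) (by omega) h3
    refine ⟨?_, ?_⟩
    · rw [e]
      exact Submodule.add_mem _ (Submodule.add_mem _ hx h1) h4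
    · rw [e, List.map_cons, List.sum_cons]
      have e2 : (ρ x - 1 + (L.map fun x => ρ x - 1).sum) -
          ((ρ x - 1) + (ρ L.prod - 1) + (ρ x - 1) * (ρ L.prod - 1)) =
          ((L.map fun x => ρ x - 1).sum - (ρ L.prod - 1)) - (ρ x - 1) * (ρ L.prod - 1) := by
        abel
      rw [e2]
      exact Submodule.sub_mem _ h2 h5

end aug

theorem gr_lie_smul {O A : Type} [CommRing O] [Ring A] [Algebra O A] (r : O) (a b : A) :
    (r • a) * b - b * (r • a) = r • (a * b - b * a) := by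
  rw [smul_mul_assoc, mul_smul_comm, smul_sub]

theorem gr_lie_smul' {O A : Type} [CommRing O] [Ring A] [Algebra O A] (r : O) (a b : A) :
    a * (r • b) - (r • b) * a = r • (a * b - b * a) := by
  rw [smul_mul_assoc, mul_smul_comm, smul_sub]

theorem gr_sum_list {E : Type} [AddCommMonoid E] (f : ℕ → E) (n : ℕ) :
    ∑ j ∈ Finset.range n, f j = ((List.range n).map f).sum := by
  induction n with
  | zero => simp
  | succ n ih => rw [Finset.sum_range_succ, List.range_succ, List.map_append, List.sum_append, ih]; simp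

theorem gr_exists {O E X : Type} [CommRing O] [Ring E] [Algebra O E] [Group X] (n : ℕ)
    (hn : 0 < n) (σ : E →ₐ[O] E) (hσ : ∀ a, (⇑σ)^[n] a = a) (φ : X →* X) (ρ : X →* E)
    (hρ : ∀ x, σ (ρ x) = ρ (φ x)) (hφ : Split n φ) :
    ∃ (A : Type) (_ : Ring A) (_ : Algebra O A) (τ : A →ₐ[O] A) (S : Submodule O A)
      (l : aug O ρ →ₗ[O] A),
      (∀ a, (⇑τ)^[n] a = a) ∧ IsLie S ∧ (∀ a ∈ S, τ a ∈ S) ∧
      (∀ a ∈ S, ∑ j ∈ Finset.range n, (⇑τ)^[j] a = 0) ∧ (∀ u, l u ∈ S) ∧
      (∀ (u : aug O ρ) (m : ℕ), 0 < m → (u : E) ^ m = 0 → l u ^ m = 0) ∧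
      (∀ (M : ℕ) (U : Submodule O (aug O ρ)), (U.map l) ^ M = ⊥ →
        (U.map (aug O ρ).subtype) ^ M ≤ (aug O ρ) ^ (M + 1)) := by
  set I := aug O ρ with hI
  have hσI : ∀ j, ∀ a ∈ I ^ j, σ a ∈ I ^ j := by
    have h0 : I.map σ.toLinearMap ≤ I := by
      rw [hI]
      unfold aug
      rw [Submodule.map_span, Submodule.span_le]
      rintro _ ⟨_, ⟨x, rfl⟩, rfl⟩
      show σ (ρ x - 1) ∈ _
      rw [map_sub, map_one, hρ]
      exact Submodule.subset_span ⟨_, rfl⟩
    intro j a ha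
    have h1 : σ a ∈ (I ^ j).map σ.toLinearMap := ⟨a, ha, rfl⟩
    rw [Submodule.map_pow] at h1
    exact (pow_le_pow_left' h0 j) h1
  set S : Submodule O (grC I).Quotient := Submodule.span O
    {a | ∃ (k : ℕ) (g : X) (_ : 1 ≤ k) (h : ρ g - 1 ∈ I ^ k), a = grM I k ⟨ρ g - 1, h⟩} with hS
  have hgen : ∀ (k : ℕ) (g : X) (_ : 1 ≤ k) (h : ρ g - 1 ∈ I ^ k),
      grM I k ⟨ρ g - 1, h⟩ ∈ S := fun k g hk h => Submodule.subset_span ⟨k, g, hk, h, rfl⟩
  have hit : ∀ (j : ℕ) (g : X), (⇑σ)^[j] (ρ g - 1) = ρ ((⇑φ)^[j] g) - 1 := by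
    intro j g
    induction j with
    | zero => rfl
    | succ j ih =>
      rw [Function.iterate_succ_apply', Function.iterate_succ_apply', ih, map_sub, map_one, hρ]
  have hitI : ∀ (j k : ℕ) (g : X), ρ g - 1 ∈ I ^ k → ρ ((⇑φ)^[j] g) - 1 ∈ I ^ k := by
    intro j k g h
    induction j with
    | zero => exact h
    | succ j ih =>
      have := hσI k _ ih
      rw [map_sub, map_one, hρ] at this
      rwa [Function.iterate_succ_apply']
  have hτit : ∀ (j k : ℕ) (g : X) (h : ρ g - 1 ∈ I ^ k),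
      (⇑(grτ σ hσI))^[j] (grM I k ⟨ρ g - 1, h⟩) =
        grM I k ⟨ρ ((⇑φ)^[j] g) - 1, hitI j k g h⟩ := by
    intro j k g h
    induction j with
    | zero => rfl
    | succ j ih =>
      rw [Function.iterate_succ_apply', ih, grτ_M]
      refine grM_congr rfl _ _ ?_
      show σ (ρ ((⇑φ)^[j] g) - 1) = ρ ((⇑φ)^[j + 1] g) - 1
      rw [Function.iterate_succ_apply', map_sub, map_one, hρ]
  refine ⟨(grC I).Quotient, inferInstance, inferInstance, grτ σ hσI, S, grl I, ?_, ?_, ?_, ?_, ?_,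
    ?_, ?_⟩
  · -- τ^n = 1
    intro a
    obtain ⟨f, rfl⟩ := RingCon.mkₐ_surjective (α := O) (grC I) a
    rw [grτ_iter]
    congr 1
    ext1
    ext j
    rw [grσ_iter, hσ]
  · -- Lie
    intro a ha b hb
    rw [hS] at ha hb
    induction ha, hb using Submodule.span_induction₂ with
    | mem_mem a b ha hb =>
      obtain ⟨k, g, hk, h1, rfl⟩ := ha
      obtain ⟨l, h, hl, h2, rfl⟩ := hb
      obtain ⟨h3, h4⟩ := gr_comm ρ hk hl g h h1 h2
      have h5 : grM I k ⟨ρ g - 1, h1⟩ * grM I l ⟨ρ h - 1, h2⟩ -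
          grM I l ⟨ρ h - 1, h2⟩ * grM I k ⟨ρ g - 1, h1⟩ =
          grM I (k + l) ⟨ρ (g⁻¹ * h⁻¹ * g * h) - 1, h3⟩ := by
        rw [grM_mul, grM_mul]
        have e1 : grM I (l + k) ⟨(ρ h - 1) * (ρ g - 1), by
            rw [pow_add]; exact Submodule.mul_mem_mul h2 h1⟩ =
            grM I (k + l) ⟨(ρ h - 1) * (ρ g - 1), by
            rw [add_comm, pow_add]; exact Submodule.mul_mem_mul h2 h1⟩ :=
          grM_congr (add_comm l k) _ _ rfl
        rw [e1]
        refine sub_eq_zero.mp ?_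
        refine Eq.trans ?_ ((grM_eq_zero (I := I) (k := k + l)
          ⟨((ρ g - 1) * (ρ h - 1) - (ρ h - 1) * (ρ g - 1)) -
            (ρ (g⁻¹ * h⁻¹ * g * h) - 1), ?_⟩).mpr h4)
        · rw [← map_sub (grM I (k + l)), ← map_sub (grM I (k + l))]
          exact grM_congr rfl _ _ rfl
        · refine Submodule.sub_mem _ (Submodule.sub_mem _ ?_ ?_) h3
          · rw [pow_add]; exact Submodule.mul_mem_mul h1 h2
          · rw [add_comm, pow_add]; exact Submodule.mul_mem_mul h2 h1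
      rw [h5]
      exact hgen _ _ (by omega) h3
    | zero_left b _ => simp
    | zero_right a _ => simp
    | add_left a b c _ _ _ h1 h2 =>
      have : (a + b) * c - c * (a + b) = (a * c - c * a) + (b * c - c * b) := by noncomm_ring
      rw [this]
      exact Submodule.add_mem _ h1 h2
    | add_right a b c _ _ _ h1 h2 =>
      have : a * (b + c) - (b + c) * a = (a * b - b * a) + (a * c - c * a) := by noncomm_ring
      rw [this]
      exact Submodule.add_mem _ h1 h2
    | smul_left r a b _ _ h =>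
      exact Eq.mpr (congrArg (· ∈ S) (gr_lie_smul r a b)) (Submodule.smul_mem S r h)
    | smul_right r a b _ _ h =>
      exact Eq.mpr (congrArg (· ∈ S) (gr_lie_smul' r a b)) (Submodule.smul_mem S r h)
  · -- stable
    intro a ha
    rw [hS] at ha
    induction ha using Submodule.span_induction with
    | mem a ha =>
      obtain ⟨k, g, hk, h, rfl⟩ := ha
      have := hτit 1 k g h
      rw [Function.iterate_one] at this
      rw [this]
      exact hgen _ _ hk _
    | zero => rw [map_zero]; exact Submodule.zero_mem _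
    | add a b _ _ h1 h2 => rw [map_add]; exact Submodule.add_mem _ h1 h2
    | smul r a _ h => rw [map_smul]; exact Submodule.smul_mem _ _ h
  · -- trace
    intro a ha
    rw [hS] at ha
    have hadd : ∀ (j : ℕ) (a b : (grC I).Quotient), (⇑(grτ σ hσI))^[j] (a + b) =
        (⇑(grτ σ hσI))^[j] a + (⇑(grτ σ hσI))^[j] b := fun j a b => iterate_map_add _ j a b
    have hsm : ∀ (j : ℕ) (r : O) (a : (grC I).Quotient), (⇑(grτ σ hσI))^[j] (r • a) =
        r • (⇑(grτ σ hσI))^[j] a := by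
      intro j r a
      induction j with
      | zero => rfl
      | succ j ih =>
        rw [Function.iterate_succ_apply', Function.iterate_succ_apply', ih, map_smul]
    induction ha using Submodule.span_induction with
    | mem a ha =>
      obtain ⟨k, g, hk, h, rfl⟩ := ha
      rw [Finset.sum_congr rfl fun j _ => hτit j k g h, ← map_sum, grM_eq_zero]
      have h1 := gr_list ρ hk ((List.range n).map fun j => (⇑φ)^[j] g) (by
        intro x hx
        obtain ⟨j, -, rfl⟩ := List.mem_map.mp hx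
        exact hitI j k g h)
      have h2 := h1.2
      rw [hφ g, map_one, sub_self, sub_zero, List.map_map] at h2
      have e : ((∑ j ∈ Finset.range n, (⟨ρ ((⇑φ)^[j] g) - 1, hitI j k g h⟩ : ↥(I ^ k)) :
          ↥(I ^ k)) : E) = ((List.range n).map
            ((fun x => ρ x - 1) ∘ fun j => (⇑φ)^[j] g)).sum := by
        rw [Submodule.coe_sum, gr_sum_list]
        rfl
      rw [e]
      exact h2
    | zero =>
      refine Finset.sum_eq_zero fun j _ => ?_
      have := hsm j 0 0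
      rwa [zero_smul, zero_smul] at this
    | add a b _ _ h1 h2 =>
      rw [Finset.sum_congr rfl fun j _ => hadd j a b, Finset.sum_add_distrib, h1, h2, add_zero]
    | smul r a _ h =>
      rw [Finset.sum_congr rfl fun j _ => hsm j r a, ← Finset.smul_sum, h, smul_zero]
  · -- letters in S
    intro u
    obtain ⟨u, hu⟩ := u
    have hu' := hu
    rw [hI] at hu'
    unfold aug at hu'
    induction hu' using Submodule.span_induction with
    | mem u hu1 =>
      obtain ⟨x, rfl⟩ := hu1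
      rw [grl_apply]
      exact hgen 1 x le_rfl _
    | zero =>
      have : (⟨0, hu⟩ : ↥I) = 0 := rfl
      rw [this, map_zero]
      exact Submodule.zero_mem _
    | add a b ha hb h1 h2 =>
      have : (⟨a + b, hu⟩ : ↥I) = ⟨a, ha⟩ + ⟨b, hb⟩ := rfl
      rw [this, map_add]
      exact Submodule.add_mem _ (h1 _) (h2 _)
    | smul r a ha h =>
      have : (⟨r • a, hu⟩ : ↥I) = r • ⟨a, ha⟩ := rfl
      rw [this, map_smul]
      exact Submodule.smul_mem _ _ (h _)
  · -- nilpotent letters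
    intro u m hm hum
    obtain ⟨m, rfl⟩ := Nat.exists_eq_add_of_le' hm
    rw [grl_apply]
    exact grM_pow _ m hum
  · -- products of letters
    intro M U hU v hv
    obtain ⟨h1, h2⟩ := gr_prod U M v hv
    rw [hU, Submodule.mem_bot, grM_eq_zero] at h2
    exact h2

end Pool.Agent.LgP
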