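import Pool.Agent.LgP.AdRep

/-!
# Unipotent groups with soluble logarithm algebra are soluble

`solv κ M`: if `(aug O ρ)^M = ⊥`, small integers are invertible and `derL κ (lgSpan O M ρ) = ⊥`, then
the `(2^κ - 1)`-th derived subgroup of `X` acts trivially.

Paper proof, induction on `κ` (for all `M`, `E`, `X`). WLOG `0 < M` (`M = 0`: the ring is trivial).
`B(κ+1, M) = max (4M+4, B(κ, 2M))`.
`κ = 0`: `lgSpan = ⊥`, so `lg (ρ x - 1) = 0`, so `ρ x = 1` (`lg_eq_zero`).
`κ → κ + 1`: `G = lgSpan O M ρ` is Lie closed (`lgSpan_lie`) and stable under conjugation by `ρ g`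
(`lg_conj`), hence so are all `derL k G`; let `W = derL κ G`; `derL (κ+1) G = ⊥` says that `W` is
commutative. Let `ρ'` be the conjugation representation on `W` (`ad_exists`). By `derL_ad`
`derL κ (lgSpan O (2M) ρ')` consists of the maps `w ↦ a w - w a` with `a ∈ W`, hence it is `⊥`. By the
induction hypothesis `X₁ = derG (2^κ-1) ⊤` centralises `W`: `ρ g w = w ρ g`, so `lg (ρ g - 1)`
commutes with `W` for `g ∈ X₁` (it lies in `O[ρ g]`).
Now consider the group `X₁` (as a type), `ρ₁ = ρ.comp X₁.subtype`, `G₁ = lgSpan O M ρ₁ ≤ G`,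
`W₁ = G₁`, `ρ₁'` the conjugation representation of `X₁` on `W₁`. By `derL_ad` an element of
`derL κ (lgSpan O (2M) ρ₁')` is `w ↦ a w - w a` with `a ∈ derL κ G₁ ≤ derL κ G = W`, which vanishes on
`W₁` (spanned by the `lg (ρ g - 1)`, `g ∈ X₁`). So by the induction hypothesis
`X₂ = derG (2^κ-1) ⊤` (in `X₁`) acts trivially on `W₁`: for `g ∈ X₂`, `x ∈ X₁`: `ρ g` commutes with
`lg (ρ x - 1)`, hence with `ρ x - 1` (`mem_adjoin_lg`). So `ρ` is trivial on `⁅X₂, X₂⁆`, which is
`derG (2 (2^κ - 1) + 1) ⊤` of `X`, and `2 (2^κ-1) + 1 = 2^(κ+1) - 1`.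
(`derG_map` : the image of `derG k ⊤` of the type `H` in the big group is `derG k H`;
`derG_add` : `derG a (derG b H) = derG (a + b) H`.)
-/

set_option autoImplicit false

open scoped commutatorElement

namespace Pool.Agent.LgP

theorem derG_map {X : Type} [Group X] (H : Subgroup X) (k : ℕ) :
    (derG k (⊤ : Subgroup H)).map H.subtype = derG k H := by
  induction k with
  | zero =>
    change (⊤ : Subgroup H).map H.subtype = H
    rw [← MonoidHom.range_eq_map, Subgroup.range_subtype]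
  | succ k ih =>
    change (⁅derG k (⊤ : Subgroup H), derG k (⊤ : Subgroup H)⁆ : Subgroup H).map H.subtype =
      ⁅derG k H, derG k H⁆
    rw [Subgroup.map_commutator, ih]

theorem derG_add {X : Type} [Group X] (H : Subgroup X) (a b : ℕ) :
    derG a (derG b H) = derG (a + b) H := by
  induction a with
  | zero =>
    rw [Nat.zero_add]
    rfl
  | succ a ih =>
    rw [Nat.succ_add]
    change ⁅derG a (derG b H), derG a (derG b H)⁆ = ⁅derG (a + b) H, derG (a + b) H⁆
    rw [ih]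

private theorem Solv_pow {O E X : Type} [CommRing O] [Ring E] [Algebra O E] [Group X] (M : ℕ)
    (ρ : X →* E) (hM : (aug O ρ) ^ M = ⊥) (x : X) : (ρ x - 1) ^ M = 0 := by
  have h0 : ρ x - 1 ∈ aug O ρ := Submodule.subset_span ⟨x, rfl⟩
  have h1 : (ρ x - 1) ^ M ∈ (aug O ρ) ^ M := Submodule.pow_mem_pow _ h0 M
  rw [hM] at h1
  exact (Submodule.mem_bot O).1 h1

private theorem Solv_mono {O A : Type} [CommRing O] [Ring A] [Algebra O A] {S T : Submodule O A}
    (h : S ≤ T) (k : ℕ) : derL k S ≤ derL k T := by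
  induction k with
  | zero => exact h
  | succ k ih =>
    refine Submodule.span_mono ?_
    rintro x ⟨a, ha, b, hb, rfl⟩
    exact ⟨a, ih ha, b, ih hb, rfl⟩

private theorem Solv_conj0 {O E X : Type} [CommRing O] [Ring E] [Algebra O E] [Group X] (M : ℕ)
    (ρ : X →* E) (g : X) :
    ∀ w ∈ lgSpan O M ρ, ρ g * w * ρ g⁻¹ ∈ lgSpan O M ρ := by
  intro w hw
  unfold lgSpan at hw
  induction hw using Submodule.span_induction with
  | mem w hw =>
    obtain ⟨x, rfl⟩ := hw
    change ρ g * lg O M (ρ x - 1) * ρ g⁻¹ ∈ _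
    rw [lg_conj]
    exact Submodule.subset_span ⟨_, rfl⟩
  | zero =>
    rw [mul_zero, zero_mul]
    exact Submodule.zero_mem _
  | add a b _ _ ha hb =>
    rw [mul_add, add_mul]
    exact Submodule.add_mem _ ha hb
  | smul c a _ ha =>
    rw [mul_smul_comm, smul_mul_assoc]
    exact Submodule.smul_mem _ _ ha

private theorem Solv_conj {O E X : Type} [CommRing O] [Ring E] [Algebra O E] [Group X] (M : ℕ)
    (ρ : X →* E) (g : X) (k : ℕ) :
    ∀ w ∈ derL k (lgSpan O M ρ), ρ g * w * ρ g⁻¹ ∈ derL k (lgSpan O M ρ) := by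
  have hinv : ρ g⁻¹ * ρ g = 1 := by rw [← map_mul, inv_mul_cancel, map_one]
  induction k with
  | zero => exact Solv_conj0 M ρ g
  | succ k ih =>
    intro w hw
    change w ∈ Submodule.span O {x | ∃ a ∈ derL k (lgSpan O M ρ), ∃ b ∈ derL k (lgSpan O M ρ),
      x = a * b - b * a} at hw
    change _ ∈ Submodule.span O {x | ∃ a ∈ derL k (lgSpan O M ρ), ∃ b ∈ derL k (lgSpan O M ρ),
      x = a * b - b * a}
    induction hw using Submodule.span_induction with
    | mem w hw =>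
      obtain ⟨a, ha, b, hb, rfl⟩ := hw
      refine Submodule.subset_span ⟨_, ih a ha, _, ih b hb, ?_⟩
      have e1 : ∀ a b : E, ρ g * a * ρ g⁻¹ * (ρ g * b * ρ g⁻¹) = ρ g * (a * b) * ρ g⁻¹ := by
        intro a b
        calc ρ g * a * ρ g⁻¹ * (ρ g * b * ρ g⁻¹) = ρ g * a * (ρ g⁻¹ * ρ g) * b * ρ g⁻¹ := by
              simp only [mul_assoc]
          _ = ρ g * (a * b) * ρ g⁻¹ := by rw [hinv, mul_one]; simp only [mul_assoc]
      rw [e1, e1, mul_sub, sub_mul]
    | zero =>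
      rw [mul_zero, zero_mul]
      exact Submodule.zero_mem _
    | add a b _ _ ha hb =>
      rw [mul_add, add_mul]
      exact Submodule.add_mem _ ha hb
    | smul c a _ ha =>
      rw [mul_smul_comm, smul_mul_assoc]
      exact Submodule.smul_mem _ _ ha

private theorem Solv_lg_comm {O E : Type} [CommRing O] [Ring E] [Algebra O E] (M : ℕ) (u w : E)
    (h : u * w = w * u) : lg O M u * w = w * lg O M u := by
  have hc : Commute w u := h.symm
  have h2 : Commute w (lg O M u) := by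
    unfold lg
    refine Commute.sum_right _ _ _ fun k _ => ?_
    exact (hc.pow_right k).smul_right _
  exact h2.eq.symm

private theorem Solv_ad_comm {O E X : Type} [CommRing O] [Ring E] [Algebra O E] [Group X]
    (ρ : X →* E) (W : Submodule O E) (ρ' : X →* Module.End O W)
    (h : ∀ (g : X) (w : W), ((ρ' g w : W) : E) = ρ g * w * ρ g⁻¹) (g : X) (hg : ρ' g = 1)
    (w : E) (hw : w ∈ W) : ρ g * w = w * ρ g := by
  have h1 := h g ⟨w, hw⟩
  rw [hg] at h1
  have hinv : ρ g⁻¹ * ρ g = 1 := by rw [← map_mul, inv_mul_cancel, map_one]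
  have h2 : w = ρ g * w * ρ g⁻¹ := h1
  calc ρ g * w = ρ g * w * (ρ g⁻¹ * ρ g) := by rw [hinv, mul_one]
    _ = ρ g * w * ρ g⁻¹ * ρ g := by simp only [mul_assoc]
    _ = w * ρ g := by rw [← h2]

private theorem Solv_use {O E X : Type} [CommRing O] [Ring E] [Algebra O E] [Group X]
    (M κ B' : ℕ) (W : Submodule O E) (ρ' : X →* Module.End O W)
    (hρ2 : (aug (E := Module.End O W) O ρ') ^ (2 * M) = ⊥)
    (hbot : derL κ (lgSpan (E := Module.End O W) O (2 * M) ρ') = ⊥)
    (hU2 : UpTo O B')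
    (hB' : ∀ (O E X : Type) [CommRing O] [Ring E] [Algebra O E] [Group X],
      UpTo O B' → ∀ ρ : X →* E, (aug O ρ) ^ (2 * M) = ⊥ → derL κ (lgSpan O (2 * M) ρ) = ⊥ →
      ∀ x ∈ derG (2 ^ κ - 1) (⊤ : Subgroup X), ρ x = 1) :
    ∀ x ∈ derG (2 ^ κ - 1) (⊤ : Subgroup X), ρ' x = 1 := by
  have hB2 := hB' O (Module.End O W) X hU2 ρ'
  have h1 := hB2 hρ2
  have h2 := h1 hbot
  exact h2

private theorem Solv_bot {O E X : Type} [CommRing O] [Ring E] [Algebra O E] [Group X] (M : ℕ)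
    (ρ : X →* E) (W : Submodule O E) (ρ' : X →* Module.End O W)
    (h : ∀ (g : X) (w : W), ((lg O (2 * M) (ρ' g - 1) w : W) : E) =
        lg O M (ρ g - 1) * w - w * lg O M (ρ g - 1)) (k : ℕ)
    (hc : ∀ a ∈ derL k (lgSpan O M ρ), ∀ w ∈ W, a * w - w * a = 0) :
    derL k (lgSpan (E := Module.End O W) O (2 * M) ρ') = ⊥ := by
  rw [eq_bot_iff]
  intro T hT
  obtain ⟨a, ha, hT2⟩ := derL_ad M ρ W ρ' h k T hT
  rw [Submodule.mem_bot]
  refine LinearMap.ext fun w => ?_
  apply Subtype.ext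
  rw [hT2 w, hc a ha w w.2]
  rfl

theorem solv (κ M : ℕ) : ∃ B : ℕ, ∀ (O E X : Type) [CommRing O] [Ring E] [Algebra O E] [Group X],
    UpTo O B → ∀ ρ : X →* E, (aug O ρ) ^ M = ⊥ → derL κ (lgSpan O M ρ) = ⊥ →
    ∀ x ∈ derG (2 ^ κ - 1) (⊤ : Subgroup X), ρ x = 1 := by
  induction κ generalizing M with
  | zero =>
    refine ⟨M, ?_⟩
    intro O E X _ _ _ _ hU ρ hM hL x _
    change lgSpan O M ρ = ⊥ at hL
    have h1 : lg O M (ρ x - 1) ∈ lgSpan O M ρ := Submodule.subset_span ⟨x, rfl⟩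
    rw [hL] at h1
    exact sub_eq_zero.1 (lg_eq_zero M hU _ (Solv_pow M ρ hM x) ((Submodule.mem_bot O).1 h1))
  | succ κ ih =>
    obtain ⟨B', hB'⟩ := ih (2 * M)
    refine ⟨max (4 * M + 4) B', ?_⟩
    intro O E X _ _ _ _ hU ρ hM hL
    have hU1 : UpTo O (4 * M + 4) := fun k hk hk' => hU k hk (hk'.trans (le_max_left _ _))
    have hU2 : UpTo O B' := fun k hk hk' => hU k hk (hk'.trans (le_max_right _ _))
    have hUM : UpTo O M := fun k hk hk' => hU1 k hk (by omega)
    rcases Nat.eq_zero_or_pos M with rfl | hM0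
    · intro x _
      have h1 := Solv_pow 0 ρ hM x
      rw [pow_zero] at h1
      exact eq_of_zero_eq_one h1.symm _ _
    -- the abelian ideal
    have hcomm : ∀ a ∈ derL κ (lgSpan O M ρ), ∀ b ∈ derL κ (lgSpan O M ρ),
        a * b - b * a = 0 := by
      intro a ha b hb
      have h1 : a * b - b * a ∈ derL (κ + 1) (lgSpan O M ρ) :=
        Submodule.subset_span ⟨a, ha, b, hb, rfl⟩
      rw [hL] at h1
      exact (Submodule.mem_bot O).1 h1
    obtain ⟨ρ', hρ1, hρ2, hρ3⟩ := ad_exists M hM0 hU1 ρ hM (derL κ (lgSpan O M ρ))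
      (fun g w hw => Solv_conj M ρ g κ w hw)
    have hbot := Solv_bot M ρ (derL κ (lgSpan O M ρ)) ρ' hρ3 κ hcomm
    have h1 := Solv_use M κ B' (derL κ (lgSpan O M ρ)) ρ' hρ2 hbot hU2 hB'
    have hX1 : ∀ x ∈ derG (2 ^ κ - 1) (⊤ : Subgroup X), ∀ w ∈ derL κ (lgSpan O M ρ),
        ρ x * w = w * ρ x := fun x hx w hw =>
      Solv_ad_comm ρ (derL κ (lgSpan O M ρ)) ρ' hρ1 x (h1 x hx) w hw
    have hX1lg : ∀ x ∈ derG (2 ^ κ - 1) (⊤ : Subgroup X), ∀ w ∈ derL κ (lgSpan O M ρ),
        lg O M (ρ x - 1) * w = w * lg O M (ρ x - 1) := by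
      intro x hx w hw
      refine Solv_lg_comm M _ _ ?_
      rw [sub_mul, mul_sub, hX1 x hx w hw, one_mul, mul_one]
    -- the restriction to the subgroup
    have haug : aug O (ρ.comp (derG (2 ^ κ - 1) (⊤ : Subgroup X)).subtype) ≤ aug O ρ := by
      refine Submodule.span_mono ?_
      rintro _ ⟨y, rfl⟩
      exact ⟨(y : X), rfl⟩
    have haugpow : ∀ j : ℕ, (aug O (ρ.comp (derG (2 ^ κ - 1) (⊤ : Subgroup X)).subtype)) ^ j ≤
        (aug O ρ) ^ j := by
      intro j
      induction j with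
      | zero => rw [pow_zero, pow_zero]
      | succ j ihj =>
        rw [pow_succ, pow_succ]
        exact mul_le_mul' ihj haug
    have hM1 : (aug O (ρ.comp (derG (2 ^ κ - 1) (⊤ : Subgroup X)).subtype)) ^ M = ⊥ := by
      rw [eq_bot_iff, ← hM]
      exact haugpow M
    have hlgle : lgSpan O M (ρ.comp (derG (2 ^ κ - 1) (⊤ : Subgroup X)).subtype) ≤
        lgSpan O M ρ := by
      refine Submodule.span_mono ?_
      rintro _ ⟨y, rfl⟩
      exact ⟨(y : X), rfl⟩
    obtain ⟨σ, hσ1, hσ2, hσ3⟩ := ad_exists M hM0 hU1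
      (ρ.comp (derG (2 ^ κ - 1) (⊤ : Subgroup X)).subtype) hM1
      (lgSpan O M (ρ.comp (derG (2 ^ κ - 1) (⊤ : Subgroup X)).subtype))
      (fun g w hw => Solv_conj0 M (ρ.comp (derG (2 ^ κ - 1) (⊤ : Subgroup X)).subtype) g w hw)
    have hbot2 := Solv_bot M (ρ.comp (derG (2 ^ κ - 1) (⊤ : Subgroup X)).subtype)
      (lgSpan O M (ρ.comp (derG (2 ^ κ - 1) (⊤ : Subgroup X)).subtype)) σ hσ3 κ (by
        intro a ha w hw
        have ha2 : a ∈ derL κ (lgSpan O M ρ) := Solv_mono hlgle κ ha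
        have hw2 : w * a = a * w := by
          unfold lgSpan at hw
          induction hw using Submodule.span_induction with
          | mem w hw =>
            obtain ⟨y, rfl⟩ := hw
            exact hX1lg (y : X) y.2 a ha2
          | zero => rw [mul_zero, zero_mul]
          | add x y _ _ hx hy => rw [mul_add, add_mul, hx, hy]
          | smul c x _ hx => rw [mul_smul_comm, smul_mul_assoc, hx]
        rw [hw2, sub_self])
    have h2 := Solv_use M κ B' (lgSpan O M
        (ρ.comp (derG (2 ^ κ - 1) (⊤ : Subgroup X)).subtype)) σ hσ2 hbot2 hU2 hB'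
    have hcom2 : ∀ x ∈ derG (2 ^ κ - 1) (⊤ : Subgroup (derG (2 ^ κ - 1) (⊤ : Subgroup X))),
        ∀ y : derG (2 ^ κ - 1) (⊤ : Subgroup X), ρ (x : X) * ρ (y : X) = ρ (y : X) * ρ (x : X) := by
      intro x hx y
      have h3 : ∀ w ∈ lgSpan O M (ρ.comp (derG (2 ^ κ - 1) (⊤ : Subgroup X)).subtype),
          ρ (x : X) * w = w * ρ (x : X) := fun w hw =>
        Solv_ad_comm (ρ.comp (derG (2 ^ κ - 1) (⊤ : Subgroup X)).subtype) _ σ hσ1 x (h2 x hx) w hw
      have h4 : lg O M (ρ (y : X) - 1) ∈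
          lgSpan O M (ρ.comp (derG (2 ^ κ - 1) (⊤ : Subgroup X)).subtype) :=
        Submodule.subset_span ⟨y, rfl⟩
      have h5 := mem_adjoin_lg M hUM (ρ (y : X) - 1) (Solv_pow M ρ hM (y : X))
      have h6 : ∀ u ∈ Algebra.adjoin O {lg O M (ρ (y : X) - 1)},
          ρ (x : X) * u = u * ρ (x : X) := by
        intro u hu
        induction hu using Algebra.adjoin_induction with
        | mem u hu =>
          rw [Set.mem_singleton_iff.1 hu]
          exact h3 _ h4
        | algebraMap r => exact (Algebra.commutes r (ρ (x : X))).symm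
        | add a b _ _ ha hb => rw [mul_add, add_mul, ha, hb]
        | mul a b _ _ ha hb => rw [← mul_assoc, ha, mul_assoc, hb, mul_assoc]
      have h7 := h6 _ h5
      rw [mul_sub, sub_mul, mul_one, one_mul] at h7
      exact sub_left_injective h7
    have hker : derG (2 ^ κ - 1 + 1) (⊤ : Subgroup (derG (2 ^ κ - 1) (⊤ : Subgroup X))) ≤
        (ρ.comp (derG (2 ^ κ - 1) (⊤ : Subgroup X)).subtype).ker := by
      change ⁅derG (2 ^ κ - 1) (⊤ : Subgroup (derG (2 ^ κ - 1) (⊤ : Subgroup X))),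
        derG (2 ^ κ - 1) (⊤ : Subgroup (derG (2 ^ κ - 1) (⊤ : Subgroup X)))⁆ ≤ _
      rw [Subgroup.commutator_le]
      intro a ha b _
      rw [MonoidHom.mem_ker, commutatorElement_def, map_mul, map_mul, map_mul]
      change ρ (a : X) * ρ (b : X) * ρ (a : X)⁻¹ * ρ (b : X)⁻¹ = 1
      rw [hcom2 a ha b, mul_assoc (ρ (b : X)), ← map_mul, mul_inv_cancel, map_one, mul_one,
        ← map_mul, mul_inv_cancel, map_one]
    intro x hx
    have e1 : 2 ^ (κ + 1) - 1 = (2 ^ κ - 1 + 1) + (2 ^ κ - 1) := by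
      have h3 : 1 ≤ 2 ^ κ := Nat.one_le_two_pow
      rw [pow_succ]
      omega
    rw [e1, ← derG_add, ← derG_map] at hx
    obtain ⟨y, hy, rfl⟩ := hx
    exact (MonoidHom.mem_ker).1 (hker hy)

end Pool.Agent.LgP
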