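import Pool.Agent.LgP.Krek
import Pool.Agent.LgP.Solv

/-!
# Kreknin's theorem for unipotent groups of small class

Paper proof. `S = lgSpan O M ρ` is Lie closed (`lgSpan_lie`), `σ`-stable
(`σ (lg (ρ x - 1)) = lg (ρ (φ x) - 1)`, `map_sum`) and has trace zero (`lg_trace`, and linearity of
`∑_j σ^j`; `σ^[j] (lg (ρ x - 1)) = lg (ρ (φ^[j] x) - 1)`). `kreknin` gives
`derL (2^(n-1)-1) S = ⊥`, `solv` gives the claim. `B` = maximum of the bounds needed.
-/

set_option autoImplicit false

namespace Pool.Agent.LgP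

private theorem laz_map_lg {O E : Type} [CommRing O] [Ring E] [Algebra O E] (M : ℕ)
    (σ : E →ₐ[O] E) (u : E) : σ (lg O M u) = lg O M (σ u) := by
  unfold lg
  rw [map_sum]
  refine Finset.sum_congr rfl fun k _ => ?_
  rw [map_smul, map_pow]

private theorem laz_iter {O E X : Type} [CommRing O] [Ring E] [Algebra O E] [Group X] (M : ℕ)
    (σ : E →ₐ[O] E) (φ : X →* X) (ρ : X →* E) (hρ : ∀ x, σ (ρ x) = ρ (φ x)) (x : X) (j : ℕ) :
    (⇑σ)^[j] (lg O M (ρ x - 1)) = lg O M (ρ ((⇑φ)^[j] x) - 1) := by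
  induction j with
  | zero => rfl
  | succ j ih =>
    rw [Function.iterate_succ_apply', Function.iterate_succ_apply', ih, laz_map_lg, map_sub,
      map_one, hρ]

private theorem laz_mono {O : Type} [CommRing O] {B C : ℕ} (h : UpTo O C) (hBC : B ≤ C) :
    UpTo O B := fun k hk hkB => h k hk (hkB.trans hBC)

theorem laz (n M : ℕ) : ∃ B : ℕ, ∀ (O E X : Type) [CommRing O] [Ring E] [Algebra O E] [Group X]
    (ζ : O), Prim O n ζ → UpTo O B → ∀ σ : E →ₐ[O] E, (∀ a, (⇑σ)^[n] a = a) →
    ∀ (φ : X →* X) (ρ : X →* E), (∀ x, σ (ρ x) = ρ (φ x)) → Split n φ → (aug O ρ) ^ M = ⊥ →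
    ∀ x ∈ derG (2 ^ (2 ^ (n - 1) - 1) - 1) (⊤ : Subgroup X), ρ x = 1 := by
  obtain ⟨B, hB⟩ := solv (2 ^ (n - 1) - 1) M
  refine ⟨B + (2 * M + 2) + (n * (M + 1) + 1), ?_⟩
  intro O E X _ _ _ _ ζ hP hU σ hσ φ ρ hρ hφ hM
  have hU1 : UpTo O B := laz_mono hU (by omega)
  have hU2 : UpTo O (2 * M + 2) := laz_mono hU (by omega)
  have hU3 : UpTo O (n * (M + 1) + 1) := laz_mono hU (by omega)
  refine hB O E X hU1 ρ hM ?_
  refine kreknin n ζ hP σ hσ (lgSpan O M ρ) (lgSpan_lie M hU2 ρ hM) ?_ ?_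
  · intro a ha
    unfold lgSpan at ha ⊢
    induction ha using Submodule.span_induction with
    | mem y hy =>
      obtain ⟨x, rfl⟩ := hy
      refine Submodule.subset_span ⟨φ x, ?_⟩
      show lg O M (ρ (φ x) - 1) = σ (lg O M (ρ x - 1))
      rw [laz_map_lg, map_sub, map_one, hρ]
    | zero => rw [map_zero]; exact Submodule.zero_mem _
    | add y z _ _ hy hz => rw [map_add]; exact Submodule.add_mem _ hy hz
    | smul c y _ hy => rw [map_smul]; exact Submodule.smul_mem _ c hy
  · intro a ha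
    unfold lgSpan at ha
    induction ha using Submodule.span_induction with
    | mem y hy =>
      obtain ⟨x, rfl⟩ := hy
      have h := lg_trace n M hP.pos hU3 φ hφ ρ hM x
      rw [← h]
      exact Finset.sum_congr rfl fun j _ => laz_iter M σ φ ρ hρ x j
    | zero =>
      refine Finset.sum_eq_zero fun j _ => ?_
      exact iterate_map_zero σ j
    | add y z _ _ hy hz =>
      have h : ∀ j ∈ Finset.range n, (⇑σ)^[j] (y + z) = (⇑σ)^[j] y + (⇑σ)^[j] z :=
        fun j _ => iterate_map_add σ j y z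
      rw [Finset.sum_congr rfl h, Finset.sum_add_distrib, hy, hz, add_zero]
    | smul c y _ hy =>
      have h : ∀ j ∈ Finset.range n, (⇑σ)^[j] (c • y) = c • (⇑σ)^[j] y := by
        intro j _
        induction j with
        | zero => rfl
        | succ j ih =>
          rw [Function.iterate_succ_apply', Function.iterate_succ_apply', ih (by
            rename_i h1
            exact Finset.mem_range.2 (by have := Finset.mem_range.1 h1; omega)), map_smul]
      rw [Finset.sum_congr rfl h, ← Finset.smul_sum, hy, smul_zero]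

end Pool.Agent.LgP
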