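import Pool.Agent.LgP.Own
import Pool.Agent.LgP.Laz

/-!
# Boundedly many nil elements generate a group of bounded derived length

Paper proof. `Y = orb φ x` is `φ`-invariant; `X = ↥Y`, `φ_X` the restriction of `φ`,
`ρ_X = ρ.comp Y.subtype`, `I = aug O ρ_X`. Apply `own n (r * n) m` to the letters
`u (i, j) = ρ (φ^j (x i)) - 1`, `i < r`, `j < n` (`finProdFinEquiv`); `(u (i,j))^m = 0` because
`ρ (φ^j x) = Φ^j ρ(x) Ψ^j`; `I ≤ span u ⊔ I^2` because `Y` is generated by the `φ^j (x i)` (`j < n`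
suffices? `Φ^n = 1` gives `ρ (φ^(j+n) g) = ρ (φ^j g)`) and
`ρ (a b) - 1 = (ρ a - 1) + (ρ b - 1) + (ρ a - 1)(ρ b - 1)`, `ρ a⁻¹ - 1 = -(ρ a - 1) + I^2`.
So `I^M = ⊥`. Then `laz n M` for `X`, and `derG_map` to come back to `derG _ (orb φ x)`.
`E = Module.End O V`, `σ a = Φ * a * Ψ`. `B = max (2 * m) (B of laz)`.
-/

set_option autoImplicit false

namespace Pool.Agent.LgP

private theorem OrbN_pow_mono {O A : Type} [CommRing O] [Ring A] [Algebra O A]
    {S T : Submodule O A} (h : S ≤ T) (k : ℕ) : S ^ k ≤ T ^ k := by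
  induction k with
  | zero => rw [pow_zero, pow_zero]
  | succ k ih => rw [pow_succ, pow_succ]; exact mul_le_mul' ih h

private theorem OrbN_orb_inv {G : Type} [Group G] {r : ℕ} (φ : G →* G) (x : Fin r → G) :
    ∀ g ∈ orb φ x, φ g ∈ orb φ x := by
  intro g hg
  unfold orb at hg ⊢
  induction hg using Subgroup.closure_induction with
  | mem g hg =>
    obtain ⟨i, j, rfl⟩ := hg
    exact Subgroup.subset_closure ⟨i, j + 1, (Function.iterate_succ_apply' _ _ _).symm⟩
  | one => rw [map_one]; exact Subgroup.one_mem _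
  | mul a b _ _ ha hb => rw [map_mul]; exact Subgroup.mul_mem _ ha hb
  | inv a _ ha => rw [map_inv]; exact Subgroup.inv_mem _ ha

private theorem OrbN_conj {O A : Type} [CommRing O] [Ring A] [Algebra O A] (Φ Ψ : A)
    (h1 : Φ * Ψ = 1) (h2 : Ψ * Φ = 1) : ∃ σ : A →ₐ[O] A, ∀ a, σ a = Φ * a * Ψ := by
  refine ⟨{ toFun := fun a => Φ * a * Ψ
            map_one' := by rw [mul_one, h1]
            map_mul' := ?_
            map_zero' := by rw [mul_zero, zero_mul]
            map_add' := fun a b => by rw [mul_add, add_mul]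
            commutes' := ?_ }, fun a => rfl⟩
  · intro a b
    calc Φ * (a * b) * Ψ = Φ * a * 1 * b * Ψ := by rw [mul_one, mul_assoc Φ a b]
      _ = Φ * a * (Ψ * Φ) * b * Ψ := by rw [h2]
      _ = Φ * a * Ψ * (Φ * b * Ψ) := by simp only [mul_assoc]
  · intro c
    rw [← Algebra.commutes, mul_assoc, h1, mul_one]

theorem orb_trivial (n r m : ℕ) : ∃ B : ℕ,
    ∀ (O V G : Type) [CommRing O] [AddCommGroup V] [Module O V] [Group G] (ζ : O), Prim O n ζ →
    UpTo O B → ∀ (φ : G →* G) (ρ : G →* Module.End O V) (Φ Ψ : Module.End O V),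
    Φ * Ψ = 1 → Ψ * Φ = 1 → Φ ^ n = 1 → (∀ g, ρ (φ g) = Φ * ρ g * Ψ) → Split n φ →
    (∃ K : ℕ, (aug (E := Module.End O V) O ρ) ^ K = ⊥) →
    ∀ x : Fin r → G, (∀ i, (ρ (x i) - 1) ^ m = 0) →
    ∀ g ∈ derG (2 ^ (2 ^ (n - 1) - 1) - 1) (orb φ x), ρ g = 1 := by
  obtain ⟨M, hM0, hown⟩ := own n (r * n) m
  obtain ⟨B, hB⟩ := laz n M
  refine ⟨2 * m + B, ?_⟩
  intro O V G _ _ _ _ ζ hP hU φ ρ Φ Ψ h1 h2 hΦ hconj hsplit hK x hx g hg
  obtain ⟨K, hK⟩ := hK
  have hn := hP.pos
  obtain ⟨σ, hσ⟩ := OrbN_conj (O := O) Φ Ψ h1 h2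
  have hσj : ∀ (j : ℕ) (a : Module.End O V), (⇑σ)^[j] a = Φ ^ j * a * Ψ ^ j := by
    intro j
    induction j with
    | zero => intro a; simp
    | succ j ih =>
      intro a
      rw [Function.iterate_succ_apply', ih, hσ, pow_succ' Φ, pow_succ Ψ]
      simp only [mul_assoc]
  have hΨ : Ψ ^ n = 1 := by
    have h3 : ∀ j : ℕ, Φ ^ j * Ψ ^ j = 1 := by
      intro j
      induction j with
      | zero => simp
      | succ j ih =>
        rw [pow_succ Φ, pow_succ' Ψ]
        calc Φ ^ j * Φ * (Ψ * Ψ ^ j) = Φ ^ j * (Φ * Ψ) * Ψ ^ j := by simp only [mul_assoc]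
          _ = 1 := by rw [h1, mul_one, ih]
    have h4 := h3 n
    rwa [hΦ, one_mul] at h4
  have hσn : ∀ a, (⇑σ)^[n] a = a := by
    intro a
    rw [hσj, hΦ, hΨ, one_mul, mul_one]
  have hσmod : ∀ (j : ℕ) (a : Module.End O V), (⇑σ)^[j] a = (⇑σ)^[j % n] a := by
    intro j a
    conv_lhs => rw [← Nat.mod_add_div j n, Function.iterate_add_apply]
    congr 1
    rw [Function.iterate_mul]
    have h3 : (⇑σ)^[n] = id := funext hσn
    rw [h3, Function.iterate_id, id]
  have hρj : ∀ (j : ℕ) (g : G), ρ ((⇑φ)^[j] g) = (⇑σ)^[j] (ρ g) := by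
    intro j
    induction j with
    | zero => intro g; rfl
    | succ j ih =>
      intro g
      rw [Function.iterate_succ_apply', Function.iterate_succ_apply', hconj, ih, hσ]
  set Y := orb φ x with hY
  have hinv := OrbN_orb_inv φ x
  let φY : Y →* Y := (φ.comp Y.subtype).codRestrict Y fun y => hinv _ y.2
  have hφY : ∀ y : Y, ((φY y : Y) : G) = φ y := fun y => rfl
  have hφYj : ∀ (j : ℕ) (y : Y), (((⇑φY)^[j] y : Y) : G) = (⇑φ)^[j] (y : G) := by
    intro j
    induction j with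
    | zero => intro y; rfl
    | succ j ih =>
      intro y
      rw [Function.iterate_succ_apply', Function.iterate_succ_apply', hφY, ih]
  let ρY : Y →* Module.End O V := ρ.comp Y.subtype
  have hρY : ∀ y : Y, ρY y = ρ (y : G) := fun y => rfl
  have hsplitY : Split n φY := by
    intro y
    apply Subtype.ext
    rw [SubmonoidClass.coe_list_prod, List.map_map]
    have h3 : ((fun a : Y => (a : G)) ∘ fun j => (⇑φY)^[j] y) = fun j => (⇑φ)^[j] (y : G) := by
      funext j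
      exact hφYj j y
    have h4 := hsplit (y : G)
    rw [← h3] at h4
    exact h4
  have haug : aug O ρY ≤ aug O ρ := by
    unfold aug
    apply Submodule.span_mono
    rintro _ ⟨y, rfl⟩
    exact ⟨(y : G), rfl⟩
  have hKY : (aug O ρY) ^ K = ⊥ := by
    rw [eq_bot_iff, ← hK]
    exact OrbN_pow_mono haug K
  have hmemY : ∀ (i : Fin r) (j : ℕ), (⇑φ)^[j] (x i) ∈ Y := fun i j =>
    Subgroup.subset_closure ⟨i, j, rfl⟩
  let u : Fin (r * n) → Module.End O V := fun k =>
    ρ ((⇑φ)^[((finProdFinEquiv.symm k).2 : ℕ)] (x (finProdFinEquiv.symm k).1)) - 1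
  have haugmem : ∀ y ∈ Y, ρ y - 1 ∈ aug O ρY := fun y hy =>
    Submodule.subset_span ⟨⟨y, hy⟩, rfl⟩
  have hu1 : ∀ k, u k ∈ aug O ρY := fun k => haugmem _ (hmemY _ _)
  have hu2 : ∀ k, u k ^ m = 0 := by
    intro k
    have h3 : ∀ (j : ℕ) (i : Fin r), (ρ ((⇑φ)^[j] (x i)) - 1) ^ m = 0 := by
      intro j i
      rw [hρj]
      induction j with
      | zero => exact hx i
      | succ j ih =>
        rw [Function.iterate_succ_apply']
        have h5 : σ ((⇑σ)^[j] (ρ (x i))) - 1 = σ ((⇑σ)^[j] (ρ (x i)) - 1) := by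
          rw [map_sub, map_one]
        rw [h5, ← map_pow, ih, map_zero]
    exact h3 _ _
  have hu3 : aug O ρY ≤ Submodule.span O (Set.range u) ⊔ (aug O ρY) ^ 2 := by
    have hmul : ∀ a ∈ Y, ∀ b ∈ Y, (ρ a - 1) * (ρ b - 1) ∈ (aug O ρY) ^ 2 := by
      intro a ha b hb
      rw [sq]
      exact Submodule.mul_mem_mul (haugmem a ha) (haugmem b hb)
    have hall : ∀ y ∈ Y, ρ y - 1 ∈ Submodule.span O (Set.range u) ⊔ (aug O ρY) ^ 2 := by
      intro y hy
      have hy' := hy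
      rw [hY] at hy'
      unfold orb at hy'
      induction hy' using Subgroup.closure_induction with
      | mem y hy1 =>
        obtain ⟨i, j, rfl⟩ := hy1
        apply Submodule.mem_sup_left
        apply Submodule.subset_span
        refine ⟨finProdFinEquiv (i, ⟨j % n, Nat.mod_lt _ hn⟩), ?_⟩
        show ρ ((⇑φ)^[((finProdFinEquiv.symm (finProdFinEquiv (i, (⟨j % n, Nat.mod_lt _ hn⟩ :
          Fin n)))).2 : ℕ)] (x (finProdFinEquiv.symm (finProdFinEquiv (i, (⟨j % n,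
          Nat.mod_lt _ hn⟩ : Fin n)))).1)) - 1 = ρ ((⇑φ)^[j] (x i)) - 1
        rw [Equiv.symm_apply_apply]
        simp only
        rw [hρj, hρj, hσmod j]
      | one => rw [map_one, sub_self]; exact Submodule.zero_mem _
      | mul a b ha hb iha ihb =>
        have e : ρ (a * b) - 1 = (ρ a - 1) + (ρ b - 1) + (ρ a - 1) * (ρ b - 1) := by
          rw [map_mul]; noncomm_ring
        rw [e]
        exact Submodule.add_mem _ (Submodule.add_mem _ (iha ha) (ihb hb))
          (Submodule.mem_sup_right (hmul a ha b hb))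
      | inv a ha iha =>
        have ha' : a ∈ Y := ha
        have e0 : ρ a * ρ a⁻¹ = 1 := by rw [← map_mul, mul_inv_cancel, map_one]
        have e : ρ a⁻¹ - 1 = -(ρ a - 1) - (ρ a - 1) * (ρ a⁻¹ - 1) := by
          have : (ρ a - 1) * (ρ a⁻¹ - 1) = ρ a * ρ a⁻¹ - ρ a - ρ a⁻¹ + 1 := by noncomm_ring
          rw [this, e0]
          abel
        rw [e]
        exact Submodule.sub_mem _ (Submodule.neg_mem _ (iha ha'))
          (Submodule.mem_sup_right (hmul a ha' a⁻¹ (Y.inv_mem ha')))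
    unfold aug
    rw [Submodule.span_le]
    rintro _ ⟨y, rfl⟩
    exact hall _ y.2
  have hσρ : ∀ y : Y, σ (ρY y) = ρY (φY y) := by
    intro y
    rw [hρY, hρY, hφY, hconj, hσ]
  have hMY := hown O (Module.End O V) Y ζ hP (fun k h3 h4 => hU k h3 (by omega)) σ hσn φY ρY hσρ
    hsplitY ⟨K, hKY⟩ u hu1 hu2 hu3
  have hfin := hB O (Module.End O V) Y ζ hP (fun k h3 h4 => hU k h3 (by omega)) σ hσn φY ρY hσρ
    hsplitY hMY
  rw [← derG_map] at hg
  obtain ⟨y, hy, rfl⟩ := hg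
  exact hfin y hy

end Pool.Agent.LgP
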