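import Pool.Agent.LgP.PureN
import Pool.Agent.LgP.OrbN
import Pool.Agent.LgP.Gen
import Pool.Agent.LgP.Rep

set_option autoImplicit false

open Polynomial
open scoped commutatorElement

namespace Pool.Agent.LgP

/-- `2^κ - 1` with Kreknin's number `κ = 2^(n-1) - 1` -/
def dd (n : ℕ) : ℕ := 2 ^ (2 ^ (n - 1) - 1) - 1

/-- The subgroup generated by the conjugates of the elements of pure type `k`. -/
def NN {G : Type} [Group G] (k : ℕ) (φ : G →* G) : Subgroup G :=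
  Subgroup.closure {x | ∃ y, Pure k φ y ∧ ∃ g : G, x = g * y * g⁻¹}

theorem NN_conj {G : Type} [Group G] (k : ℕ) (φ : G →* G) :
    ∀ x ∈ {x | ∃ y, Pure k φ y ∧ ∃ g : G, x = g * y * g⁻¹}, ∀ g : G,
      g * x * g⁻¹ ∈ {x | ∃ y, Pure k φ y ∧ ∃ g : G, x = g * y * g⁻¹} := by
  rintro x ⟨y, hy, a, rfl⟩ g
  refine ⟨y, hy, g * a, ?_⟩
  simp [mul_assoc]

theorem NN_normal {G : Type} [Group G] (k : ℕ) (φ : G →* G) : (NN k φ).Normal := by
  refine ⟨fun x hx g => ?_⟩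
  unfold NN at hx ⊢
  induction hx using Subgroup.closure_induction with
  | mem x hx => exact Subgroup.subset_closure (NN_conj k φ x hx g)
  | one => simp
  | mul x y _ _ h1 h2 =>
    have : g * (x * y) * g⁻¹ = (g * x * g⁻¹) * (g * y * g⁻¹) := by group
    rw [this]
    exact Subgroup.mul_mem _ h1 h2
  | inv x _ h1 =>
    have : g * x⁻¹ * g⁻¹ = (g * x * g⁻¹)⁻¹ := by group
    rw [this]
    exact Subgroup.inv_mem _ h1

theorem pw_comm {G : Type} [Group G] (φ : G →* G) (f : ℤ[X]) (g : G) :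
    pw φ f (φ g) = φ (pw φ f g) := by
  rw [pw_map φ φ φ (fun _ => rfl)]

theorem orb_map {G : Type} [Group G] (φ : G →* G) (y : G) :
    orb φ (fun _ : Unit => φ y) = (orb φ (fun _ : Unit => y)).map φ := by
  unfold orb
  rw [MonoidHom.map_closure]
  congr 1
  ext g
  constructor
  · rintro ⟨i, j, rfl⟩
    exact ⟨(⇑φ)^[j] y, ⟨i, j, rfl⟩,
      (Function.iterate_succ_apply' (⇑φ) j y).symm.trans (Function.iterate_succ_apply (⇑φ) j y)⟩
  · rintro ⟨_, ⟨i, j, rfl⟩, rfl⟩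
    exact ⟨i, j,
      (Function.iterate_succ_apply' (⇑φ) j y).symm.trans (Function.iterate_succ_apply (⇑φ) j y)⟩

theorem pure_map {G : Type} [Group G] (k : ℕ) (φ : G →* G) (y : G) (h : Pure k φ y) :
    Pure k φ (φ y) := by
  unfold Pure at h ⊢
  rw [pw_comm, orb_map, ← Subgroup.map_commutator]
  exact Subgroup.mem_map_of_mem _ h

theorem NN_le_comap {G : Type} [Group G] (k : ℕ) (φ : G →* G) : NN k φ ≤ (NN k φ).comap φ := by
  conv_lhs => unfold NN
  rw [Subgroup.closure_le]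
  rintro x ⟨y, hy, g, rfl⟩
  simp only [Subgroup.coe_comap, Set.mem_preimage, SetLike.mem_coe, map_mul, map_inv]
  exact Subgroup.subset_closure ⟨φ y, pure_map k φ y hy, φ g, rfl⟩

/-- deep elements of `NN` act trivially on the abelianisation of every normal invariant subgroup -/
theorem key (n : ℕ) : ∃ B : ℕ, ∀ (G : Type) [Group G] [Finite G] [Group.IsNilpotent G]
    (k : ℕ), 0 < n → 1 < k → k ∣ n → (∀ q, 0 < q → q ≤ B → Nat.Coprime q (Nat.card G)) →
    ∀ (φ : G →* G), (∀ g, (⇑φ)^[n] g = g) → Split n φ → Lev n k φ →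
    ∀ H : Subgroup G, H.Normal → (∀ h ∈ H, φ h ∈ H) →
    ∀ g ∈ derG (dd n) (NN k φ), ∀ h ∈ H, ⁅g, h⁆ ∈ ⁅H, H⁆ := by
  obtain ⟨m, hm, hpure⟩ := pure_nil n
  obtain ⟨B1, horb⟩ := orb_trivial n (2 ^ dd n) m
  refine ⟨max (2 * n) B1, ?_⟩
  intro G _ _ _ k hn hk hkn hco φ hφ hS hL H hHn hH g hg
  obtain ⟨O, V, _, _, _, ζ, ρ, Φ, Ψ, hP, hcyc, hunit, h1, h2, h3, hρ, htriv, hK, hpoly⟩ :=
    rep_exists n hn (hco n hn (le_trans (by omega) (le_max_left _ _))) φ hφ H hHn hH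
  have hU : ∀ B', B' ≤ max (2 * n) B1 → UpTo O B' :=
    fun B' hB' q h0 hq => hunit q (hco q h0 (hq.trans hB'))
  have hf : aeval Φ (fk n k) = 0 := hpoly _ (hL H hHn hH)
  apply htriv g
  have hle : derG (dd n) (NN k φ) ≤ MonoidHom.ker ρ := by
    unfold NN
    rw [derG_closure _ (NN_conj k φ), Subgroup.closure_le]
    intro g hg
    obtain ⟨x, hx, hgx⟩ := dval_orb φ _ _ g hg
    refine horb O V G ζ hP (hU _ (le_max_right _ _)) φ ρ Φ Ψ h1 h2 h3 hρ hS hK x ?_ g hgx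
    intro i
    obtain ⟨y, hy, a, hxa⟩ := hx i
    have h4 := hpure O V G ζ hP (hU _ (le_max_left _ _)) hcyc k hk hkn φ ρ Φ Ψ h1 h2 h3 hρ hS hK
      hf y hy
    have h5 : ρ (x i) - 1 = ρ a * (ρ y - 1) * ρ a⁻¹ := by
      rw [hxa, map_mul, map_mul, mul_sub, sub_mul, mul_one]
      congr 1
      rw [← map_mul, mul_inv_cancel, map_one]
    have h6 : ∀ j : ℕ, (ρ a * (ρ y - 1) * ρ a⁻¹) ^ j = ρ a * (ρ y - 1) ^ j * ρ a⁻¹ := by
      intro j
      induction j with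
      | zero => rw [pow_zero, pow_zero, mul_one, ← map_mul, mul_inv_cancel, map_one]
      | succ j ih =>
        rw [pow_succ, ih, pow_succ]
        have h7 : ρ a⁻¹ * ρ a = 1 := by rw [← map_mul, inv_mul_cancel, map_one]
        calc ρ a * (ρ y - 1) ^ j * ρ a⁻¹ * (ρ a * (ρ y - 1) * ρ a⁻¹)
            = ρ a * (ρ y - 1) ^ j * (ρ a⁻¹ * ρ a) * (ρ y - 1) * ρ a⁻¹ := by
              simp only [mul_assoc]
          _ = _ := by rw [h7]; simp only [mul_assoc, mul_one, one_mul]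
    rw [h5, h6, h4, mul_zero, zero_mul]
  exact hle hg

end Pool.Agent.LgP
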