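import Mathlib
import Pool.Agent.LgP.Main

set_option autoImplicit false

namespace Pool.Agent.LgP.LargePrimesOld

/-- There are functions `P f : ℕ → ℕ` such that every finite nilpotent group `G` with a
fixed-point-free automorphism `φ` of order `n`, all of whose prime divisors are larger than `P n`,
has derived length at most `f n`. -/
theorem result :
    ∃ P f : ℕ → ℕ, ∀ (G : Type) [Group G] [Finite G] [Group.IsNilpotent G] (φ : MulAut G),
      (∀ q : ℕ, q.Prime → q ∣ Nat.card G → P (orderOf φ) < q) →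
      (∀ g : G, φ g = g → g = 1) → derivedSeries G (f (orderOf φ)) = ⊥ := by
  classical
  have h : ∀ n : ℕ, ∃ P d : ℕ, 0 < n → ∀ (G : Type) [Group G] [Finite G]
      [Group.IsNilpotent G] (φ : MulAut G), (∀ q : ℕ, q.Prime → q ∣ Nat.card G → P < q) →
      φ ^ n = 1 → (∀ g, φ g = g → g = 1) → derivedSeries G d = ⊥ := by
    intro n
    by_cases hn : 0 < n
    · obtain ⟨P, d, h⟩ := Pool.Agent.LgP.main n hn
      exact ⟨P, d, fun _ => h⟩
    · exact ⟨0, 0, fun h => absurd h hn⟩
  choose P f h using h
  refine ⟨P, f, ?_⟩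
  intro G _ _ _ φ hP hfix
  have hfin : IsOfFinOrder φ := isOfFinOrder_of_finite φ
  exact h (orderOf φ) hfin.orderOf_pos G φ hP (pow_orderOf_eq_one φ) hfix

end Pool.Agent.LgP.LargePrimesOld
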