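import Pool.Agent.LgP.Vand

/-!
# Truncated logarithms of unipotent groups

`I = aug O ρ`, `I^M = ⊥`, and `1, ..., B` invertible with `B` large. All proofs: put both sides of
a group identity, with `x` replaced by `x^s`, in the form of a polynomial family in `s` (`powFam`
for `ρ (x^s) = (1 + (ρ x - 1))^s`) and compare coefficients of `s^1` with `vand`.

`lg_unique`: the coefficient of `s^1` of any polynomial family equal to `(1+u)^s` is `lg O M u`.
`lg_inv`: `lg (ρ x⁻¹ - 1) = - lg (ρ x - 1)`: coefficient of `s` in `ρ(x⁻¹)^s ρ(x)^s = 1`.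
`lg_conj`: `ρ g * lg (ρ x - 1) * ρ g⁻¹ = lg (ρ (g x g⁻¹) - 1)` (algebra, no comparison).
`lgSpan_lie`: `lgSpan` is Lie closed: `ρ(x^-s) lg(ρ y - 1) ρ(x^s) ∈ lgSpan` for all `s`; the
coefficient of `s^1` is `-lg(x) lg(y) + lg(y) lg(x)`, it lies in `lgSpan` by `vand` (degree `≤ 2M`).
`lg_trace`: `∏_j ρ(φ^j x)^s = 1`, degree `≤ nM`, coefficient of `s^1`: `∑_j lg (ρ (φ^j x) - 1) = 0`.
`mem_adjoin_lg`: `u ∈ Algebra.adjoin O {lg O M u}` if `u^M = 0`: `lg u = u (1 + u w)` with
`w ∈ O[u]`, so `u^j ∈ (lg u)^j + u^(j+1) O[u]` and by descending induction on `j ≥ 1` all elements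
`u^j a`, `a ∈ O[u]`, lie in `O[lg u]` (for `j = M` they vanish).
`lg_eq_zero`: `lg O M u = 0 → u = 0` if `u^M = 0` (same argument: `u^j O[u] ≤ u^(j+1) O[u]`).
-/

set_option autoImplicit false

namespace Pool.Agent.LgP

open Polynomial

/-- vandermonde for polynomials with coefficients in a noncommutative algebra -/
private theorem lgv_vandP {O E : Type} [CommRing O] [Ring E] [Algebra O E] (D : ℕ)
    (hU : UpTo O D) (W : Submodule O E) (P : E[X]) (hdeg : P.natDegree < D)
    (h : ∀ s : ℕ, P.eval (s : E) ∈ W) (k : ℕ) (hk : k < D) : P.coeff k ∈ W := by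
  refine vand D hU W (fun k => P.coeff k) ?_ k hk
  intro s
  have h1 := h s
  rw [eval_eq_sum_range' hdeg] at h1
  have h2 : ∑ k ∈ Finset.range D, (s : O) ^ k • P.coeff k =
      ∑ i ∈ Finset.range D, P.coeff i * (s : E) ^ i := by
    refine Finset.sum_congr rfl fun i _ => ?_
    rw [Algebra.smul_def, map_pow, map_natCast]
    exact ((Nat.cast_commute s (P.coeff i)).pow_left i).eq
  show ∑ k ∈ Finset.range D, (s : O) ^ k • P.coeff k ∈ W
  rw [h2]
  exact h1

private theorem lgv_famP {O E : Type} [CommRing O] [Ring E] [Algebra O E] (M : ℕ)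
    (hU : UpTo O M) (u : E) (hu : u ^ M = 0) : ∃ P : E[X], P.natDegree ≤ M ∧ P.coeff 0 = 1 ∧
      P.coeff 1 = lg O M u ∧ ∀ s : ℕ, P.eval (s : E) = (1 + u) ^ s := by
  obtain ⟨e, h0, h1, h2, -, h4⟩ := powFam (O := O) M hU u hu
  have hc : ∀ k, (∑ i ∈ Finset.range (M + 1), monomial i (e i) : E[X]).coeff k = e k := by
    intro k
    rw [finset_sum_coeff]
    simp only [coeff_monomial]
    rw [Finset.sum_ite_eq' (Finset.range (M + 1)) k e]
    split_ifs with hk
    · rfl
    · rw [Finset.mem_range, not_lt] at hk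
      exact (h2 k (by omega)).symm
  refine ⟨∑ i ∈ Finset.range (M + 1), monomial i (e i), ?_, ?_, ?_, ?_⟩
  · rw [natDegree_le_iff_coeff_eq_zero]
    intro k hk
    rw [hc]
    exact h2 k hk
  · rw [hc, h0]
  · rw [hc, h1]
  · intro s
    rw [h4 s, eval_finset_sum]
    refine Finset.sum_congr rfl fun i _ => ?_
    rw [eval_monomial, Algebra.smul_def, map_pow, map_natCast]
    exact (((Nat.cast_commute s (e i)).pow_left i).eq).symm

private theorem lgv_eval_mul {E : Type} [Ring E] (P Q : E[X]) (s : ℕ) :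
    (P * Q).eval (s : E) = P.eval (s : E) * Q.eval (s : E) := by
  rw [eval, eval, eval]
  exact eval₂_mul_noncomm _ _ (fun k => (Nat.cast_commute s _).symm)

theorem lg_unique {O E : Type} [CommRing O] [Ring E] [Algebra O E] (M D : ℕ) (hM : M < D)
    (hU : UpTo O D) (u : E) (hu : u ^ M = 0) (c : ℕ → E)
    (h : ∀ s : ℕ, (1 + u) ^ s = ∑ k ∈ Finset.range D, (s : O) ^ k • c k) (hD : 1 < D) :
    c 1 = lg O M u := by
  obtain ⟨e, h0, h1, h2, -, h4⟩ :=
    powFam (O := O) M (fun k hk hk' => hU k hk (by omega)) u hu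
  have hkey : ∀ k < D, (fun k => c k - e k) k ∈ (⊥ : Submodule O E) := by
    refine vand D hU ⊥ (fun k => c k - e k) ?_
    intro s
    rw [Submodule.mem_bot]
    have h5 : ∑ k ∈ Finset.range D, (s : O) ^ k • e k = (1 + u) ^ s := by
      rw [h4 s]
      symm
      refine Finset.sum_subset ?_ ?_
      · intro k hk
        rw [Finset.mem_range] at hk ⊢
        omega
      · intro k _ hk
        rw [Finset.mem_range, not_lt] at hk
        rw [h2 k (by omega), smul_zero]
    simp only [smul_sub, Finset.sum_sub_distrib]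
    rw [h5, ← h s, sub_self]
  have h6 := hkey 1 hD
  rw [Submodule.mem_bot] at h6
  simp only at h6
  rw [← h1]
  exact sub_eq_zero.mp h6

private theorem lgv_conj_pow {E X : Type} [Ring E] [Group X]
    (ρ : X →* E) (g x : X) (k : ℕ) :
    ρ g * (ρ x - 1) ^ k * ρ g⁻¹ = (ρ (g * x * g⁻¹) - 1) ^ k := by
  have h1 : ρ g⁻¹ * ρ g = 1 := by rw [← map_mul, inv_mul_cancel, map_one]
  have h2 : ρ g * ρ g⁻¹ = 1 := by rw [← map_mul, mul_inv_cancel, map_one]
  induction k with
  | zero => rw [pow_zero, pow_zero, mul_one, h2]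
  | succ k ih =>
    rw [pow_succ, pow_succ, ← ih]
    have h3 : ρ (g * x * g⁻¹) - 1 = ρ g * (ρ x - 1) * ρ g⁻¹ := by
      rw [map_mul, map_mul, mul_sub, sub_mul, mul_one, h2]
    rw [h3]
    calc ρ g * ((ρ x - 1) ^ k * (ρ x - 1)) * ρ g⁻¹
        = ρ g * (ρ x - 1) ^ k * 1 * (ρ x - 1) * ρ g⁻¹ := by rw [mul_one]; simp only [mul_assoc]
      _ = ρ g * (ρ x - 1) ^ k * (ρ g⁻¹ * ρ g) * (ρ x - 1) * ρ g⁻¹ := by rw [h1]
      _ = ρ g * (ρ x - 1) ^ k * ρ g⁻¹ * (ρ g * (ρ x - 1) * ρ g⁻¹) := by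
          simp only [mul_assoc]

theorem lg_conj {O E X : Type} [CommRing O] [Ring E] [Algebra O E] [Group X] (M : ℕ)
    (ρ : X →* E) (g x : X) :
    ρ g * lg O M (ρ x - 1) * ρ g⁻¹ = lg O M (ρ (g * x * g⁻¹) - 1) := by
  unfold lg
  rw [Finset.mul_sum, Finset.sum_mul]
  refine Finset.sum_congr rfl fun k _ => ?_
  rw [mul_smul_comm, smul_mul_assoc, lgv_conj_pow]

private theorem lgv_nil {O E X : Type} [CommRing O] [Ring E] [Algebra O E] [Group X] (M : ℕ)
    (ρ : X →* E) (hM : (aug O ρ) ^ M = ⊥) (x : X) : (ρ x - 1) ^ M = 0 := by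
  have h1 : (ρ x - 1) ∈ aug O ρ := Submodule.subset_span ⟨x, rfl⟩
  have h2 := Submodule.pow_mem_pow (aug O ρ) h1 M
  rw [hM, Submodule.mem_bot] at h2
  exact h2

private theorem lgv_inv {O E X : Type} [CommRing O] [Ring E] [Algebra O E] [Group X] (M : ℕ)
    (hU : UpTo O (2 * M + 2)) (ρ : X →* E) (hM : (aug O ρ) ^ M = ⊥) (x : X) :
    lg O M (ρ x⁻¹ - 1) = - lg O M (ρ x - 1) := by
  have hU' : UpTo O M := fun k hk hk' => hU k hk (by omega)
  obtain ⟨P, hPd, hP0, hP1, hP⟩ := lgv_famP M hU' (ρ x - 1) (lgv_nil M ρ hM x)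
  obtain ⟨Q, hQd, hQ0, hQ1, hQ⟩ := lgv_famP M hU' (ρ x⁻¹ - 1) (lgv_nil M ρ hM x⁻¹)
  have h1 : ∀ s : ℕ, (Q * P - 1).eval (s : E) ∈ (⊥ : Submodule O E) := by
    intro s
    rw [Submodule.mem_bot, eval_sub, lgv_eval_mul, eval_one, hQ, hP, add_sub_cancel,
      add_sub_cancel, ← map_pow, ← map_pow, ← map_mul, inv_pow, inv_mul_cancel, map_one,
      sub_self]
  have hdeg : (Q * P - 1).natDegree < 2 * M + 2 := by
    refine lt_of_le_of_lt (natDegree_sub_le _ _) ?_
    rw [natDegree_one, Nat.max_zero]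
    refine lt_of_le_of_lt natDegree_mul_le ?_
    omega
  have h2 := lgv_vandP (2 * M + 2) hU ⊥ (Q * P - 1) hdeg h1 1 (by omega)
  rw [Submodule.mem_bot, coeff_sub, coeff_one, if_neg one_ne_zero, sub_zero, mul_coeff_one,
    hQ0, hP0, hP1, hQ1, one_mul, mul_one] at h2
  exact (neg_eq_of_add_eq_zero_right h2).symm

theorem lgSpan_lie {O E X : Type} [CommRing O] [Ring E] [Algebra O E] [Group X] (M : ℕ)
    (hU : UpTo O (2 * M + 2)) (ρ : X →* E) (hM : (aug O ρ) ^ M = ⊥) : IsLie (lgSpan O M ρ) := by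
  have hU' : UpTo O M := fun k hk hk' => hU k hk (by omega)
  have hgen : ∀ x y : X, lg O M (ρ x - 1) * lg O M (ρ y - 1) -
      lg O M (ρ y - 1) * lg O M (ρ x - 1) ∈ lgSpan O M ρ := by
    intro x y
    obtain ⟨P, hPd, hP0, hP1, hP⟩ := lgv_famP M hU' (ρ x - 1) (lgv_nil M ρ hM x)
    obtain ⟨Q, hQd, hQ0, hQ1, hQ⟩ := lgv_famP M hU' (ρ x⁻¹ - 1) (lgv_nil M ρ hM x⁻¹)
    set L := lg O M (ρ y - 1) with hL
    have h1 : ∀ s : ℕ, (Q * C L * P).eval (s : E) ∈ lgSpan O M ρ := by
      intro s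
      rw [lgv_eval_mul, lgv_eval_mul, eval_C, hQ, hP, add_sub_cancel, add_sub_cancel,
        ← map_pow, ← map_pow, inv_pow]
      have h3 := lg_conj (O := O) M ρ ((x ^ s)⁻¹) y
      rw [inv_inv, ← hL] at h3
      rw [h3]
      exact Submodule.subset_span ⟨_, rfl⟩
    have hdeg : (Q * C L * P).natDegree < 2 * M + 2 := by
      refine lt_of_le_of_lt natDegree_mul_le ?_
      have h4 : (Q * C L).natDegree ≤ Q.natDegree := natDegree_mul_C_le _ _
      omega
    have h2 := lgv_vandP (2 * M + 2) hU (lgSpan O M ρ) (Q * C L * P) hdeg h1 1 (by omega)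
    rw [mul_coeff_one, mul_coeff_one, mul_coeff_zero, hP0, hP1, hQ0, hQ1, coeff_C_zero,
      coeff_C, if_neg one_ne_zero, mul_zero, zero_add, one_mul, mul_one,
      lgv_inv M hU ρ hM x, neg_mul] at h2
    have h5 := (lgSpan O M ρ).neg_mem h2
    rw [neg_add, neg_neg] at h5
    rw [sub_eq_add_neg]
    rwa [add_comm] at h5
  intro a ha b hb
  unfold lgSpan at ha hb
  induction ha using Submodule.span_induction with
  | mem a ha =>
    obtain ⟨x, rfl⟩ := ha
    induction hb using Submodule.span_induction with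
    | mem b hb =>
      obtain ⟨y, rfl⟩ := hb
      exact hgen x y
    | zero => simp
    | add b b' _ _ h1 h2 =>
      have h3 := (lgSpan O M ρ).add_mem h1 h2
      convert h3 using 1
      noncomm_ring
    | smul r b _ h1 =>
      have h3 := (lgSpan O M ρ).smul_mem r h1
      convert h3 using 1
      rw [mul_smul_comm, smul_mul_assoc, smul_sub]
  | zero => simp
  | add a a' _ _ h1 h2 =>
    have h3 := (lgSpan O M ρ).add_mem h1 h2
    convert h3 using 1
    noncomm_ring
  | smul r a _ h1 =>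
    have h3 := (lgSpan O M ρ).smul_mem r h1
    convert h3 using 1
    rw [mul_smul_comm, smul_mul_assoc, smul_sub]

private theorem lgv_prod {O E : Type} [CommRing O] [Ring E] [Algebra O E] (M : ℕ)
    (hU : UpTo O M) (m : ℕ) (u : ℕ → E) (hu : ∀ j, u j ^ M = 0) :
    ∃ P : E[X], P.natDegree ≤ m * M ∧ P.coeff 0 = 1 ∧
      P.coeff 1 = ∑ j ∈ Finset.range m, lg O M (u j) ∧
      ∀ s : ℕ, P.eval (s : E) = ((List.range m).map fun j => (1 + u j) ^ s).prod := by
  induction m with
  | zero =>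
    refine ⟨1, by simp, by simp, ?_, ?_⟩
    · rw [coeff_one, if_neg one_ne_zero, Finset.range_zero, Finset.sum_empty]
    · intro s
      simp
  | succ m ih =>
    obtain ⟨P, hPd, hP0, hP1, hP⟩ := ih
    obtain ⟨Q, hQd, hQ0, hQ1, hQ⟩ := lgv_famP (O := O) M hU (u m) (hu m)
    refine ⟨P * Q, ?_, ?_, ?_, ?_⟩
    · refine natDegree_mul_le.trans ?_
      rw [Nat.add_mul, one_mul]
      omega
    · rw [mul_coeff_zero, hP0, hQ0, one_mul]
    · rw [mul_coeff_one, hP0, hQ0, hP1, hQ1, one_mul, mul_one, Finset.sum_range_succ,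
        add_comm]
    · intro s
      rw [lgv_eval_mul, hP, hQ, List.range_succ, List.map_append, List.prod_append,
        List.map_singleton, List.prod_singleton]

theorem lg_trace {O E X : Type} [CommRing O] [Ring E] [Algebra O E] [Group X] (n M : ℕ)
    (hn : 0 < n) (hU : UpTo O (n * (M + 1) + 1)) (φ : X →* X) (hφ : Split n φ) (ρ : X →* E)
    (hM : (aug O ρ) ^ M = ⊥) (x : X) :
    ∑ j ∈ Finset.range n, lg O M (ρ ((⇑φ)^[j] x) - 1) = 0 := by
  have hnM : M + 1 ≤ n * (M + 1) := Nat.le_mul_of_pos_left _ hn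
  have hU' : UpTo O M := fun k hk hk' => hU k hk (by omega)
  obtain ⟨P, hPd, hP0, hP1, hP⟩ := lgv_prod (O := O) M hU' n
    (fun j => ρ ((⇑φ)^[j] x) - 1) (fun j => lgv_nil M ρ hM _)
  have hit : ∀ (j s : ℕ), (⇑φ)^[j] (x ^ s) = ((⇑φ)^[j] x) ^ s := by
    intro j s
    induction j with
    | zero => rfl
    | succ j ih => rw [Function.iterate_succ_apply', ih, map_pow, Function.iterate_succ_apply']
  have h1 : ∀ s : ℕ, (P - 1).eval (s : E) ∈ (⊥ : Submodule O E) := by
    intro s
    rw [Submodule.mem_bot, eval_sub, eval_one, hP]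
    have h2 := congrArg ρ (hφ (x ^ s))
    rw [map_one, map_list_prod, List.map_map] at h2
    have h3 : ((List.range n).map fun j => (1 + (ρ ((⇑φ)^[j] x) - 1)) ^ s) =
        (List.range n).map (⇑ρ ∘ fun j => (⇑φ)^[j] (x ^ s)) := by
      refine List.map_congr_left fun j _ => ?_
      rw [Function.comp_apply, hit, map_pow, add_sub_cancel]
    rw [h3, h2, sub_self]
  have hdeg : (P - 1).natDegree < n * (M + 1) + 1 := by
    refine lt_of_le_of_lt (natDegree_sub_le _ _) ?_
    rw [natDegree_one, Nat.max_zero]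
    have h4 : n * (M + 1) = n * M + n := by ring
    omega
  have h2 := lgv_vandP (n * (M + 1) + 1) hU ⊥ (P - 1) hdeg h1 1 (by omega)
  rw [Submodule.mem_bot, coeff_sub, coeff_one, if_neg one_ne_zero, sub_zero, hP1] at h2
  exact h2

private theorem lgv_desc {O E : Type} [CommRing O] [Ring E] [Algebra O E] (M : ℕ)
    (u : E) (hu : u ^ M = 0) (T : Submodule O E)
    (hT : ∀ j : ℕ, 1 ≤ j → (lg O M u) ^ j ∈ T) : u ∈ T := by
  rcases Nat.lt_or_ge M 2 with hM | hM
  · have h1 : u = 0 := by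
      rcases Nat.eq_zero_or_pos M with h0 | h0
      · rw [h0, pow_zero] at hu
        calc u = u * 1 := (mul_one u).symm
          _ = 0 := by rw [hu, mul_zero]
      · have h2 : M = 1 := by omega
        rw [h2, pow_one] at hu
        exact hu
    rw [h1]
    exact T.zero_mem
  set L : O[X] := ∑ k ∈ Finset.Ico 1 M, C ((-1) ^ (k + 1) * Ring.inverse (k : O)) * X ^ k with hL
  have hLu : aeval u L = lg O M u := by
    rw [hL, map_sum, lg]
    refine Finset.sum_congr rfl fun k _ => ?_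
    rw [map_mul, aeval_C, map_pow, aeval_X, ← Algebra.smul_def]
  have hLc : ∀ k, L.coeff k =
      if k ∈ Finset.Ico 1 M then (-1) ^ (k + 1) * Ring.inverse (k : O) else 0 := by
    intro k
    rw [hL, finset_sum_coeff]
    simp only [coeff_C_mul_X_pow]
    rw [Finset.sum_ite_eq (Finset.Ico 1 M) k]
  have hL0 : L.coeff 0 = 0 := by
    rw [hLc, if_neg (by simp)]
  have hL1 : L.coeff 1 = 1 := by
    rw [hLc, if_pos (by rw [Finset.mem_Ico]; omega)]
    simp
  obtain ⟨W, hW⟩ : ∃ W : O[X], L = X * (1 + X * W) := by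
    refine ⟨L.divX.divX, ?_⟩
    have h1 : L.divX * X + C (L.coeff 0) = L := divX_mul_X_add L
    have h2 : L.divX.divX * X + C (L.divX.coeff 0) = L.divX := divX_mul_X_add L.divX
    rw [coeff_divX, zero_add, hL1, C_1] at h2
    rw [hL0, C_0, add_zero] at h1
    calc L = L.divX * X := h1.symm
      _ = (L.divX.divX * X + 1) * X := by rw [h2]
      _ = X * (1 + X * L.divX.divX) := by ring
  have hpow : ∀ j : ℕ, ∃ V : O[X], L ^ j = X ^ j + X ^ (j + 1) * V := by
    intro j
    obtain ⟨c, hc⟩ := sub_dvd_pow_sub_pow (1 + X * W) 1 j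
    rw [one_pow, add_sub_cancel_left] at hc
    refine ⟨W * c, ?_⟩
    have h3 : (1 + X * W) ^ j = 1 + X * W * c := by
      rw [← hc]; ring
    rw [hW, mul_pow, h3]
    ring
  have key : ∀ d j : ℕ, j + d = M → 1 ≤ j → ∀ p : O[X], u ^ j * aeval u p ∈ T := by
    intro d
    induction d with
    | zero =>
      intro j hj _ p
      rw [add_zero] at hj
      rw [hj, hu, zero_mul]
      exact T.zero_mem
    | succ d ih =>
      intro j hj hj1 p
      have ih' := ih (j + 1) (by omega) (by omega)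
      obtain ⟨V, hV⟩ := hpow j
      have h1 : u ^ j = (lg O M u) ^ j - u ^ (j + 1) * aeval u V := by
        rw [← hLu, ← map_pow, hV, map_add, map_mul, map_pow, map_pow, aeval_X]
        abel
      have h2 : u ^ j * aeval u p = p.coeff 0 • u ^ j + u ^ (j + 1) * aeval u p.divX := by
        nth_rewrite 1 [← divX_mul_X_add p]
        rw [map_add, map_mul, aeval_X, aeval_C, mul_add, add_comm, Algebra.smul_def,
          ← Algebra.commutes]
        have h3 : aeval u p.divX * u = u * aeval u p.divX := by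
          have h4 := congrArg (aeval u) (mul_comm p.divX X)
          rw [map_mul, map_mul, aeval_X] at h4
          exact h4
        rw [h3, ← mul_assoc, ← pow_succ]
      rw [h2]
      refine T.add_mem (T.smul_mem _ ?_) (ih' _)
      rw [h1]
      exact T.sub_mem (hT j hj1) (ih' _)
  have h1 := key (M - 1) 1 (by omega) le_rfl 1
  rwa [pow_one, map_one, mul_one] at h1

theorem mem_adjoin_lg {O E : Type} [CommRing O] [Ring E] [Algebra O E] (M : ℕ) (hU : UpTo O M)
    (u : E) (hu : u ^ M = 0) : u ∈ Algebra.adjoin O {lg O M u} := by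
  have h1 := lgv_desc M u hu (Subalgebra.toSubmodule (Algebra.adjoin O {lg O M u})) ?_
  · exact h1
  · intro j _
    rw [Subalgebra.mem_toSubmodule]
    exact pow_mem (Algebra.subset_adjoin (Set.mem_singleton _)) j

theorem lg_eq_zero {O E : Type} [CommRing O] [Ring E] [Algebra O E] (M : ℕ) (hU : UpTo O M)
    (u : E) (hu : u ^ M = 0) (h : lg O M u = 0) : u = 0 := by
  have h1 := lgv_desc M u hu (⊥ : Submodule O E) ?_
  · exact (Submodule.mem_bot O).mp h1
  · intro j hj
    rw [h, zero_pow (by omega)]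
    exact Submodule.zero_mem _

end Pool.Agent.LgP
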