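import Pool.Agent.LgP.Defs

/-!
# N1: nilpotent Lie algebras generated by nil elements

`nOne`: if `s : Fin t → A`, `s i ^ m = 0`, all left normed commutators of weight `c + 1` vanish
(`LN s c ⊆ {0}`), and `1, ..., m` are invertible in `O`, then the span of the `s i` is nilpotent
as an associative object, with a bound `M = M(c, t, m)`.

Proof. WLOG `A` is generated by the `s i` as an `O`-algebra (pass to
`Algebra.adjoin O (Set.range s)`).  Induction on `c`.
`c = 0`: `LN s 0` is the range of `s`, `M = 1`.
`c → c + 1`: `LN s (c+1) = 0`. Let `z ∈ LN s c`: `z` commutes with all `s i`, hence is central.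
(i) `z^m = 0`: for `c = 0` `z = s i`. For `c = c' + 1`, `z = a * s i - s i * a`
with `a ∈ LN s c'`; `D = (a * · - · * a)` is a derivation with `D (s i) = z`, and
`D^j (s i ^ m) = m (m-1) ⋯ (m-j+1) s_i^(m-j) z^j`, `0 = D^m (s i ^ m) = m! z^m`; `m!` is invertible.
(ii) the ideal `I` generated by `LN s c` satisfies `I^(r m + 1) = 0`, `r = t^(c+1)` the number of
generators; (iii) the induction hypothesis for `A / I` gives `(span s)^M ≤ I`.
-/

set_option autoImplicit false

namespace Pool.Agent.LgP

/-- a finite sum of commuting elements with `x ^ m = 0` in a semiring -/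
private theorem NOne_list {R : Type} [Semiring R] (m : ℕ) (l : List R)
    (hc : ∀ x ∈ l, ∀ y ∈ l, Commute x y) (hm : ∀ x ∈ l, x ^ m = 0) :
    l.sum ^ (l.length * m + 1) = 0 := by
  induction l with
  | nil => simp
  | cons x l ih =>
    have h1 : l.sum ^ (l.length * m + 1) = 0 :=
      ih (fun a ha b hb => hc a (List.mem_cons_of_mem _ ha) b (List.mem_cons_of_mem _ hb))
        (fun a ha => hm a (List.mem_cons_of_mem _ ha))
    have h2 : Commute x l.sum := by
      have : ∀ l' : List R, (∀ y ∈ l', Commute x y) → Commute x l'.sum := by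
        intro l'
        induction l' with
        | nil => intro _; simp
        | cons y l' ih' =>
          intro h
          rw [List.sum_cons]
          exact (h y List.mem_cons_self).add_right (ih' fun z hz => h z (List.mem_cons_of_mem _ hz))
      exact this l fun y hy => hc x List.mem_cons_self y (List.mem_cons_of_mem _ hy)
    rw [List.sum_cons, List.length_cons]
    refine h2.add_pow_eq_zero_of_add_le_succ_of_pow_eq_zero (hm x List.mem_cons_self) h1 ?_
    rw [Nat.succ_mul]
    omega

private theorem NOne_comm {O A : Type} [CommRing O] [Ring A] [Algebra O A] {z : A}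
    (hz : ∀ b, z * b = b * z) (N : Submodule O A) :
    Commute (Submodule.span O {z}) N := by
  have key : ∀ a ∈ Submodule.span O {z}, ∀ b : A, a * b = b * a := by
    intro a ha b
    obtain ⟨r, rfl⟩ := Submodule.mem_span_singleton.1 ha
    rw [smul_mul_assoc, hz, mul_smul_comm]
  refine le_antisymm ?_ ?_
  · refine Submodule.mul_le.2 fun a ha b hb => ?_
    rw [key a ha b]
    exact Submodule.mul_mem_mul hb ha
  · refine Submodule.mul_le.2 fun b hb a ha => ?_
    rw [← key a ha b]
    exact Submodule.mul_mem_mul ha hb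

/-- the ideal generated by a central element -/
private noncomputable def NOne_x (O : Type) {A : Type} [CommRing O] [Ring A] [Algebra O A] (z : A) :
    Submodule O A := Submodule.span O {z} * ⊤

private theorem NOne_xcomm {O A : Type} [CommRing O] [Ring A] [Algebra O A] {z z' : A}
    (hz : ∀ b, z * b = b * z) (hz' : ∀ b, z' * b = b * z') :
    Commute (NOne_x O z) (NOne_x O z') := by
  unfold NOne_x
  exact ((NOne_comm hz _).mul_left (((NOne_comm hz' _).symm).mul_right (Commute.refl _)))

private theorem NOne_xpow {O A : Type} [CommRing O] [Ring A] [Algebra O A] {z : A}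
    (hz : ∀ b, z * b = b * z) {m : ℕ} (hm : z ^ m = 0) : NOne_x O z ^ m = 0 := by
  unfold NOne_x
  rw [(NOne_comm hz _).mul_pow, Submodule.span_pow, Set.singleton_pow, hm]
  simp

/-- the ideal generated by finitely many central elements -/
private theorem NOne_ideal {O A : Type} [CommRing O] [Ring A] [Algebra O A] (l : List A)
    (hz : ∀ z ∈ l, ∀ b, z * b = b * z) (a y : A) (hy : y ∈ (l.map (NOne_x O)).sum) :
    a * y ∈ (l.map (NOne_x O)).sum := by
  induction l generalizing y with
  | nil =>
    simp only [List.map_nil, List.sum_nil, Submodule.zero_eq_bot, Submodule.mem_bot] at hy ⊢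
    rw [hy, mul_zero]
  | cons z l ih =>
    rw [List.map_cons, List.sum_cons, Submodule.add_eq_sup, Submodule.mem_sup] at hy ⊢
    obtain ⟨u, hu, v, hv, rfl⟩ := hy
    refine ⟨a * u, ?_, a * v, ih (fun w hw => hz w (List.mem_cons_of_mem _ hw)) v hv,
      (mul_add _ _ _).symm⟩
    have h1 : (⊤ : Submodule O A) * NOne_x O z ≤ NOne_x O z := by
      unfold NOne_x
      rw [← mul_assoc, ← (NOne_comm (O := O) (hz z List.mem_cons_self) ⊤).eq, mul_assoc]
      exact mul_le_mul' le_rfl le_top
    exact h1 (Submodule.mul_mem_mul Submodule.mem_top hu)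

private theorem NOne_mem {O A : Type} [CommRing O] [Ring A] [Algebra O A] (l : List A)
    {z : A} (hz : z ∈ l) : z ∈ (l.map (NOne_x O)).sum := by
  induction l with
  | nil => simp at hz
  | cons w l ih =>
    rw [List.map_cons, List.sum_cons, Submodule.add_eq_sup]
    rcases List.mem_cons.1 hz with rfl | h
    · refine Submodule.mem_sup_left ?_
      have h1 : z * 1 ∈ NOne_x O z :=
        Submodule.mul_mem_mul (Submodule.mem_span_singleton_self z) Submodule.mem_top
      rwa [mul_one] at h1
    · exact Submodule.mem_sup_right (ih h)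

/-- the left normed commutators as a list -/
private theorem NOne_LN_list {A : Type} [Ring A] {t : ℕ} (s : Fin t → A) (k : ℕ) :
    ∃ l : List A, l.length = t ^ (k + 1) ∧ ∀ z, z ∈ l ↔ z ∈ LN s k := by
  induction k with
  | zero =>
    refine ⟨List.ofFn s, by simp, fun z => ?_⟩
    rw [List.mem_ofFn]
    rfl
  | succ k ih =>
    obtain ⟨l, hl, hm⟩ := ih
    refine ⟨l.flatMap fun a => List.ofFn fun i => a * s i - s i * a, ?_, fun z => ?_⟩
    · rw [List.length_flatMap]
      simp only [List.length_ofFn, List.map_const', List.sum_replicate, smul_eq_mul, hl]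
      ring
    · rw [List.mem_flatMap]
      constructor
      · rintro ⟨a, ha, h⟩
        obtain ⟨i, rfl⟩ := List.mem_ofFn.1 h
        exact ⟨a, (hm a).1 ha, i, rfl⟩
      · rintro ⟨a, ha, i, rfl⟩
        exact ⟨a, (hm a).2 ha, List.mem_ofFn.2 ⟨i, rfl⟩⟩

private theorem NOne_LN_map {A B ι : Type} [Ring A] [Ring B] (φ : A →+* B) (s : ι → A) (k : ℕ) :
    LN (fun i => φ (s i)) k = φ '' LN s k := by
  induction k with
  | zero =>
    show Set.range _ = φ '' Set.range s
    rw [← Set.range_comp]
    rfl
  | succ k ih =>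
    ext z
    constructor
    · rintro ⟨a, ha, i, rfl⟩
      rw [ih] at ha
      obtain ⟨b, hb, rfl⟩ := ha
      exact ⟨b * s i - s i * b, ⟨b, hb, i, rfl⟩, by simp⟩
    · rintro ⟨_, ⟨b, hb, i, rfl⟩, rfl⟩
      refine ⟨φ b, ?_, i, by simp⟩
      rw [ih]
      exact ⟨b, hb, rfl⟩

private theorem NOne_pow_comm {A : Type} [Ring A] {a x z : A} (h : a * x - x * a = z)
    (hz : ∀ b, z * b = b * z) (k : ℕ) :
    a * x ^ k - x ^ k * a = k • (x ^ (k - 1) * z) := by
  induction k with
  | zero => simp
  | succ k ih =>
    have h1 : a * x ^ (k + 1) - x ^ (k + 1) * a =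
        (a * x ^ k - x ^ k * a) * x + x ^ k * (a * x - x * a) := by
      rw [pow_succ]
      noncomm_ring
    rw [h1, ih, h]
    rcases Nat.eq_zero_or_pos k with rfl | hk
    · simp
    · obtain ⟨j, rfl⟩ : ∃ j, k = j + 1 := ⟨k - 1, by omega⟩
      simp only [Nat.add_sub_cancel]
      rw [smul_mul_assoc, mul_assoc, hz x, ← mul_assoc, ← pow_succ, succ_nsmul (n := j + 1)]

private theorem NOne_zpow {O A : Type} [CommRing O] [Ring A] [Algebra O A] {m : ℕ}
    (hO : UpTo O m) {a x z : A} (hx : x ^ m = 0) (h : a * x - x * a = z)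
    (hz : ∀ b, z * b = b * z) : z ^ m = 0 := by
  have hzp : ∀ j b, z ^ j * b = b * z ^ j := fun j b =>
    (Commute.pow_left (show Commute z b from hz b) j).eq
  have key : ∀ j ≤ m, (m.descFactorial j) • (x ^ (m - j) * z ^ j) = 0 := by
    intro j
    induction j with
    | zero => intro _; simp [hx]
    | succ j ih =>
      intro hj
      have h1 := ih (by omega)
      have h2 : (m.descFactorial j) • (a * (x ^ (m - j) * z ^ j) - (x ^ (m - j) * z ^ j) * a) = 0 := by
        have h5 : a * ((m.descFactorial j) • (x ^ (m - j) * z ^ j)) -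
            ((m.descFactorial j) • (x ^ (m - j) * z ^ j)) * a = 0 := by
          rw [h1, mul_zero, zero_mul, sub_zero]
        rwa [mul_smul_comm, smul_mul_assoc, ← smul_sub] at h5
      have h3 : a * (x ^ (m - j) * z ^ j) - (x ^ (m - j) * z ^ j) * a =
          (m - j) • (x ^ (m - (j + 1)) * z ^ (j + 1)) := by
        have h4 : a * (x ^ (m - j) * z ^ j) - (x ^ (m - j) * z ^ j) * a =
            (a * x ^ (m - j) - x ^ (m - j) * a) * z ^ j := by
          rw [mul_assoc (x ^ (m - j)) (z ^ j) a, hzp j a, sub_mul, mul_assoc, mul_assoc]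
        rw [h4, NOne_pow_comm h hz, smul_mul_assoc, mul_assoc, ← pow_succ', Nat.sub_sub]
      rw [h3, smul_smul] at h2
      rw [Nat.descFactorial_succ, mul_comm]
      exact h2
  have h1 := key m le_rfl
  rw [Nat.sub_self, pow_zero, one_mul, Nat.descFactorial_self] at h1
  have hu : IsUnit ((m.factorial : ℕ) : O) := by
    have : ∀ k ≤ m, IsUnit ((k.factorial : ℕ) : O) := by
      intro k
      induction k with
      | zero => intro _; simp
      | succ k ih =>
        intro hk
        rw [Nat.factorial_succ, Nat.cast_mul]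
        exact (hO (k + 1) (Nat.succ_pos k) hk).mul (ih (by omega))
    exact this m le_rfl
  rw [← Nat.cast_smul_eq_nsmul O] at h1
  obtain ⟨u, hu⟩ := hu
  rw [← hu] at h1
  have h2 : (u : O) • z ^ m = 0 := h1
  calc z ^ m = ((u⁻¹ : Oˣ) : O) • ((u : O) • z ^ m) := by rw [smul_smul]; simp
    _ = 0 := by rw [h2, smul_zero]

private theorem NOne_core (t m c : ℕ) : ∃ M : ℕ, 0 < M ∧ ∀ (O A : Type) [CommRing O] [Ring A]
    [Algebra O A], UpTo O m → ∀ s : Fin t → A, Algebra.adjoin O (Set.range s) = ⊤ →
    (∀ i, s i ^ m = 0) → (∀ z ∈ LN s c, z = 0) →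
    (Submodule.span O (Set.range s)) ^ M = ⊥ := by
  induction c with
  | zero =>
    refine ⟨1, one_pos, ?_⟩
    intro O A _ _ _ _ s _ _ h
    rw [pow_one, Submodule.span_eq_bot]
    rintro x ⟨i, rfl⟩
    exact h _ ⟨i, rfl⟩
  | succ c ih =>
    obtain ⟨M, hM, ih⟩ := ih
    refine ⟨M * (t ^ (c + 1) * m + 1), Nat.mul_pos hM (Nat.succ_pos _), ?_⟩
    intro O A _ _ _ hO s hs hm hLN
    -- the elements of `LN s c` are central
    have hcen : ∀ z ∈ LN s c, ∀ b, z * b = b * z := by
      intro z hz b
      have hb : b ∈ Algebra.adjoin O (Set.range s) := by rw [hs]; exact Algebra.mem_top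
      induction hb using Algebra.adjoin_induction with
      | mem x hx =>
        obtain ⟨i, rfl⟩ := hx
        exact sub_eq_zero.1 (hLN _ ⟨z, hz, i, rfl⟩)
      | algebraMap r => exact (Algebra.commutes r z).symm
      | add x y _ _ hx hy => rw [mul_add, add_mul, hx, hy]
      | mul x y _ _ hx hy => rw [← mul_assoc, hx, mul_assoc, hy, mul_assoc]
    have hnil : ∀ z ∈ LN s c, z ^ m = 0 := by
      intro z hz
      cases c with
      | zero =>
        obtain ⟨i, rfl⟩ := hz
        exact hm i
      | succ c' =>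
        have hz' := hz
        obtain ⟨a, _, i, hzi⟩ := hz
        exact NOne_zpow hO (hm i) hzi.symm (hcen z hz')
    obtain ⟨l, hl, hmem⟩ := NOne_LN_list s c
    set T : Submodule O A := (l.map (NOne_x O)).sum with hT
    have hTnil : T ^ (t ^ (c + 1) * m + 1) = ⊥ := by
      have := NOne_list m (l.map (NOne_x O)) ?_ ?_
      · rw [List.length_map, hl] at this
        exact this
      · intro x hx y hy
        obtain ⟨z, hz, rfl⟩ := List.mem_map.1 hx
        obtain ⟨z', hz', rfl⟩ := List.mem_map.1 hy
        exact NOne_xcomm (hcen z ((hmem z).1 hz)) (hcen z' ((hmem z').1 hz'))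
      · intro x hx
        obtain ⟨z, hz, rfl⟩ := List.mem_map.1 hx
        exact NOne_xpow (hcen z ((hmem z).1 hz)) (hnil z ((hmem z).1 hz))
    -- the quotient
    let I : Ideal A := Ideal.span (LN s c)
    have hI2 : I.IsTwoSided := by
      refine ⟨fun {a} b ha => ?_⟩
      refine Submodule.span_induction (p := fun x _ => x * b ∈ I) ?_ ?_ ?_ ?_ ha
      · intro z hz
        rw [hcen z hz b]
        exact I.mul_mem_left b (Ideal.subset_span hz)
      · rw [zero_mul]; exact I.zero_mem
      · intro x y _ _ hx hy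
        rw [add_mul]; exact I.add_mem hx hy
      · intro r x _ hx
        rw [smul_eq_mul, mul_assoc]; exact I.mul_mem_left r hx
    have hIT : ∀ y ∈ I, y ∈ T := by
      intro y hy
      refine Submodule.span_induction (p := fun x _ => x ∈ T) ?_ ?_ ?_ ?_ hy
      · intro z hz
        exact NOne_mem l ((hmem z).2 hz)
      · exact T.zero_mem
      · intro x y _ _ hx hy
        exact T.add_mem hx hy
      · intro r x _ hx
        exact NOne_ideal l (fun z hz => hcen z ((hmem z).1 hz)) r x hx
    let φ : A →ₐ[O] A ⧸ I := Ideal.Quotient.mkₐ O I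
    have hφs : Function.Surjective φ := Ideal.Quotient.mkₐ_surjective O I
    have hq := ih O (A ⧸ I) hO (fun i => φ (s i)) ?_ ?_ ?_
    · have h1 : (Submodule.span O (Set.range s)) ^ M ≤ T := by
        intro y hy
        have h2 : φ y ∈ ((Submodule.span O (Set.range s)) ^ M).map φ.toLinearMap :=
          ⟨y, hy, rfl⟩
        rw [Submodule.map_pow, Submodule.map_span] at h2
        have h3 : (φ.toLinearMap '' Set.range s) = Set.range fun i => φ (s i) := by
          rw [← Set.range_comp]; rfl
        rw [h3, hq, Submodule.mem_bot] at h2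
        exact hIT y (Ideal.Quotient.eq_zero_iff_mem.1 h2)
      rw [pow_mul]
      exact le_bot_iff.1 ((pow_le_pow_left' h1 _).trans hTnil.le)
    · have h1 : (Set.range fun i => φ (s i)) = φ '' Set.range s := by
        rw [← Set.range_comp]; rfl
      rw [h1, ← AlgHom.map_adjoin, hs, Algebra.map_top, AlgHom.range_eq_top]
      exact hφs
    · intro i
      show φ (s i) ^ m = 0
      rw [← map_pow, hm i, map_zero]
    · intro z hz
      have h1 := NOne_LN_map (φ : A →+* A ⧸ I) s c
      have hz' : z ∈ LN (fun i => (φ : A →+* A ⧸ I) (s i)) c := hz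
      rw [h1] at hz'
      obtain ⟨w, hw, rfl⟩ := hz'
      exact Ideal.Quotient.eq_zero_iff_mem.2 (Ideal.subset_span hw)

theorem nOne (t m c : ℕ) : ∃ M : ℕ, 0 < M ∧ ∀ (O A : Type) [CommRing O] [Ring A] [Algebra O A],
    UpTo O m → ∀ s : Fin t → A, (∀ i, s i ^ m = 0) → (∀ z ∈ LN s c, z = 0) →
    (Submodule.span O (Set.range s)) ^ M = ⊥ := by
  obtain ⟨M, hM, h⟩ := NOne_core t m c
  refine ⟨M, hM, ?_⟩
  intro O A _ _ _ hO s hm hLN
  let B : Subalgebra O A := Algebra.adjoin O (Set.range s)
  let s' : Fin t → B := fun i => ⟨s i, Algebra.subset_adjoin ⟨i, rfl⟩⟩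
  have hs' : (fun i => (B.val : B →+* A) (s' i)) = s := rfl
  have h1 := h O B hO s' ?_ ?_ ?_
  · have h2 : ((Submodule.span O (Set.range s')) ^ M).map B.val.toLinearMap =
        (Submodule.span O (Set.range s)) ^ M := by
      rw [Submodule.map_pow, Submodule.map_span]
      congr 2
      rw [← Set.range_comp]
      rfl
    rw [← h2, h1, Submodule.map_bot]
  · have h2 : Set.range s' = ((↑) : Algebra.adjoin O (Set.range s) → A) ⁻¹' (Set.range s) := by
      ext x
      constructor
      · rintro ⟨i, rfl⟩
        exact ⟨i, rfl⟩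
      · rintro ⟨i, hi⟩
        exact ⟨i, Subtype.ext hi⟩
    show Algebra.adjoin O (Set.range s') = ⊤
    rw [h2]
    exact Algebra.adjoin_adjoin_coe_preimage
  · intro i
    exact Subtype.ext (hm i)
  · intro z hz
    have h2 := NOne_LN_map (B.val : B →+* A) s' c
    rw [hs'] at h2
    have h3 : (B.val : B →+* A) z ∈ LN s c := by
      rw [h2]; exact ⟨z, hz, rfl⟩
    exact Subtype.ext (hLN _ h3)

end Pool.Agent.LgP
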