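import Pool.Agent.LgP.Defs
import Pool.Agent.LgP.NOne

/-!
# N2: soluble Lie algebras generated by finitely many nil elements are nilpotent

Paper proof. Put `m' = 2 * m`; `s i ^ m = 0` gives `(ad (s i))^m' = 0` on `A`
(`ad s = L_s - R_s`, the two multiplications commute, binomial formula).
Relative form, by induction on `d`: for every `d` there is `c` such that: if `S` is Lie closed,
`s i ∈ S`, `J ≤ S` is an ideal of `S` (`[J, S] ≤ J`) and `derL d S ≤ J`, then `LN s c ⊆ J`.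
`d = 0`: `S ≤ J`, `c = 0`.
`d → d + 1`: `derL (d+1) S ≤ J`. `J' = J ⊔ derL d S` is an ideal of `S` and contains `derL d S`, so
`LN s c ⊆ J'` by induction. The quotient module `W = J' / J` is acted on by the operators
`ad (s i) : w ↦ s i * w - w * s i`, `E' = Module.End O W`; they satisfy `(..)^m' = 0`, and a left
normed commutator of weight `c + 1` of these operators is the operator `ad z` with `z ∈ LN s c ⊆ J'`
(`[ad a, ad b] = ad [a, b]`), which is zero on `W` because `[J', J'] ≤ J`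
(`[derL d S, derL d S] ≤ derL (d+1) S ≤ J`). So `nOne t m' c` gives `M` such that products of `M` of
the operators vanish on `W`. An element of `LN s (c + M)` is `±` such a product applied to an
element of `LN s c ⊆ J'`, hence lies in `J`. So `c' = c + M`. Finally take `J = ⊥`.
-/

set_option autoImplicit false

namespace Pool.Agent.LgP

section Aux

variable {O A : Type} [CommRing O] [Ring A] [Algebra O A]

private theorem NTwo_der_le {S : Submodule O A} (hS : IsLie S) (k : ℕ) : derL k S ≤ S := by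
  induction k with
  | zero => exact le_rfl
  | succ k ih =>
    unfold derL
    rw [Submodule.span_le]
    rintro x ⟨a, ha, b, hb, rfl⟩
    exact hS a (ih ha) b (ih hb)

private theorem NTwo_der_ideal {S : Submodule O A} (hS : IsLie S) (k : ℕ) :
    ∀ a ∈ S, ∀ w ∈ derL k S, a * w - w * a ∈ derL k S := by
  induction k with
  | zero => exact hS
  | succ k ih =>
    intro a ha w hw
    unfold derL at hw ⊢
    induction hw using Submodule.span_induction with
    | mem w hw =>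
      obtain ⟨x, hx, y, hy, rfl⟩ := hw
      have e : a * (x * y - y * x) - (x * y - y * x) * a =
          ((a * x - x * a) * y - y * (a * x - x * a)) +
            (x * (a * y - y * a) - (a * y - y * a) * x) := by noncomm_ring
      rw [e]
      exact Submodule.add_mem _ (Submodule.subset_span ⟨_, ih a ha x hx, y, hy, rfl⟩)
        (Submodule.subset_span ⟨x, hx, _, ih a ha y hy, rfl⟩)
    | zero => simp
    | add x y _ _ hx hy =>
      have e : a * (x + y) - (x + y) * a = (a * x - x * a) + (a * y - y * a) := by noncomm_ring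
      rw [e]
      exact Submodule.add_mem _ hx hy
    | smul r x _ hx =>
      have e : a * (r • x) - (r • x) * a = r • (a * x - x * a) := by
        rw [mul_smul_comm, smul_mul_assoc, smul_sub]
      rw [e]
      exact Submodule.smul_mem _ _ hx

/-- the operator `w ↦ a * w - w * a` -/
private def NTwo_ad (a : A) : A →ₗ[O] A := LinearMap.mulLeft O a - LinearMap.mulRight O a

private theorem NTwo_ad_apply (a w : A) : NTwo_ad (O := O) a w = a * w - w * a := rfl

private theorem NTwo_ad_pow {a : A} {m : ℕ} (h : a ^ m = 0) :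
    (NTwo_ad (O := O) a) ^ (2 * m) = 0 := by
  unfold NTwo_ad
  rw [sub_eq_add_neg]
  have e : -LinearMap.mulRight O a = LinearMap.mulRight O (-a) := by
    ext w
    simp
  rw [e]
  have hc : Commute (LinearMap.mulLeft O a) (LinearMap.mulRight O (-a)) :=
    LinearMap.commute_mulLeft_right a (-a)
  refine hc.add_pow_eq_zero_of_add_le_succ_of_pow_eq_zero (m := m) (n := m) ?_ ?_ (by omega)
  · rw [LinearMap.pow_mulLeft, h]
    ext w
    simp
  · rw [LinearMap.pow_mulRight, neg_pow, h]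
    ext w
    simp

/-- the operators on the quotient -/
private def NTwo_W {S J J' : Submodule O A} (h1 : ∀ a ∈ S, ∀ w ∈ J', a * w - w * a ∈ J')
    (h2 : ∀ a ∈ S, ∀ w ∈ J, a * w - w * a ∈ J) (a : S) :
    Module.End O (J' ⧸ J.submoduleOf J') :=
  Submodule.mapQ (J.submoduleOf J') (J.submoduleOf J')
    ((NTwo_ad (O := O) (a : A)).restrict (fun w hw => h1 a a.2 w hw))
    (fun w hw => h2 a a.2 w hw)

private theorem NTwo_W_mk {S J J' : Submodule O A} (h1 : ∀ a ∈ S, ∀ w ∈ J', a * w - w * a ∈ J')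
    (h2 : ∀ a ∈ S, ∀ w ∈ J, a * w - w * a ∈ J) (a : S) (w : J') :
    NTwo_W h1 h2 a (Submodule.Quotient.mk w) =
      Submodule.Quotient.mk ⟨(a : A) * w - w * a, h1 a a.2 w w.2⟩ := rfl

private theorem NTwo_W_pow {S J J' : Submodule O A} (h1 : ∀ a ∈ S, ∀ w ∈ J', a * w - w * a ∈ J')
    (h2 : ∀ a ∈ S, ∀ w ∈ J, a * w - w * a ∈ J) (a : S) (k : ℕ) (w : J') :
    ∃ h : ((NTwo_ad (O := O) (a : A)) ^ k) (w : A) ∈ J',
      (NTwo_W h1 h2 a ^ k) (Submodule.Quotient.mk w) =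
      Submodule.Quotient.mk ⟨((NTwo_ad (O := O) (a : A)) ^ k) (w : A), h⟩ := by
  induction k with
  | zero => exact ⟨w.2, rfl⟩
  | succ k ih =>
    obtain ⟨h, ih⟩ := ih
    have e : ((NTwo_ad (O := O) (a : A)) ^ (k + 1)) (w : A) =
        (a : A) * ((NTwo_ad (O := O) (a : A)) ^ k) (w : A) -
          ((NTwo_ad (O := O) (a : A)) ^ k) (w : A) * a := by
      rw [pow_succ']
      rfl
    refine ⟨by rw [e]; exact h1 a a.2 _ h, ?_⟩
    rw [pow_succ', Module.End.mul_apply, ih, NTwo_W_mk]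
    congr 1
    exact Subtype.ext e.symm

private theorem NTwo_W_nil {S J J' : Submodule O A} (h1 : ∀ a ∈ S, ∀ w ∈ J', a * w - w * a ∈ J')
    (h2 : ∀ a ∈ S, ∀ w ∈ J, a * w - w * a ∈ J) (a : S) {m : ℕ} (h : (a : A) ^ m = 0) :
    NTwo_W h1 h2 a ^ (2 * m) = 0 := by
  ext x
  obtain ⟨hw, e⟩ := NTwo_W_pow h1 h2 a (2 * m) x
  show (NTwo_W h1 h2 a ^ (2 * m)) (Submodule.Quotient.mk x) = 0
  rw [e, Submodule.Quotient.mk_eq_zero]
  show ((NTwo_ad (O := O) (a : A)) ^ (2 * m)) (x : A) ∈ J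
  rw [NTwo_ad_pow h]
  exact J.zero_mem

private theorem NTwo_W_comm {S J J' : Submodule O A} (hS : IsLie S)
    (h1 : ∀ a ∈ S, ∀ w ∈ J', a * w - w * a ∈ J')
    (h2 : ∀ a ∈ S, ∀ w ∈ J, a * w - w * a ∈ J) (a b : S) :
    NTwo_W h1 h2 a * NTwo_W h1 h2 b - NTwo_W h1 h2 b * NTwo_W h1 h2 a =
      NTwo_W h1 h2 ⟨(a : A) * b - b * a, hS a a.2 b b.2⟩ := by
  ext x
  show NTwo_W h1 h2 a (NTwo_W h1 h2 b (Submodule.Quotient.mk x)) -
    NTwo_W h1 h2 b (NTwo_W h1 h2 a (Submodule.Quotient.mk x)) =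
    NTwo_W h1 h2 ⟨(a : A) * b - b * a, hS a a.2 b b.2⟩ (Submodule.Quotient.mk x)
  rw [NTwo_W_mk, NTwo_W_mk, NTwo_W_mk, NTwo_W_mk, NTwo_W_mk, ← Submodule.Quotient.mk_sub]
  congr 1
  apply Subtype.ext
  show (a : A) * ((b : A) * x - x * b) - ((b : A) * x - x * b) * a -
    ((b : A) * ((a : A) * x - x * a) - ((a : A) * x - x * a) * b) =
    ((a : A) * b - b * a) * x - x * ((a : A) * b - b * a)
  noncomm_ring

private theorem NTwo_LN {S J J' : Submodule O A} (hS : IsLie S)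
    (h1 : ∀ a ∈ S, ∀ w ∈ J', a * w - w * a ∈ J')
    (h2 : ∀ a ∈ S, ∀ w ∈ J, a * w - w * a ∈ J) {ι : Type} (s : ι → A) (hs : ∀ i, s i ∈ S)
    (k : ℕ) : ∀ X ∈ LN (fun i => NTwo_W h1 h2 ⟨s i, hs i⟩) k,
      ∃ z : S, (z : A) ∈ LN s k ∧ X = NTwo_W h1 h2 z := by
  induction k with
  | zero =>
    rintro X ⟨i, rfl⟩
    exact ⟨⟨s i, hs i⟩, ⟨i, rfl⟩, rfl⟩
  | succ k ih =>
    rintro X ⟨Y, hY, i, rfl⟩
    obtain ⟨z, hz, rfl⟩ := ih Y hY
    exact ⟨⟨(z : A) * s i - s i * z, hS z z.2 (s i) (hs i)⟩, ⟨z, hz, i, rfl⟩,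
      NTwo_W_comm hS h1 h2 z ⟨s i, hs i⟩⟩

private theorem NTwo_chain {S J J' : Submodule O A}
    (h1 : ∀ a ∈ S, ∀ w ∈ J', a * w - w * a ∈ J')
    (h2 : ∀ a ∈ S, ∀ w ∈ J, a * w - w * a ∈ J) {ι : Type} (s : ι → A) (hs : ∀ i, s i ∈ S)
    (c : ℕ) (hc : ∀ z ∈ LN s c, z ∈ J') (j : ℕ) : ∀ y ∈ LN s (c + j), ∃ hy : y ∈ J',
      ∃ X ∈ (Submodule.span O (Set.range fun i => NTwo_W h1 h2 ⟨s i, hs i⟩)) ^ j,
      ∃ z : J', (Submodule.Quotient.mk ⟨y, hy⟩ : J' ⧸ J.submoduleOf J') =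
        X (Submodule.Quotient.mk z) := by
  induction j with
  | zero =>
    intro y hy
    refine ⟨hc y hy, 1, ?_, ⟨y, hc y hy⟩, rfl⟩
    rw [pow_zero]
    exact Submodule.mem_one.2 ⟨1, map_one _⟩
  | succ j ih =>
    rintro y ⟨a, ha, i, rfl⟩
    obtain ⟨haJ, X, hX, z, hz⟩ := ih a ha
    have hy : a * s i - s i * a ∈ J' := by
      have := J'.neg_mem (h1 (s i) (hs i) a haJ)
      rwa [neg_sub] at this
    refine ⟨hy, (-NTwo_W h1 h2 ⟨s i, hs i⟩) * X, ?_, z, ?_⟩
    · rw [pow_succ']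
      exact Submodule.mul_mem_mul
        (Submodule.neg_mem _ (Submodule.subset_span ⟨i, rfl⟩)) hX
    · rw [Module.End.mul_apply, ← hz, LinearMap.neg_apply, NTwo_W_mk, ← Submodule.Quotient.mk_neg]
      congr 1
      apply Subtype.ext
      show a * s i - s i * a = -(s i * a - a * s i)
      rw [neg_sub]

end Aux

private theorem NTwo_rel (t m d : ℕ) : ∃ c : ℕ, ∀ (O A : Type) [CommRing O] [Ring A]
    [Algebra O A], UpTo O (2 * m) → ∀ s : Fin t → A, (∀ i, s i ^ m = 0) →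
    ∀ S : Submodule O A, IsLie S → (∀ i, s i ∈ S) → ∀ J : Submodule O A, J ≤ S →
    (∀ a ∈ S, ∀ w ∈ J, a * w - w * a ∈ J) → derL d S ≤ J → ∀ z ∈ LN s c, z ∈ J := by
  induction d with
  | zero =>
    refine ⟨0, ?_⟩
    intro O A _ _ _ _ s _ S _ hs J _ _ hd z hz
    obtain ⟨i, rfl⟩ := hz
    exact hd (hs i)
  | succ d ih =>
    obtain ⟨c, ih⟩ := ih
    obtain ⟨M, -, hM⟩ := nOne t (2 * m) c
    refine ⟨c + M, ?_⟩
    intro O A _ _ _ hU s hnil S hS hs J hJS hJ hd z hz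
    have hDS : derL d S ≤ S := NTwo_der_le hS d
    have hDi := NTwo_der_ideal hS d
    have hJ'S : J ⊔ derL d S ≤ S := sup_le hJS hDS
    have h1 : ∀ a ∈ S, ∀ w ∈ J ⊔ derL d S, a * w - w * a ∈ J ⊔ derL d S := by
      intro a ha w hw
      obtain ⟨x, hx, y, hy, rfl⟩ := Submodule.mem_sup.1 hw
      have e : a * (x + y) - (x + y) * a = (a * x - x * a) + (a * y - y * a) := by noncomm_ring
      rw [e]
      exact Submodule.add_mem_sup (hJ a ha x hx) (hDi a ha y hy)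
    have hJJ : ∀ a ∈ J ⊔ derL d S, ∀ w ∈ J ⊔ derL d S, a * w - w * a ∈ J := by
      intro a ha w hw
      have haS := hJ'S ha
      have hwS := hJ'S hw
      obtain ⟨x, hx, y, hy, rfl⟩ := Submodule.mem_sup.1 ha
      obtain ⟨x', hx', y', hy', rfl⟩ := Submodule.mem_sup.1 hw
      have e : (x + y) * (x' + y') - (x' + y') * (x + y) =
          -((x' + y') * x - x * (x' + y')) + (y * x' - x' * y) + (y * y' - y' * y) := by
        noncomm_ring
      rw [e]
      refine J.add_mem (J.add_mem (J.neg_mem (hJ _ hwS x hx)) (hJ y (hDS hy) x' hx')) ?_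
      exact hd (Submodule.subset_span ⟨y, hy, y', hy', rfl⟩)
    have hc : ∀ z ∈ LN s c, z ∈ J ⊔ derL d S :=
      ih O A hU s hnil S hS hs (J ⊔ derL d S) hJ'S h1 le_sup_right
    have hvan : ∀ X ∈ LN (fun i => NTwo_W h1 hJ ⟨s i, hs i⟩) c, X = 0 := by
      intro X hX
      obtain ⟨y, hy, rfl⟩ := NTwo_LN hS h1 hJ s hs c X hX
      ext x
      show NTwo_W h1 hJ y (Submodule.Quotient.mk x) = 0
      rw [NTwo_W_mk, Submodule.Quotient.mk_eq_zero]
      exact hJJ y (hc y hy) x x.2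
    have hbot := hM O (Module.End O (↥(J ⊔ derL d S) ⧸ J.submoduleOf (J ⊔ derL d S))) hU
      (fun i => NTwo_W h1 hJ ⟨s i, hs i⟩) (fun i => NTwo_W_nil h1 hJ ⟨s i, hs i⟩ (hnil i)) hvan
    obtain ⟨hz', X, hX, y, hy⟩ := NTwo_chain h1 hJ s hs c hc M z hz
    rw [hbot, Submodule.mem_bot] at hX
    rw [hX, LinearMap.zero_apply, Submodule.Quotient.mk_eq_zero] at hy
    exact hy

theorem nTwo (t m d : ℕ) : ∃ c : ℕ, ∀ (O A : Type) [CommRing O] [Ring A] [Algebra O A],
    UpTo O (2 * m) → ∀ s : Fin t → A, (∀ i, s i ^ m = 0) → ∀ S : Submodule O A, IsLie S →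
    (∀ i, s i ∈ S) → derL d S = ⊥ → ∀ z ∈ LN s c, z = 0 := by
  obtain ⟨c, h⟩ := NTwo_rel t m d
  refine ⟨c, ?_⟩
  intro O A _ _ _ hU s hnil S hS hs hd z hz
  have h1 := h O A hU s hnil S hS hs ⊥ bot_le (by
    intro a _ w hw
    rw [Submodule.mem_bot] at hw
    rw [hw, mul_zero, zero_mul, sub_zero]
    exact Submodule.zero_mem _) (by rw [hd]) z hz
  rwa [Submodule.mem_bot] at h1

end Pool.Agent.LgP
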