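import Pool.Agent.LgP.Krek
import Pool.Agent.LgP.NTwo

set_option autoImplicit false

namespace Pool.Agent.LgP

/-- finitely many nil elements inside a Lie closed submodule with trace zero generate a nilpotent
associative algebra, with a uniform bound. -/
theorem nilCore (n t m : ℕ) : ∃ M : ℕ, 0 < M ∧
    ∀ (O A : Type) [CommRing O] [Ring A] [Algebra O A] (ζ : O), Prim O n ζ → UpTo O (2 * m) →
    ∀ σ : A →ₐ[O] A, (∀ a, (⇑σ)^[n] a = a) → ∀ S : Submodule O A, IsLie S →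
    (∀ a ∈ S, σ a ∈ S) → (∀ a ∈ S, ∑ j ∈ Finset.range n, (⇑σ)^[j] a = 0) →
    ∀ s : Fin t → A, (∀ i, s i ∈ S) → (∀ i, s i ^ m = 0) →
    (Submodule.span O (Set.range s)) ^ M = ⊥ := by
  obtain ⟨c, hc⟩ := nTwo t m (2 ^ (n - 1) - 1)
  obtain ⟨M, hM, h⟩ := nOne t m c
  refine ⟨M, hM, ?_⟩
  intro O A _ _ _ ζ hP hU σ hσ S hS hσS hTr s hs hsm
  refine h O A (fun k h1 h2 => hU k h1 (by omega)) s hsm ?_
  exact hc O A hU s hsm S hS hs (kreknin n ζ hP σ hσ S hS hσS hTr)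

end Pool.Agent.LgP
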