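import Pool.Agent.LgP.Defs

/-!
# Number theory: cosets, values of cyclotomic polynomials, support argument

`coset`: additive order of `c` modulo `n` is `n / gcd n c`. If `b` has order `k > 1` then every coset
`c + ⟨b⟩` contains `0` or an element of order `> k`. Proof: `g = gcd n b`, `n = g k`. If `g ∣ c`
then `c + j b ≡ 0` is solvable. If not, let `h = gcd g c < g`; there is `j` with
`gcd n (c + j b) = h`: take `j` = the product of the primes `q ∣ n` such that `q` does not divide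
`c / h` (then for a prime `q ∣ n / h`.. : `c/h` and `b/h` are coprime to each other modulo every
prime dividing `n/h`; if `q ∤ c/h` then `q ∣ j` and `q ∤ (c + j b)/h`; if `q ∣ c/h` then
`q ∤ b/h` (as `h = gcd (gcd n b) c` and `q ∣ n/h`), `q ∤ j`, so `q ∤ (c + j b)/h`). Hence the order is
`n / h > n / g = k`. `j < n` by reduction modulo `n`.

`unit_of_mul`: if `f * g = X^n - 1` in `ℤ[X]` and `g(ζ^c) = 0` then `f(ζ^c)` is a unit: differentiate:
`f' g + f g' = n X^(n-1)`, so `f(ζ^c) g'(ζ^c) = n ζ^(c(n-1))`.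

`fk_unit`, `cyc_unit`: apply it with `f = fk n k` resp. `cyclotomic k ℤ`, `g` = the product of the
other cyclotomic polynomials (`Polynomial.prod_cyclotomic_eq_X_pow_sub_one`), which contains the
factor `cyclotomic (n / gcd n c)`, whose value at `ζ^c` is `0` by `hcyc`.

`eigen_sum`: if `Φ^n = 1`, every vector is a sum of eigenvectors `v c`, `Φ (v c) = ζ^c • v c`, `c < n`:
`v c = n⁻¹ ∑_j ζ^((n-c) j) Φ^j v`.

`homog_nil`: `u` homogeneous of degree `b` of order `k` maps an eigenvector of degree `c` to one of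
degree `c + b`; by `coset` and `hbad` it is killed after `< n` steps.
-/

set_option autoImplicit false

open Polynomial

namespace Pool.Agent.LgP

private theorem NT_cop (n c b : ℕ) (hn : 0 < n) (h : ∀ q : ℕ, q.Prime → q ∣ n → q ∣ c → ¬ q ∣ b) :
    ∃ j : ℕ, Nat.Coprime n (c + j * b) := by
  classical
  refine ⟨∏ q ∈ n.primeFactors.filter (fun q => ¬ q ∣ c), q, ?_⟩
  apply Nat.coprime_of_dvd
  intro q hq hqn hqs
  have hmem : q ∈ n.primeFactors := Nat.mem_primeFactors.2 ⟨hq, hqn, hn.ne'⟩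
  by_cases hc : q ∣ c
  · have hb := h q hq hqn hc
    have h1 : q ∣ (∏ q ∈ n.primeFactors.filter (fun q => ¬ q ∣ c), q) * b :=
      (Nat.dvd_add_right hc).1 hqs
    rcases (Nat.Prime.dvd_mul hq).1 h1 with h2 | h2
    · obtain ⟨r, hr, hqr⟩ := (Prime.dvd_finsetProd_iff hq.prime _).1 h2
      rw [Finset.mem_filter] at hr
      have hrp : r.Prime := (Nat.mem_primeFactors.1 hr.1).1
      have : q = r := (Nat.prime_dvd_prime_iff_eq hq hrp).1 hqr
      exact hr.2 (this ▸ hc)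
    · exact hb h2
  · have h1 : q ∣ (∏ q ∈ n.primeFactors.filter (fun q => ¬ q ∣ c), q) * b := by
      apply Dvd.dvd.mul_right
      exact Finset.dvd_prod_of_mem (fun q => q) (Finset.mem_filter.2 ⟨hmem, hc⟩)
    exact hc ((Nat.dvd_add_left h1).1 hqs)

private theorem NT_gcd_mod (n c b j : ℕ) :
    Nat.gcd n (c + (j % n) * b) = Nat.gcd n (c + j * b) := by
  have h : c + (j % n) * b ≡ c + j * b [MOD n] := by
    exact Nat.ModEq.add_left c ((Nat.mod_modEq j n).mul_right b)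
  rw [Nat.gcd_comm, Nat.gcd_comm n]
  exact h.gcd_eq

theorem coset (n k b c : ℕ) (hn : 0 < n) (hk : 1 < k) (hb : n / Nat.gcd n b = k) :
    ∃ j < n, n ∣ c + j * b ∨ k < n / Nat.gcd n (c + j * b) := by
  have hgpos : 0 < Nat.gcd n b := Nat.gcd_pos_of_pos_left b hn
  have hngk : n = Nat.gcd n b * k := by
    rw [← hb, Nat.mul_div_cancel' (Nat.gcd_dvd_left n b)]
  suffices H : ∃ j : ℕ, n ∣ c + j * b ∨ k < n / Nat.gcd n (c + j * b) by
    obtain ⟨j, hj⟩ := H
    refine ⟨j % n, Nat.mod_lt _ hn, ?_⟩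
    rw [NT_gcd_mod]
    rcases hj with hj | hj
    · left
      have h : c + (j % n) * b ≡ c + j * b [MOD n] :=
        Nat.ModEq.add_left c ((Nat.mod_modEq j n).mul_right b)
      exact (h.dvd_iff dvd_rfl).2 hj
    · exact Or.inr hj
  obtain ⟨g, hg⟩ : ∃ g, g = Nat.gcd n b := ⟨_, rfl⟩
  rw [← hg] at hgpos hngk
  by_cases hgc : g ∣ c
  · obtain ⟨c', rfl⟩ := hgc
    have hgb : g ∣ b := hg ▸ Nat.gcd_dvd_right n b
    obtain ⟨b', rfl⟩ := hgb
    have hcop : Nat.Coprime k b' := by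
      have h1 : Nat.gcd (g * k) (g * b') = g := by rw [← hngk]; exact hg.symm
      rw [Nat.gcd_mul_left] at h1
      exact Nat.eq_of_mul_eq_mul_left hgpos (by rw [h1, Nat.mul_one])
    obtain ⟨m, hm⟩ : ∃ m : ℕ, k ∣ c' + m * b' := by
      have hk0 : 0 < k := by omega
      have h1 : IsUnit ((b' : ℕ) : ZMod k) := (ZMod.isUnit_iff_coprime b' k).2 hcop.symm
      have : NeZero k := ⟨hk0.ne'⟩
      obtain ⟨u, hu⟩ := h1
      refine ⟨(-(c' : ZMod k) * (u⁻¹ : (ZMod k)ˣ)).val, ?_⟩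
      rw [← ZMod.natCast_eq_zero_iff]
      push_cast
      rw [ZMod.natCast_val, ZMod.cast_id', id, ← hu, mul_assoc, Units.inv_mul]
      ring
    refine ⟨m, Or.inl ?_⟩
    have h2 : g * c' + m * (g * b') = g * (c' + m * b') := by ring
    rw [h2, hngk]
    exact Nat.mul_dvd_mul_left g hm
  · obtain ⟨h, hh⟩ : ∃ h, h = Nat.gcd g c := ⟨_, rfl⟩
    have hhpos : 0 < h := hh ▸ Nat.gcd_pos_of_pos_left c hgpos
    have hhg : h ∣ g := hh ▸ Nat.gcd_dvd_left g c
    have hhc : h ∣ c := hh ▸ Nat.gcd_dvd_right g c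
    have hlt : h < g := by
      refine lt_of_le_of_ne (Nat.le_of_dvd hgpos hhg) fun he => hgc (he ▸ hhc)
    have hhn : h ∣ n := hhg.trans (hg ▸ Nat.gcd_dvd_left n b)
    have hhb : h ∣ b := hhg.trans (hg ▸ Nat.gcd_dvd_right n b)
    obtain ⟨c', hc'⟩ := hhc
    obtain ⟨n', hn'⟩ := hhn
    obtain ⟨b', hb'⟩ := hhb
    have hn'pos : 0 < n' := by
      rcases Nat.eq_zero_or_pos n' with h0 | h0
      · rw [h0, Nat.mul_zero] at hn'
        omega
      · exact h0
    obtain ⟨j, hj⟩ := NT_cop n' c' b' hn'pos (by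
      intro q hq hqn hqc hqb
      have h1 : h * q ∣ h := by
        have e1 : h * q ∣ n := by rw [hn']; exact Nat.mul_dvd_mul_left h hqn
        have e2 : h * q ∣ b := by rw [hb']; exact Nat.mul_dvd_mul_left h hqb
        have e3 : h * q ∣ c := by rw [hc']; exact Nat.mul_dvd_mul_left h hqc
        have e4 : h * q ∣ g := by rw [hg]; exact Nat.dvd_gcd e1 e2
        have e5 : h * q ∣ Nat.gcd g c := Nat.dvd_gcd e4 e3
        rwa [← hh] at e5
      have h2 := Nat.le_of_dvd hhpos h1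
      have h3 := hq.two_le
      nlinarith)
    refine ⟨j, Or.inr ?_⟩
    have e1 : c + j * b = h * (c' + j * b') := by rw [hc', hb']; ring
    have e2 : Nat.gcd n (c + j * b) = h := by
      rw [e1, hn', Nat.gcd_mul_left, Nat.Coprime.gcd_eq_one hj, Nat.mul_one]
    rw [e2]
    have e3 : n / h = n' := by
      rw [hn']
      exact Nat.mul_div_cancel_left n' hhpos
    rw [e3]
    by_contra hcon
    push Not at hcon
    have e4 : h * n' ≤ h * k := Nat.mul_le_mul_left h hcon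
    have e5 : h * k < g * k := Nat.mul_lt_mul_of_pos_right hlt (by omega)
    omega

theorem unit_of_mul {O : Type} [CommRing O] (n : ℕ) (ζ : O) (hP : Prim O n ζ) (f g : ℤ[X])
    (hfg : f * g = X ^ n - 1) (c : ℕ) (hg : aeval (ζ ^ c) g = 0) : IsUnit (aeval (ζ ^ c) f) := by
  have h1 : derivative (f * g) = derivative f * g + f * derivative g := derivative_mul
  have h2 : derivative ((X : ℤ[X]) ^ n - 1) = C (n : ℤ) * X ^ (n - 1) := by
    rw [derivative_sub, derivative_one, sub_zero, derivative_X_pow]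
  rw [hfg, h2] at h1
  have h3 := congrArg (aeval (ζ ^ c)) h1
  simp only [map_mul, map_add, hg, mul_zero, zero_add, map_pow, aeval_X, aeval_C] at h3
  have hz : IsUnit ζ := by
    refine IsUnit.of_mul_eq_one (ζ ^ (n - 1)) ?_
    rw [← pow_succ', Nat.sub_add_cancel hP.pos, hP.pow]
  have h4 : IsUnit ((algebraMap ℤ O) (n : ℤ) * (ζ ^ c) ^ (n - 1)) := by
    refine IsUnit.mul ?_ ((hz.pow c).pow (n - 1))
    have : (algebraMap ℤ O) (n : ℤ) = (n : O) := by simp
    rw [this]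
    exact hP.unit
  rw [h3] at h4
  exact isUnit_of_mul_isUnit_left h4

private theorem NT_prod {O : Type} [CommRing O] (n : ℕ) (ζ : O) (hP : Prim O n ζ)
    (hcyc : ∀ c : ℕ, aeval (ζ ^ c) (cyclotomic (n / Nat.gcd n c) ℤ) = 0) (c : ℕ)
    (p : ℕ → Prop) [DecidablePred p] (hc : ¬ p (n / Nat.gcd n c)) :
    IsUnit (aeval (ζ ^ c) (∏ d ∈ n.divisors.filter p, cyclotomic d ℤ)) := by
  refine unit_of_mul n ζ hP _ (∏ d ∈ n.divisors.filter (fun d => ¬ p d), cyclotomic d ℤ) ?_ c ?_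
  · rw [Finset.prod_filter_mul_prod_filter_not]
    exact prod_cyclotomic_eq_X_pow_sub_one hP.pos ℤ
  · rw [map_prod]
    refine Finset.prod_eq_zero (i := n / Nat.gcd n c) ?_ (hcyc c)
    rw [Finset.mem_filter]
    exact ⟨Nat.mem_divisors.2 ⟨Nat.div_dvd_of_dvd (Nat.gcd_dvd_left n c), hP.pos.ne'⟩, hc⟩

theorem fk_unit {O : Type} [CommRing O] (n k : ℕ) (ζ : O) (hP : Prim O n ζ)
    (hcyc : ∀ c : ℕ, aeval (ζ ^ c) (cyclotomic (n / Nat.gcd n c) ℤ) = 0) (c : ℕ)
    (hc : n ∣ c ∨ k < n / Nat.gcd n c) : IsUnit (aeval (ζ ^ c) (fk n k)) := by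
  unfold fk
  refine NT_prod n ζ hP hcyc c (fun d => 1 < d ∧ d ≤ k) ?_
  rintro ⟨h1, h2⟩
  rcases hc with hc | hc
  · rw [Nat.gcd_eq_left hc, Nat.div_self hP.pos] at h1
    omega
  · omega

theorem cyc_unit {O : Type} [CommRing O] (n k : ℕ) (hk : k ∣ n) (ζ : O) (hP : Prim O n ζ)
    (hcyc : ∀ c : ℕ, aeval (ζ ^ c) (cyclotomic (n / Nat.gcd n c) ℤ) = 0) (c : ℕ)
    (hc : n / Nat.gcd n c ≠ k) : IsUnit (aeval (ζ ^ c) (cyclotomic k ℤ)) := by
  have h := NT_prod n ζ hP hcyc c (fun d => d = k) hc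
  have e : n.divisors.filter (fun d => d = k) = {k} := by
    ext d
    simp only [Finset.mem_filter, Nat.mem_divisors, Finset.mem_singleton]
    constructor
    · exact fun h => h.2
    · rintro rfl
      exact ⟨⟨hk, hP.pos.ne'⟩, rfl⟩
  rw [e, Finset.prod_singleton] at h
  exact h

theorem eigen_sum {O V : Type} [CommRing O] [AddCommGroup V] [Module O V] (n : ℕ) (ζ : O)
    (hP : Prim O n ζ) (Φ : Module.End O V) (hΦ : Φ ^ n = 1) (v : V) :
    ∃ w : ℕ → V, (∀ c, Φ (w c) = ζ ^ c • w c) ∧ v = ∑ c ∈ Finset.range n, w c := by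
  obtain ⟨ν, hν⟩ := hP.unit
  obtain ⟨ξ, hξ⟩ : ∃ ξ, ξ = ζ ^ (n - 1) := ⟨_, rfl⟩
  have hζξ : ζ * ξ = 1 := by
    rw [hξ, ← pow_succ', Nat.sub_add_cancel hP.pos, hP.pow]
  have hξn : ξ ^ n = 1 := by
    rw [hξ, ← pow_mul, mul_comm, pow_mul, hP.pow, one_pow]
  refine ⟨fun c => ((ν⁻¹ : Oˣ) : O) • ∑ j ∈ Finset.range n, ξ ^ (c * j) • (Φ ^ j) v, fun c => ?_, ?_⟩
  · show Φ (((ν⁻¹ : Oˣ) : O) • ∑ j ∈ Finset.range n, ξ ^ (c * j) • (Φ ^ j) v) =
      ζ ^ c • (((ν⁻¹ : Oˣ) : O) • ∑ j ∈ Finset.range n, ξ ^ (c * j) • (Φ ^ j) v)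
    rw [map_smul, map_sum, smul_comm (ζ ^ c)]
    congr 1
    have h1 : ∀ j, Φ (ξ ^ (c * j) • (Φ ^ j) v) = ζ ^ c • (ξ ^ (c * (j + 1)) • (Φ ^ (j + 1)) v) := by
      intro j
      rw [map_smul, smul_smul, pow_succ' Φ j, Module.End.mul_apply]
      congr 1
      rw [mul_add, mul_one, pow_add, mul_comm (ξ ^ (c * j)) (ξ ^ c), ← mul_assoc, ← mul_pow, hζξ,
        one_pow, one_mul]
    rw [Finset.sum_congr rfl fun j _ => h1 j, ← Finset.smul_sum]
    congr 1
    have h2 : ∑ j ∈ Finset.range n, ξ ^ (c * (j + 1)) • (Φ ^ (j + 1)) v +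
        ξ ^ (c * 0) • (Φ ^ 0) v = ∑ j ∈ Finset.range n, ξ ^ (c * j) • (Φ ^ j) v +
        ξ ^ (c * n) • (Φ ^ n) v := by
      rw [← Finset.sum_range_succ' (fun j => ξ ^ (c * j) • (Φ ^ j) v),
        ← Finset.sum_range_succ (fun j => ξ ^ (c * j) • (Φ ^ j) v)]
    have h3 : ξ ^ (c * n) • (Φ ^ n) v = ξ ^ (c * 0) • (Φ ^ 0) v := by
      rw [hΦ, mul_comm c n, pow_mul, hξn, one_pow, mul_zero, pow_zero, pow_zero]
    rw [h3] at h2
    exact add_right_cancel h2
  · show v = ∑ c ∈ Finset.range n, ((ν⁻¹ : Oˣ) : O) • ∑ j ∈ Finset.range n, ξ ^ (c * j) • (Φ ^ j) v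
    rw [← Finset.smul_sum, Finset.sum_comm]
    have h1 : ∀ j ∈ Finset.range n, ∑ c ∈ Finset.range n, ξ ^ (c * j) • (Φ ^ j) v =
        if j = 0 then (n : O) • v else 0 := by
      intro j hj
      rw [← Finset.sum_smul]
      split_ifs with h0
      · subst h0
        simp
      · have h2 : ∑ c ∈ Finset.range n, ξ ^ (c * j) = 0 := by
          have h3 := hP.sum ((n - 1) * j) (by
            intro hd
            have h4 : Nat.Coprime n (n - 1) := by
              rw [Nat.coprime_self_sub_right hP.pos]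
              exact Nat.coprime_one_right n
            have h5 := h4.dvd_of_dvd_mul_left hd
            have h6 := Nat.le_of_dvd (Nat.pos_of_ne_zero h0) h5
            have h7 := Finset.mem_range.1 hj
            omega)
          rw [← h3]
          refine Finset.sum_congr rfl fun c _ => ?_
          rw [hξ, ← pow_mul]
          congr 1
          ring
        rw [h2, zero_smul]
    rw [Finset.sum_congr rfl h1, Finset.sum_ite_eq' (Finset.range n) 0,
      if_pos (Finset.mem_range.2 hP.pos), smul_smul, ← hν, Units.inv_mul, one_smul]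

theorem homog_nil {O V : Type} [CommRing O] [AddCommGroup V] [Module O V] (n k : ℕ) (hk : 1 < k)
    (ζ : O) (hP : Prim O n ζ)
    (hcyc : ∀ c : ℕ, aeval (ζ ^ c) (cyclotomic (n / Nat.gcd n c) ℤ) = 0)
    (Φ Ψ : Module.End O V) (hΨ : Ψ * Φ = 1) (hΦ : Φ ^ n = 1) (hf : aeval Φ (fk n k) = 0) (b : ℕ)
    (hb : n / Nat.gcd n b = k) (u : Module.End O V) (hu : Φ * u * Ψ = ζ ^ b • u) : u ^ n = 0 := by
  have hcomm : ∀ x : V, Φ (u x) = ζ ^ b • u (Φ x) := by
    intro x
    have h1 : Φ * u * Ψ * Φ = (ζ ^ b • u) * Φ := by rw [hu]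
    rw [mul_assoc, hΨ, mul_one] at h1
    have h2 := LinearMap.congr_fun h1 x
    simpa using h2
  have heig : ∀ (j c : ℕ) (x : V), Φ x = ζ ^ c • x → Φ ((u ^ j) x) = ζ ^ (c + j * b) • (u ^ j) x := by
    intro j c x hx
    induction j with
    | zero => simpa using hx
    | succ j ih =>
      rw [pow_succ', Module.End.mul_apply, hcomm, ih, map_smul, smul_smul, ← pow_add]
      congr 2
      ring
  have hpol : ∀ (z : O) (x : V) (f : ℤ[X]), Φ x = z • x → (aeval Φ f) x = (aeval z f) • x := by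
    intro z x f hx
    have hpw : ∀ i : ℕ, (Φ ^ i) x = z ^ i • x := by
      intro i
      induction i with
      | zero => simp
      | succ i ih =>
        rw [pow_succ', Module.End.mul_apply, ih, map_smul, hx, smul_smul, ← pow_succ]
    induction f using Polynomial.induction_on' with
    | add p q hp hq => rw [map_add, map_add, LinearMap.add_apply, hp, hq, add_smul]
    | monomial i a =>
      rw [aeval_monomial, aeval_monomial, Module.End.mul_apply, hpw]
      simp only [eq_intCast]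
      rw [mul_smul, Int.cast_smul_eq_zsmul, smul_comm]
      simp
  have hkill : ∀ (c : ℕ) (x : V), Φ x = ζ ^ c • x → (u ^ n) x = 0 := by
    intro c x hx
    obtain ⟨j, hj, hjc⟩ := coset n k b c hP.pos hk hb
    have h1 := heig j c x hx
    have h2 := hpol _ _ (fk n k) h1
    rw [hf, LinearMap.zero_apply] at h2
    have h3 := fk_unit n k ζ hP hcyc (c + j * b) hjc
    have h4 : (u ^ j) x = 0 := by
      obtain ⟨w, hw⟩ := h3
      rw [← hw] at h2
      have h5 := congrArg (fun y => ((w⁻¹ : Oˣ) : O) • y) h2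
      simp only [smul_zero, smul_smul, Units.inv_mul, one_smul] at h5
      exact h5.symm
    have h6 : u ^ n = u ^ (n - j) * u ^ j := by
      rw [← pow_add]
      congr 1
      omega
    rw [h6, Module.End.mul_apply, h4, map_zero]
  ext v
  obtain ⟨w, hw, hv⟩ := eigen_sum n ζ hP Φ hΦ v
  rw [hv, map_sum, LinearMap.zero_apply]
  exact Finset.sum_eq_zero fun c _ => hkill c (w c) (hw c)

end Pool.Agent.LgP
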