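import Pool.Agent.LgP.NCore
import Pool.Agent.LgP.Gr

/-!
# Own filtration: a group generated by boundedly many nil letters acts nilpotently

Paper proof. Take `A, τ, S, l` from `gr_exists` and apply `nilCore n t m` to the letters
`s i = l (u i)`: `(span s)^M = ⊥`, so with `U` = span of the `u i` in `aug O ρ` we get
`(span u)^M ≤ I^(M+1)`, `I = aug O ρ`. From `I ≤ span u ⊔ I^2` we get
`I^M ≤ (span u)^M ⊔ I^(M+1) ≤ I^(M+1)` (expand the `M`-fold product of `span u ⊔ I^2`; all these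
submodules are contained in `I`). Hence `I^M ≤ I^(M+j)` for all `j`, and `I^M = ⊥` because `I`
is nilpotent. (`m = 0`: then `u i ^ 0 = 1 = 0`, so `E` is trivial if `t > 0`, and if `t = 0` then
`I ≤ I^2`, so `I = ⊥`.)
-/

set_option autoImplicit false

namespace Pool.Agent.LgP

private theorem Own_mul_le {O E X : Type} [CommRing O] [Ring E] [Algebra O E] [Group X]
    (ρ : X →* E) : aug O ρ * aug O ρ ≤ aug O ρ := by
  unfold aug
  rw [Submodule.span_mul_span, Submodule.span_le]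
  rintro z ⟨a, ⟨x, rfl⟩, b, ⟨y, rfl⟩, rfl⟩
  have h : (ρ x - 1) * (ρ y - 1) = (ρ (x * y) - 1) - (ρ x - 1) - (ρ y - 1) := by
    rw [map_mul]
    noncomm_ring
  show (ρ x - 1) * (ρ y - 1) ∈ _
  rw [h]
  refine Submodule.sub_mem _ (Submodule.sub_mem _ ?_ ?_) ?_ <;>
    exact Submodule.subset_span ⟨_, rfl⟩

private theorem Own_expand {O E : Type} [CommRing O] [Ring E] [Algebra O E]
    (I V : Submodule O E) (hI : I * I ≤ I) (hV : V ≤ I) (h : I ≤ V ⊔ I ^ 2) (k : ℕ) :
    I ^ k ≤ V ^ k ⊔ I ^ (k + 1) := by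
  have hVk : ∀ k : ℕ, V ^ k ≤ I ^ k := by
    intro k
    induction k with
    | zero => simp
    | succ k ih =>
      rw [pow_succ, pow_succ]
      exact mul_le_mul' ih hV
  induction k with
  | zero => simp
  | succ k ih =>
    have h1 : I ^ (k + 1) ≤ (V ^ k ⊔ I ^ (k + 1)) * (V ⊔ I ^ 2) := by
      conv_lhs => rw [pow_succ]
      exact mul_le_mul' ih h
    refine h1.trans ?_
    rw [Submodule.sup_mul, Submodule.mul_sup, Submodule.mul_sup]
    refine sup_le (sup_le ?_ ?_) (sup_le ?_ ?_)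
    · rw [← pow_succ]
      exact le_sup_left
    · refine le_trans ?_ le_sup_right
      refine (mul_le_mul' (hVk k) le_rfl).trans ?_
      rw [← pow_add]
    · refine le_trans ?_ le_sup_right
      refine (mul_le_mul' le_rfl hV).trans ?_
      rw [← pow_succ]
    · refine le_trans ?_ le_sup_right
      rw [pow_two, ← mul_assoc]
      refine (mul_le_mul' (mul_le_mul' le_rfl le_rfl) le_rfl).trans ?_
      rw [mul_assoc]
      refine (mul_le_mul' le_rfl hI).trans ?_
      rw [← pow_succ]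

theorem own (n t m : ℕ) : ∃ M : ℕ, 0 < M ∧
    ∀ (O E X : Type) [CommRing O] [Ring E] [Algebra O E] [Group X] (ζ : O), Prim O n ζ →
    UpTo O (2 * m) → ∀ σ : E →ₐ[O] E, (∀ a, (⇑σ)^[n] a = a) → ∀ (φ : X →* X) (ρ : X →* E),
    (∀ x, σ (ρ x) = ρ (φ x)) → Split n φ → (∃ K : ℕ, (aug O ρ) ^ K = ⊥) →
    ∀ u : Fin t → E, (∀ i, u i ∈ aug O ρ) → (∀ i, u i ^ m = 0) →
    aug O ρ ≤ Submodule.span O (Set.range u) ⊔ (aug O ρ) ^ 2 → (aug O ρ) ^ M = ⊥ := by
  obtain ⟨M, hM, hcore⟩ := nilCore n t m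
  refine ⟨M, hM, ?_⟩
  intro O E X _ _ _ _ ζ hP hU σ hσ φ ρ hρ hφ hK u hu hum hI
  by_cases hm : m = 0 ∧ 0 < t
  · obtain ⟨hm0, ht⟩ := hm
    have h1 : (1 : E) = 0 := by
      have := hum ⟨0, ht⟩
      rw [hm0, pow_zero] at this
      exact this
    have : Subsingleton E := subsingleton_of_zero_eq_one h1.symm
    exact Subsingleton.elim _ _
  have hm' : ∀ _ : Fin t, 0 < m := by
    intro i
    have := i.pos
    by_contra hc
    exact hm ⟨by omega, this⟩
  obtain ⟨A, _, _, τ, S, l, hτ, hS, hτS, hTr, hlS, hlm, hlU⟩ :=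
    gr_exists (O := O) (E := E) (X := X) n hP.pos σ hσ φ ρ hρ hφ
  have hnil := hcore O A ζ hP hU τ hτ S hS hτS hTr (fun i => l ⟨u i, hu i⟩) (fun i => hlS _)
    (fun i => hlm _ m (hm' i) (hum i))
  have h1 := hlU M (Submodule.span O (Set.range fun i : Fin t => (⟨u i, hu i⟩ : aug O ρ))) (by
    rw [Submodule.map_span, ← Set.range_comp]
    exact hnil)
  rw [Submodule.map_span, ← Set.range_comp] at h1
  have h2 : (Submodule.span O (Set.range u)) ^ M ≤ (aug O ρ) ^ (M + 1) := h1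
  have hV : Submodule.span O (Set.range u) ≤ aug O ρ := by
    rw [Submodule.span_le]
    rintro _ ⟨i, rfl⟩
    exact hu i
  have h3 : (aug O ρ) ^ M ≤ (aug O ρ) ^ (M + 1) :=
    (Own_expand _ _ (Own_mul_le ρ) hV hI M).trans (sup_le h2 le_rfl)
  have h4 : ∀ j : ℕ, (aug O ρ) ^ M ≤ (aug O ρ) ^ (M + j) := by
    intro j
    induction j with
    | zero => rfl
    | succ j ih =>
      refine ih.trans ?_
      rw [pow_add, ← add_assoc, add_right_comm, pow_add (aug O ρ) (M + 1) j]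
      exact mul_le_mul' h3 le_rfl
  obtain ⟨K, hK⟩ := hK
  have h5 := h4 K
  rw [pow_add, hK, Submodule.mul_bot] at h5
  exact le_bot_iff.1 h5

end Pool.Agent.LgP
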