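import Pool.Agent.LgP.Defs

/-!
# Integral polynomials in an endomorphism of a group

`pw_aeval`: in a commutative quotient the word `pw φ f` becomes `f(θ)`. Proof: `map_list_prod`,
`Polynomial.aeval_eq_sum_range`, `Finset.sum_range`/`List.sum_range`.
`pw_mem`: `pw φ f g ∈ H` for `φ`-invariant `H ∋ g`. `pw_map`: naturality.
`pw_geom`: for `f = fk n n` (`= ∑_{i<n} X^i`, `Polynomial.prod_cyclotomic_eq_geom_sum`) `pw φ f g` is the
product of the splitting identity. `pw_one`.
-/

set_option autoImplicit false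

open Polynomial

namespace Pool.Agent.LgP

private theorem Pw_iter {G G' : Type} [Group G] [Group G'] (φ : G →* G) (φ' : G' →* G')
    (q : G →* G') (h : ∀ g, q (φ g) = φ' (q g)) (i : ℕ) (g : G) :
    q ((⇑φ)^[i] g) = (⇑φ')^[i] (q g) := by
  induction i generalizing g with
  | zero => rfl
  | succ i ih => rw [Function.iterate_succ_apply, Function.iterate_succ_apply, ih, h]

private theorem Pw_ofMul {C : Type} [CommGroup C] (l : List C) :
    Additive.ofMul l.prod = (l.map Additive.ofMul).sum := by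
  induction l with
  | nil => rfl
  | cons a l ih => rw [List.prod_cons, List.map_cons, List.sum_cons, ← ih, ofMul_mul]

private theorem Pw_theta {C : Type} [CommGroup C] (θ : C →* C) (i : ℕ) (c : C) :
    Additive.ofMul ((⇑θ)^[i] c) =
      ((MonoidHom.toAdditive θ).toIntLinearMap ^ i) (Additive.ofMul c) := by
  induction i generalizing c with
  | zero => rfl
  | succ i ih =>
    rw [Function.iterate_succ_apply, ih, pow_succ]
    rfl

theorem pw_aeval {G C : Type} [Group G] [CommGroup C] (φ : G →* G) (θ : C →* C) (q : G →* C)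
    (h : ∀ g, q (φ g) = θ (q g)) (f : ℤ[X]) (g : G) :
    Additive.ofMul (q (pw φ f g)) =
      (aeval (MonoidHom.toAdditive θ).toIntLinearMap f) (Additive.ofMul (q g)) := by
  unfold pw
  rw [map_list_prod, Pw_ofMul, List.map_map, List.map_map, Polynomial.aeval_eq_sum_range,
    LinearMap.sum_apply, Finset.sum_range, ← List.sum_ofFn, List.ofFn_eq_map]
  rw [← List.map_coe_finRange_eq_range, List.map_map]
  congr 1
  apply List.map_congr_left
  intro i _
  simp only [Function.comp]
  rw [map_zpow, Pw_iter φ θ q h, ofMul_zpow, Pw_theta]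
  rfl

theorem pw_mem {G : Type} [Group G] (φ : G →* G) (f : ℤ[X]) (H : Subgroup G)
    (hH : ∀ h ∈ H, φ h ∈ H) (g : G) (hg : g ∈ H) : pw φ f g ∈ H := by
  have hit : ∀ i : ℕ, (⇑φ)^[i] g ∈ H := by
    intro i
    induction i with
    | zero => exact hg
    | succ i ih =>
      rw [Function.iterate_succ_apply']
      exact hH _ ih
  unfold pw
  apply Subgroup.list_prod_mem
  intro x hx
  rw [List.mem_map] at hx
  obtain ⟨i, -, rfl⟩ := hx
  exact Subgroup.zpow_mem _ (hit i) _

theorem pw_map {G G' : Type} [Group G] [Group G'] (φ : G →* G) (φ' : G' →* G') (q : G →* G')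
    (h : ∀ g, q (φ g) = φ' (q g)) (f : ℤ[X]) (g : G) : q (pw φ f g) = pw φ' f (q g) := by
  unfold pw
  rw [map_list_prod, List.map_map]
  congr 1
  apply List.map_congr_left
  intro i _
  simp only [Function.comp]
  rw [map_zpow, Pw_iter φ φ' q h]

theorem fk_self (n : ℕ) (hn : 0 < n) : fk n n = ∑ i ∈ Finset.range n, X ^ i := by
  rw [← Polynomial.prod_cyclotomic_eq_geom_sum hn ℤ]
  unfold fk
  apply Finset.prod_congr _ (fun _ _ => rfl)
  ext d
  rw [Finset.mem_filter, Finset.mem_erase, Nat.mem_divisors]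
  constructor
  · rintro ⟨⟨h1, h2⟩, h3, h4⟩
    exact ⟨by omega, h1, h2⟩
  · rintro ⟨h1, h2, h3⟩
    have h4 := Nat.le_of_dvd hn h2
    have h5 := Nat.pos_of_dvd_of_pos h2 hn
    exact ⟨⟨h2, h3⟩, by omega, h4⟩

theorem fk_one (n : ℕ) : fk n 1 = 1 := by
  unfold fk
  apply Finset.prod_eq_one
  intro d hd
  rw [Finset.mem_filter] at hd
  omega

theorem fk_succ (n k : ℕ) (hn : 0 < n) (hk : 1 < k) (hkn : k ∣ n) :
    fk n k = cyclotomic k ℤ * fk n (k - 1) := by
  unfold fk
  have hs : n.divisors.filter (fun d => 1 < d ∧ d ≤ k) =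
      insert k (n.divisors.filter (fun d => 1 < d ∧ d ≤ k - 1)) := by
    ext d
    rw [Finset.mem_insert, Finset.mem_filter, Finset.mem_filter, Nat.mem_divisors]
    constructor
    · rintro ⟨⟨h1, h2⟩, h3, h4⟩
      by_cases hd : d = k
      · exact Or.inl hd
      · exact Or.inr ⟨⟨h1, h2⟩, h3, by omega⟩
    · rintro (h | ⟨⟨h1, h2⟩, h3, h4⟩)
      · subst h
        exact ⟨⟨hkn, by omega⟩, hk, le_rfl⟩
      · exact ⟨⟨h1, h2⟩, h3, by omega⟩
  rw [hs, Finset.prod_insert]
  rw [Finset.mem_filter]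
  omega

theorem fk_not_dvd (n k : ℕ) (hk : 1 < k) (hkn : ¬ k ∣ n) : fk n k = fk n (k - 1) := by
  unfold fk
  apply Finset.prod_congr _ (fun _ _ => rfl)
  ext d
  rw [Finset.mem_filter, Finset.mem_filter, Nat.mem_divisors]
  constructor
  · rintro ⟨⟨h1, h2⟩, h3, h4⟩
    refine ⟨⟨h1, h2⟩, h3, ?_⟩
    by_cases hd : d = k
    · subst hd
      exact absurd h1 hkn
    · omega
  · rintro ⟨⟨h1, h2⟩, h3, h4⟩
    exact ⟨⟨h1, h2⟩, h3, by omega⟩

private theorem Pw_coeff (n i : ℕ) :
    (∑ j ∈ Finset.range n, (X : ℤ[X]) ^ j).coeff i = if i < n then 1 else 0 := by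
  rw [Polynomial.finsetSum_coeff]
  simp only [Polynomial.coeff_X_pow]
  rw [Finset.sum_ite_eq]
  simp only [Finset.mem_range]

private theorem Pw_natDegree (n : ℕ) :
    (∑ j ∈ Finset.range (n + 1), (X : ℤ[X]) ^ j).natDegree = n := by
  apply Polynomial.natDegree_eq_of_le_of_coeff_ne_zero
  · rw [Polynomial.natDegree_le_iff_coeff_eq_zero]
    intro i hi
    rw [Pw_coeff, if_neg (by omega)]
  · rw [Pw_coeff, if_pos (by omega)]
    exact one_ne_zero

theorem lev_start {G : Type} [Group G] (n : ℕ) (hn : 0 < n) (φ : G →* G) (hφ : Split n φ) :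
    Lev n n φ := by
  intro H _ _ h _
  obtain ⟨m, rfl⟩ : ∃ m, n = m + 1 := ⟨n - 1, by omega⟩
  have h1 : pw φ (fk (m + 1) (m + 1)) h = 1 := by
    rw [← hφ h, fk_self _ hn]
    unfold pw
    rw [Pw_natDegree]
    congr 1
    apply List.map_congr_left
    intro i hi
    rw [List.mem_range] at hi
    rw [Pw_coeff, if_pos hi, zpow_one]
  rw [h1]
  exact Subgroup.one_mem _

theorem pw_one {G : Type} [Group G] (φ : G →* G) (g : G) : pw φ 1 g = g := by
  unfold pw
  rw [Polynomial.natDegree_one]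
  simp

end Pool.Agent.LgP
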