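import Pool.Agent.LgP.Own
import Pool.Agent.LgP.NT
import Pool.Agent.LgP.Pw

/-!
# Elements of pure type act nilpotently, with a uniform bound

Paper proof. `E = Module.End O V`, `σ a = Φ * a * Ψ` (an algebra endomorphism, `σ^n = 1`).
`Y = orb φ y` is `φ`-invariant; let `X = ↥Y`, `φ_X` the restriction, `ρ_X = ρ.comp Y.subtype`,
`I = aug O ρ_X ≤ aug O ρ`. Apply `own n n n` to the letters `u b` (`b < n`):
`u b = π_b (ρ y - 1)` if `n / gcd n b = k`, and `u b = 0` otherwise, where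
`π_b a = n⁻¹ ∑_{j<n} ζ^((n-b) j) σ^j a` (note `Φ * π_b a * Ψ = ζ^b • π_b a`, `∑_b π_b a = a`).
`u b ∈ I`: `σ^j (ρ y - 1) = ρ (φ^j y) - 1`. `(u b)^n = 0`: `homog_nil`.
`I ≤ span u ⊔ I^2`: `I` is spanned by the `ρ g - 1`, `g ∈ Y`, and `Y` is generated by the `φ^j y`,
so modulo `I^2` it is spanned by the `ρ (φ^j y) - 1 = ∑_b ζ^(b j) • π_b (ρ y - 1)`
(`ρ (a b) - 1 = (ρ a - 1) + (ρ b - 1) + (ρ a - 1)(ρ b - 1)`, `ρ a⁻¹ - 1 = - (ρ a - 1) + I^2`).
So it suffices that `π_b (ρ y - 1) ∈ I^2` for `b` of order `≠ k`: `pw φ (cyclotomic k) y ∈ ⁅Y,Y⁆`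
gives `∑_i c_i σ^i (ρ y - 1) ∈ I^2` (`c_i` the coefficients of the cyclotomic polynomial; elements
`g` of `⁅Y,Y⁆` have `ρ g - 1 ∈ I^2`), apply `π_b` (`I^2` is `σ`-stable) : the left side becomes
`(cyclotomic k)(ζ^b) • π_b (ρ y - 1)`, and `(cyclotomic k)(ζ^b)` is a unit (`cyc_unit`).
Conclusion: `I^M = ⊥`, `ρ y - 1 ∈ I`.
-/

set_option autoImplicit false

open Polynomial
open scoped commutatorElement

namespace Pool.Agent.LgP

/-- conjugation by an invertible operator -/
private def pnConj {O V : Type} [CommRing O] [AddCommGroup V] [Module O V]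
    (Φ Ψ : Module.End O V) (h1 : Φ * Ψ = 1) (h2 : Ψ * Φ = 1) :
    Module.End O V →ₐ[O] Module.End O V where
  toFun a := Φ * a * Ψ
  map_one' := by rw [mul_one, h1]
  map_mul' a b := by
    calc Φ * (a * b) * Ψ = Φ * a * 1 * b * Ψ := by simp only [mul_one, mul_assoc]
      _ = Φ * a * (Ψ * Φ) * b * Ψ := by rw [h2]
      _ = Φ * a * Ψ * (Φ * b * Ψ) := by simp only [mul_assoc]
  map_zero' := by simp
  map_add' a b := by rw [mul_add, add_mul]
  commutes' r := by
    rw [← Algebra.commutes r Φ, mul_assoc, h1, mul_one]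

private theorem pnConj_apply {O V : Type} [CommRing O] [AddCommGroup V] [Module O V]
    (Φ Ψ : Module.End O V) (h1 : Φ * Ψ = 1) (h2 : Ψ * Φ = 1) (a : Module.End O V) :
    pnConj Φ Ψ h1 h2 a = Φ * a * Ψ := rfl

private theorem pnConj_iter {O V : Type} [CommRing O] [AddCommGroup V] [Module O V]
    (Φ Ψ : Module.End O V) (h1 : Φ * Ψ = 1) (h2 : Ψ * Φ = 1) (j : ℕ) (a : Module.End O V) :
    (⇑(pnConj Φ Ψ h1 h2))^[j] a = Φ ^ j * a * Ψ ^ j := by
  induction j with
  | zero => simp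
  | succ j ih =>
    rw [Function.iterate_succ_apply', ih, pnConj_apply, pow_succ' Φ, pow_succ Ψ]
    simp only [mul_assoc]

/-- the projection to the degree `b` part -/
private noncomputable def pnPr {O W : Type} [CommRing O] [AddCommGroup W] [Module O W] (n : ℕ)
    (ζ : O) (T : Module.End O W) (b : ℕ) : Module.End O W :=
  Ring.inverse (n : O) • ∑ j ∈ Finset.range n, ζ ^ ((n - b) * j) • T ^ j

private theorem pnPr_mul {O W : Type} [CommRing O] [AddCommGroup W] [Module O W] (n : ℕ)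
    (ζ : O) (hP : Prim O n ζ) (T : Module.End O W) (hT : T ^ n = 1) (b : ℕ) (hb : b < n) :
    pnPr n ζ T b * T = ζ ^ b • pnPr n ζ T b := by
  unfold pnPr
  have hz : ζ ^ b * ζ ^ (n - b) = 1 := by
    rw [← pow_add, show b + (n - b) = n by omega, hP.pow]
  have h0 : ∀ j : ℕ, ζ ^ ((n - b) * j) • T ^ (j + 1) =
      ζ ^ b • (ζ ^ ((n - b) * (j + 1)) • T ^ (j + 1)) := by
    intro j
    rw [smul_smul]
    congr 1
    rw [mul_add, mul_one, pow_add, mul_comm (ζ ^ ((n - b) * j)), ← mul_assoc, hz, one_mul]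
  have hsum : ∑ j ∈ Finset.range n, ζ ^ ((n - b) * (j + 1)) • T ^ (j + 1) =
      ∑ j ∈ Finset.range n, ζ ^ ((n - b) * j) • T ^ j := by
    have h1 := Finset.sum_range_succ (fun j => ζ ^ ((n - b) * j) • T ^ j) n
    have h2 := Finset.sum_range_succ' (fun j => ζ ^ ((n - b) * j) • T ^ j) n
    rw [h1] at h2
    have h3 : ζ ^ ((n - b) * n) • T ^ n = ζ ^ ((n - b) * 0) • T ^ 0 := by
      rw [hT, mul_comm (n - b) n, pow_mul, hP.pow, one_pow, mul_zero, pow_zero, pow_zero]
    rw [h3] at h2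
    exact (add_right_cancel h2).symm
  rw [smul_mul_assoc, Finset.sum_mul]
  have : ∑ j ∈ Finset.range n, ζ ^ ((n - b) * j) • T ^ j * T =
      ζ ^ b • ∑ j ∈ Finset.range n, ζ ^ ((n - b) * j) • T ^ j := by
    rw [← hsum, Finset.smul_sum]
    refine Finset.sum_congr rfl fun j _ => ?_
    rw [smul_mul_assoc, ← pow_succ, h0]
  rw [this, smul_comm]

private theorem pnPr_comm {O W : Type} [CommRing O] [AddCommGroup W] [Module O W] (n : ℕ)
    (ζ : O) (T : Module.End O W) (b : ℕ) : T * pnPr n ζ T b = pnPr n ζ T b * T := by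
  unfold pnPr
  rw [mul_smul_comm, smul_mul_assoc, Finset.mul_sum, Finset.sum_mul]
  congr 1
  refine Finset.sum_congr rfl fun j _ => ?_
  rw [mul_smul_comm, smul_mul_assoc, ← pow_succ, ← pow_succ']

private theorem pnPr_pow {O W : Type} [CommRing O] [AddCommGroup W] [Module O W] (n : ℕ)
    (ζ : O) (hP : Prim O n ζ) (T : Module.End O W) (hT : T ^ n = 1) (b : ℕ) (hb : b < n) (j : ℕ) :
    pnPr n ζ T b * T ^ j = ζ ^ (b * j) • pnPr n ζ T b := by
  induction j with
  | zero => simp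
  | succ j ih =>
    rw [pow_succ, ← mul_assoc, ih, smul_mul_assoc, pnPr_mul n ζ hP T hT b hb, smul_smul,
      mul_add, mul_one, pow_add]

private theorem pnPr_aeval {O W : Type} [CommRing O] [AddCommGroup W] [Module O W] (n : ℕ)
    (ζ : O) (hP : Prim O n ζ) (T : Module.End O W) (hT : T ^ n = 1) (b : ℕ) (hb : b < n)
    (f : ℤ[X]) : pnPr n ζ T b * aeval T f = aeval (ζ ^ b) f • pnPr n ζ T b := by
  rw [aeval_eq_sum_range, aeval_eq_sum_range, Finset.mul_sum, Finset.sum_smul]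
  refine Finset.sum_congr rfl fun j _ => ?_
  rw [mul_smul_comm, pnPr_pow n ζ hP T hT b hb, smul_assoc, ← pow_mul]

private theorem pnPr_sum {O W : Type} [CommRing O] [AddCommGroup W] [Module O W] (n : ℕ)
    (ζ : O) (hP : Prim O n ζ) (T : Module.End O W) :
    ∑ b ∈ Finset.range n, pnPr n ζ T b = 1 := by
  unfold pnPr
  rw [← Finset.smul_sum, Finset.sum_comm]
  have h1 : ∀ j ∈ Finset.range n, ∑ b ∈ Finset.range n, ζ ^ ((n - b) * j) • T ^ j =
      if j = 0 then (n : O) • (1 : Module.End O W) else 0 := by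
    intro j hj
    rw [← Finset.sum_smul]
    by_cases h0 : j = 0
    · subst h0
      simp
    · rw [if_neg h0]
      have hz : ∑ b ∈ Finset.range n, ζ ^ ((n - b) * j) = 0 := by
        have hjn : j < n := Finset.mem_range.1 hj
        have h2 : ∑ b ∈ Finset.range n, ζ ^ ((n - b) * j) =
            ∑ b ∈ Finset.range n, ζ ^ ((b + 1) * j) := by
          rw [← Finset.sum_range_reflect]
          refine Finset.sum_congr rfl fun b hb => ?_
          have hbn : b < n := Finset.mem_range.1 hb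
          congr 2
          omega
        rw [h2]
        have h3 : ∀ b : ℕ, ζ ^ ((b + 1) * j) = ζ ^ j * ζ ^ (j * b) := by
          intro b
          rw [← pow_add]
          congr 1
          ring
        simp only [h3]
        rw [← Finset.mul_sum, hP.sum j, mul_zero]
        intro hd
        exact absurd (Nat.le_of_dvd (Nat.pos_of_ne_zero h0) hd) (by omega)
      rw [hz, zero_smul]
  rw [Finset.sum_congr rfl h1, Finset.sum_ite_eq' (Finset.range n) 0,
    if_pos (Finset.mem_range.2 hP.pos), smul_smul, Ring.inverse_mul_cancel _ hP.unit, one_smul]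

private theorem pnPr_mem {O W : Type} [CommRing O] [AddCommGroup W] [Module O W] (n : ℕ)
    (ζ : O) (T : Module.End O W) (b : ℕ) (S : Submodule O W) (hS : ∀ x ∈ S, T x ∈ S) (x : W)
    (hx : x ∈ S) : pnPr n ζ T b x ∈ S := by
  have hpow : ∀ j : ℕ, (T ^ j) x ∈ S := by
    intro j
    induction j with
    | zero => simpa using hx
    | succ j ih =>
      rw [pow_succ', Module.End.mul_apply]
      exact hS _ ih
  unfold pnPr
  rw [LinearMap.smul_apply, LinearMap.sum_apply]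
  refine S.smul_mem _ (S.sum_mem fun j _ => ?_)
  rw [LinearMap.smul_apply]
  exact S.smul_mem _ (hpow j)

section aug

variable {O E X : Type} [CommRing O] [Ring E] [Algebra O E] [Group X]

private theorem pn_mem (ρ : X →* E) (x : X) : ρ x - 1 ∈ aug O ρ :=
  Submodule.subset_span ⟨x, rfl⟩

private theorem pn_mul_mem (ρ : X →* E) (x z : X) : (ρ x - 1) * (ρ z - 1) ∈ (aug O ρ) ^ 2 := by
  rw [pow_two]
  exact Submodule.mul_mem_mul (pn_mem ρ x) (pn_mem ρ z)

private noncomputable def pnQ (ρ : X →* E) : X →* Multiplicative (E ⧸ (aug O ρ) ^ 2) where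
  toFun x := Multiplicative.ofAdd (Submodule.Quotient.mk (ρ x - 1))
  map_one' := by simp
  map_mul' x z := by
    rw [← ofAdd_add, ← Submodule.Quotient.mk_add]
    congr 1
    rw [Submodule.Quotient.eq]
    have : ρ (x * z) - 1 - (ρ x - 1 + (ρ z - 1)) = (ρ x - 1) * (ρ z - 1) := by
      rw [map_mul]
      noncomm_ring
    rw [this]
    exact pn_mul_mem ρ x z

private theorem pnQ_eq (ρ : X →* E) (x : X) : pnQ (O := O) ρ x =
    Multiplicative.ofAdd (Submodule.Quotient.mk (ρ x - 1)) := rfl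

private theorem pnQ_comm (ρ : X →* E) (x : X) (hx : x ∈ ⁅(⊤ : Subgroup X), (⊤ : Subgroup X)⁆) :
    ρ x - 1 ∈ (aug O ρ) ^ 2 := by
  have h : ⁅(⊤ : Subgroup X), (⊤ : Subgroup X)⁆ ≤ (pnQ (O := O) ρ).ker := by
    rw [Subgroup.commutator_le]
    intro a _ b _
    rw [MonoidHom.mem_ker, map_commutatorElement, commutatorElement_eq_one_iff_mul_comm]
    exact mul_comm _ _
  have h2 : pnQ (O := O) ρ x = 1 := h hx
  rw [pnQ_eq] at h2
  have h3 : (Submodule.Quotient.mk (ρ x - 1) : E ⧸ (aug O ρ) ^ 2) = 0 := h2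
  exact (Submodule.Quotient.mk_eq_zero _).1 h3

private theorem pn_stab (σ : E →ₐ[O] E) (φ : X →* X) (ρ : X →* E)
    (hρ : ∀ x, σ (ρ x) = ρ (φ x)) : ∀ a ∈ aug O ρ, σ.toLinearMap a ∈ aug O ρ := by
  intro a ha
  unfold aug at ha
  induction ha using Submodule.span_induction with
  | mem a h =>
    obtain ⟨x, rfl⟩ := h
    have : σ.toLinearMap (ρ x - 1) = ρ (φ x) - 1 := by
      rw [AlgHom.toLinearMap_apply, map_sub, map_one, hρ]
    rw [this]
    exact pn_mem ρ _
  | zero => rw [map_zero]; exact Submodule.zero_mem _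
  | add a b _ _ h1 h2 => rw [map_add]; exact Submodule.add_mem _ h1 h2
  | smul r a _ h => rw [map_smul]; exact Submodule.smul_mem _ _ h

private theorem pn_stab2 (σ : E →ₐ[O] E) (φ : X →* X) (ρ : X →* E)
    (hρ : ∀ x, σ (ρ x) = ρ (φ x)) : ∀ a ∈ (aug O ρ) ^ 2, σ.toLinearMap a ∈ (aug O ρ) ^ 2 := by
  intro a ha
  rw [pow_two] at ha ⊢
  induction ha using Submodule.mul_induction_on' with
  | mem_mul_mem a ha b hb =>
    rw [AlgHom.toLinearMap_apply, map_mul]
    exact Submodule.mul_mem_mul (pn_stab σ φ ρ hρ a ha) (pn_stab σ φ ρ hρ b hb)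
  | add a _ b _ h1 h2 =>
    rw [map_add]
    exact Submodule.add_mem _ h1 h2

private theorem pn_poly (σ : E →ₐ[O] E) (φ : X →* X) (ρ : X →* E)
    (hρ : ∀ x, σ (ρ x) = ρ (φ x)) (f : ℤ[X]) (x : X)
    (hx : pw φ f x ∈ ⁅(⊤ : Subgroup X), (⊤ : Subgroup X)⁆) :
    aeval (σ.toLinearMap : Module.End O E) f (ρ x - 1) ∈ (aug O ρ) ^ 2 := by
  have hst := pn_stab2 σ φ ρ hρ
  have hiter : ∀ j : ℕ, ((σ.toLinearMap : Module.End O E) ^ j) (ρ x - 1) =
      ρ ((⇑φ)^[j] x) - 1 := by
    intro j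
    induction j with
    | zero => simp
    | succ j ih =>
      rw [pow_succ', Module.End.mul_apply, ih, AlgHom.toLinearMap_apply, map_sub, map_one, hρ,
        Function.iterate_succ_apply']
  have h1 := pnQ_comm (O := O) ρ _ hx
  have h2 : pnQ (O := O) ρ (pw φ f x) = Multiplicative.ofAdd (Submodule.Quotient.mk
      (aeval (σ.toLinearMap : Module.End O E) f (ρ x - 1))) := by
    have hl : ∀ (N : ℕ) (g : ℕ → Multiplicative (E ⧸ (aug O ρ) ^ 2)),
        ((List.range N).map g).prod = ∏ i ∈ Finset.range N, g i := by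
      intro N g
      induction N with
      | zero => simp
      | succ N ih => rw [List.prod_range_succ, ih, Finset.prod_range_succ]
    unfold pw
    rw [map_list_prod, List.map_map, hl, aeval_eq_sum_range, LinearMap.sum_apply,
      ← Submodule.mkQ_apply, map_sum, ofAdd_sum]
    refine Finset.prod_congr rfl fun i _ => ?_
    rw [LinearMap.smul_apply, hiter, Function.comp_apply, map_zpow, pnQ_eq, map_zsmul,
      ofAdd_zsmul, Submodule.mkQ_apply]
  rw [pnQ_eq] at h2
  have h3 : (Submodule.Quotient.mk (ρ (pw φ f x) - 1) : E ⧸ (aug O ρ) ^ 2) =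
      Submodule.Quotient.mk (aeval (σ.toLinearMap : Module.End O E) f (ρ x - 1)) :=
    Multiplicative.ofAdd.injective h2
  rw [(Submodule.Quotient.mk_eq_zero _).2 h1] at h3
  exact (Submodule.Quotient.mk_eq_zero _).1 h3.symm

end aug

theorem pure_nil (n : ℕ) : ∃ M : ℕ, 0 < M ∧
    ∀ (O V G : Type) [CommRing O] [AddCommGroup V] [Module O V] [Group G] (ζ : O), Prim O n ζ →
    UpTo O (2 * n) →
    (∀ c : ℕ, aeval (ζ ^ c) (cyclotomic (n / Nat.gcd n c) ℤ) = 0) →
    ∀ (k : ℕ), 1 < k → k ∣ n → ∀ (φ : G →* G) (ρ : G →* Module.End O V) (Φ Ψ : Module.End O V),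
    Φ * Ψ = 1 → Ψ * Φ = 1 → Φ ^ n = 1 → (∀ g, ρ (φ g) = Φ * ρ g * Ψ) → Split n φ →
    (∃ K : ℕ, (aug (E := Module.End O V) O ρ) ^ K = ⊥) → aeval Φ (fk n k) = 0 →
    ∀ y, Pure k φ y → (ρ y - 1) ^ M = 0 := by
  obtain ⟨M, hM, hown⟩ := own n n n
  refine ⟨M, hM, ?_⟩
  intro O V G _ _ _ _ ζ hP hU hcyc k hk hkn φ ρ Φ Ψ h1 h2 hΦn hρ hSplit hAug hfk y hy
  -- the invariant subgroup generated by y
  set Y : Subgroup G := orb φ (fun _ : Unit => y) with hYdef
  have hyj : ∀ j : ℕ, (⇑φ)^[j] y ∈ Y := fun j => Subgroup.subset_closure ⟨(), j, rfl⟩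
  have hYinv : ∀ g ∈ Y, φ g ∈ Y := by
    intro g hg
    have hle : Y ≤ Y.comap φ := by
      rw [hYdef]
      unfold orb
      rw [Subgroup.closure_le]
      rintro g ⟨_, j, rfl⟩
      change φ ((⇑φ)^[j] y) ∈ Subgroup.closure _
      rw [← Function.iterate_succ_apply' (⇑φ) j y]
      exact Subgroup.subset_closure ⟨(), j + 1, rfl⟩
    exact hle hg
  let φX : Y →* Y := (φ.comp Y.subtype).codRestrict Y (fun x => hYinv x.1 x.2)
  have hφX : ∀ x : Y, ((φX x : Y) : G) = φ x := fun x => rfl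
  have hφXj : ∀ (j : ℕ) (x : Y), (((⇑φX)^[j] x : Y) : G) = (⇑φ)^[j] x := by
    intro j x
    induction j with
    | zero => rfl
    | succ j ih => rw [Function.iterate_succ_apply', Function.iterate_succ_apply', hφX, ih]
  let ρX : Y →* Module.End O V := ρ.comp Y.subtype
  have hρX : ∀ x : Y, ρX x = ρ x := fun x => rfl
  let σ := pnConj Φ Ψ h1 h2
  have hσρ : ∀ x : Y, σ (ρX x) = ρX (φX x) := by
    intro x
    rw [hρX, hρX, hφX, hρ]
    rfl
  have hΨn : Ψ ^ n = 1 := by
    have hc : Commute Φ Ψ := by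
      unfold Commute SemiconjBy
      rw [h1, h2]
    have := hc.mul_pow n
    rw [h1, one_pow, hΦn, one_mul] at this
    exact this.symm
  have hσn : ∀ a, (⇑σ)^[n] a = a := by
    intro a
    rw [show (⇑σ)^[n] a = Φ ^ n * a * Ψ ^ n from pnConj_iter Φ Ψ h1 h2 n a, hΦn, hΨn, one_mul,
      mul_one]
  have hSplitX : Split n φX := by
    intro g
    apply Subtype.ext
    have h := hSplit (g : G)
    have hs : Y.subtype ((List.range n).map fun j => (⇑φX)^[j] g).prod =
        ((List.range n).map fun j => (⇑φ)^[j] (g : G)).prod := by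
      rw [map_list_prod, List.map_map]
      congr 1
      refine List.map_congr_left fun j _ => ?_
      rw [Function.comp_apply]
      exact hφXj j g
    exact hs.trans h
  have haugle : aug (E := Module.End O V) O ρX ≤ aug O ρ := by
    apply Submodule.span_mono
    rintro _ ⟨x, rfl⟩
    exact ⟨(x : G), rfl⟩
  have hAugX : ∃ K : ℕ, (aug (E := Module.End O V) O ρX) ^ K = ⊥ := by
    obtain ⟨K, hK⟩ := hAug
    refine ⟨K, ?_⟩
    rw [eq_bot_iff, ← hK]
    exact pow_le_pow_left' haugle K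
  let T : Module.End O (Module.End O V) := σ.toLinearMap
  have hTpow : ∀ (j : ℕ) (a : Module.End O V), (T ^ j) a = (⇑σ)^[j] a := by
    intro j a
    induction j with
    | zero => rfl
    | succ j ih =>
      rw [pow_succ', Module.End.mul_apply, ih, Function.iterate_succ_apply']
      rfl
  have hTn : T ^ n = 1 := by
    ext1 a
    rw [hTpow, hσn]
    rfl
  let yX : Y := ⟨y, hyj 0⟩
  let a : Module.End O V := ρX yX - 1
  have haI : a ∈ aug O ρX := pn_mem ρX yX
  have hTI := pn_stab σ φX ρX hσρ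
  have hTI2 := pn_stab2 σ φX ρX hσρ
  -- pure type: the components of the wrong order lie in I^2
  have hcomm : pw φX (cyclotomic k ℤ) yX ∈ ⁅(⊤ : Subgroup Y), (⊤ : Subgroup Y)⁆ := by
    have hyp : pw φ (cyclotomic k ℤ) y ∈ ⁅Y, Y⁆ := hy
    have hmap : (⁅(⊤ : Subgroup Y), (⊤ : Subgroup Y)⁆).map Y.subtype = ⁅Y, Y⁆ := by
      rw [Subgroup.map_commutator, ← MonoidHom.range_eq_map, Subgroup.range_subtype]
    rw [← hmap] at hyp
    obtain ⟨z, hz, hz2⟩ := hyp
    have h3 : Y.subtype (pw φX (cyclotomic k ℤ) yX) = pw φ (cyclotomic k ℤ) (Y.subtype yX) :=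
      pw_map φX φ Y.subtype (fun g => rfl) _ _
    have h4 : z = pw φX (cyclotomic k ℤ) yX := by
      apply Y.subtype_injective
      rw [hz2, h3]
      rfl
    rw [← h4]
    exact hz
  have hpoly : aeval T (cyclotomic k ℤ) a ∈ (aug O ρX) ^ 2 :=
    pn_poly σ φX ρX hσρ (cyclotomic k ℤ) yX hcomm
  have hwrong : ∀ b < n, n / Nat.gcd n b ≠ k → pnPr n ζ T b a ∈ (aug O ρX) ^ 2 := by
    intro b hb hbk
    have h3 := pnPr_mem n ζ T b _ hTI2 _ hpoly
    rw [← Module.End.mul_apply, pnPr_aeval n ζ hP T hTn b hb, LinearMap.smul_apply] at h3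
    obtain ⟨w, hw⟩ := cyc_unit n k hkn ζ hP hcyc b hbk
    rw [← hw] at h3
    have h4 := Submodule.smul_mem _ ((w⁻¹ : Oˣ) : O) h3
    rwa [smul_smul, Units.inv_mul, one_smul] at h4
  -- the letters
  let u : Fin n → Module.End O V := fun b =>
    if n / Nat.gcd n (b : ℕ) = k then pnPr n ζ T b a else 0
  have hu1 : ∀ i, u i ∈ aug O ρX := by
    intro i
    simp only [u]
    split_ifs with h
    · exact pnPr_mem n ζ T i _ hTI _ haI
    · exact Submodule.zero_mem _
  have hu2 : ∀ i, u i ^ n = 0 := by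
    intro i
    simp only [u]
    split_ifs with h
    · refine homog_nil n k hk ζ hP hcyc Φ Ψ h2 hΦn hfk i h _ ?_
      have h5 : T (pnPr n ζ T i a) = ζ ^ (i : ℕ) • pnPr n ζ T i a := by
        rw [← Module.End.mul_apply, pnPr_comm, pnPr_mul n ζ hP T hTn i i.2, LinearMap.smul_apply]
      exact h5
    · exact zero_pow hP.pos.ne'
  have hu3 : aug O ρX ≤ Submodule.span O (Set.range u) ⊔ (aug O ρX) ^ 2 := by
    have hle2 : (aug O ρX) ^ 2 ≤ Submodule.span O (Set.range u) ⊔ (aug O ρX) ^ 2 := le_sup_right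
    have hgen : ∀ j : ℕ, ρX ((⇑φX)^[j] yX) - 1 ∈
        Submodule.span O (Set.range u) ⊔ (aug O ρX) ^ 2 := by
      intro j
      have hj : ρX ((⇑φX)^[j] yX) - 1 = (T ^ j) a := by
        induction j with
        | zero => rfl
        | succ j ih =>
          rw [Function.iterate_succ_apply', ← hσρ, pow_succ', Module.End.mul_apply, ← ih]
          change _ = σ (ρX ((⇑φX)^[j] yX) - 1)
          rw [map_sub, map_one]
      have hj2 : (T ^ j) a = ∑ b ∈ Finset.range n, ζ ^ (b * j) • pnPr n ζ T b a := by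
        have h6 : (T ^ j) a = ((∑ b ∈ Finset.range n, pnPr n ζ T b) * T ^ j) a := by
          rw [pnPr_sum n ζ hP T, one_mul]
        rw [h6, Finset.sum_mul, LinearMap.sum_apply]
        refine Finset.sum_congr rfl fun b hb => ?_
        rw [pnPr_pow n ζ hP T hTn b (Finset.mem_range.1 hb), LinearMap.smul_apply]
      rw [hj, hj2]
      refine Submodule.sum_mem _ fun b hb => Submodule.smul_mem _ _ ?_
      by_cases hbk : n / Nat.gcd n b = k
      · refine Submodule.mem_sup_left (Submodule.subset_span ⟨⟨b, Finset.mem_range.1 hb⟩, ?_⟩)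
        simp only [u]
        rw [if_pos hbk]
      · exact hle2 (hwrong b (Finset.mem_range.1 hb) hbk)
    have hall : ∀ g ∈ Y, ∀ hg : g ∈ Y, ρX ⟨g, hg⟩ - 1 ∈
        Submodule.span O (Set.range u) ⊔ (aug O ρX) ^ 2 := by
      intro g hg0
      have hg0' : g ∈ Subgroup.closure {g | ∃ i : Unit, ∃ j : ℕ, g = (⇑φ)^[j] y} := hg0
      induction hg0' using Subgroup.closure_induction with
      | mem g h =>
        intro hg
        obtain ⟨_, j, rfl⟩ := h
        have h7 : (⟨(⇑φ)^[j] y, hg⟩ : Y) = (⇑φX)^[j] yX := Subtype.ext (hφXj j yX).symm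
        rw [h7]
        exact hgen j
      | one =>
        intro hg
        have h7 : (⟨1, hg⟩ : Y) = 1 := rfl
        rw [h7, map_one, sub_self]
        exact Submodule.zero_mem _
      | mul g h hg1 hh1 ihg ihh =>
        intro hgh
        have h7 : (⟨g * h, hgh⟩ : Y) = (⟨g, hg1⟩ : Y) * ⟨h, hh1⟩ := rfl
        have h8 : ρX (⟨g * h, hgh⟩ : Y) - 1 = (ρX ⟨g, hg1⟩ - 1) + (ρX ⟨h, hh1⟩ - 1) +
            (ρX ⟨g, hg1⟩ - 1) * (ρX ⟨h, hh1⟩ - 1) := by
          rw [h7, map_mul]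
          noncomm_ring
        rw [h8]
        exact Submodule.add_mem _ (Submodule.add_mem _ (ihg hg1 hg1) (ihh hh1 hh1))
          (hle2 (pn_mul_mem ρX _ _))
      | inv g hg1 ihg =>
        intro hgi
        have h7 : (⟨g⁻¹, hgi⟩ : Y) = (⟨g, hg1⟩ : Y)⁻¹ := rfl
        have h9 : ρX (⟨g, hg1⟩ : Y)⁻¹ * ρX ⟨g, hg1⟩ = 1 := by
          rw [← map_mul, inv_mul_cancel, map_one]
        have h8 : ρX (⟨g⁻¹, hgi⟩ : Y) - 1 = -(ρX ⟨g, hg1⟩ - 1) -
            (ρX (⟨g, hg1⟩ : Y)⁻¹ - 1) * (ρX ⟨g, hg1⟩ - 1) := by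
          rw [h7, sub_mul, mul_sub, mul_one, one_mul, h9]
          abel
        rw [h8]
        exact Submodule.sub_mem _ (Submodule.neg_mem _ (ihg hg1 hg1))
          (hle2 (pn_mul_mem ρX _ _))
    unfold aug
    rw [Submodule.span_le]
    rintro _ ⟨x, rfl⟩
    exact hall x x.2 x.2
  have hfin := hown O (Module.End O V) Y ζ hP hU σ hσn φX ρX hσρ hSplitX hAugX u hu1 hu2 hu3
  have h10 : a ^ M ∈ (aug O ρX) ^ M := Submodule.pow_mem_pow _ haI M
  rw [hfin, Submodule.mem_bot] at h10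
  exact h10

end Pool.Agent.LgP
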