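import Pool.Agent.LgP.Defs

/-!
# Polynomial families and the Vandermonde argument

`vand`: if a polynomial with coefficients in a module takes values in a submodule `W` at all
natural numbers and `1, ..., D` are invertible, then all coefficients lie in `W`.
Paper proof: use only the values at `0, ..., D-1` and the Vandermonde matrix, whose determinant is
the product of `j - i`, `i < j < D`, a unit; or finite differences: by induction on `D`,
`f(s+1) - f(s)` has degree `< D - 1` and its coefficients lie in `W`; its leading coefficient is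
`(D-1) c_(D-1)`, so `c_(D-1) ∈ W`; subtract this term and use the induction hypothesis again.

`powFam`: the powers `(1+u)^s` of a unipotent element are a polynomial family with
`e 0 = 1`, `e 1 = lg O M u`. Paper proof: `(1+u)^s = ∑_{k<M} C(s,k) u^k` and `k! C(s,k)` is the
descending Pochhammer polynomial, with constant term 0 (for `k ≥ 1`) and linear coefficient
`(-1)^(k-1) (k-1)!`; `k!` is invertible in `O` for `k < M`. (`M = 0`: the ring is trivial.)
-/

set_option autoImplicit false

namespace Pool.Agent.LgP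

theorem vand {O V : Type} [CommRing O] [AddCommGroup V] [Module O V] (D : ℕ) (hU : UpTo O D)
    (W : Submodule O V) (c : ℕ → V)
    (h : ∀ s : ℕ, ∑ k ∈ Finset.range D, (s : O) ^ k • c k ∈ W) : ∀ k < D, c k ∈ W := by
  set A : Matrix (Fin D) (Fin D) O := Matrix.vandermonde (fun i : Fin D => ((i : ℕ) : O)) with hA
  have hdet : IsUnit A.det := by
    rw [hA, Matrix.det_vandermonde]
    refine IsUnit.prod_iff.2 fun i _ => IsUnit.prod_iff.2 fun j hj => ?_
    rw [Finset.mem_Ioi] at hj
    have hij : (i : ℕ) < (j : ℕ) := hj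
    rw [← Nat.cast_sub hij.le]
    exact hU _ (by omega) (by have := j.2; omega)
  have hsum : ∀ s : Fin D, ∑ j : Fin D, A s j • c j ∈ W := by
    intro s
    have := h (s : ℕ)
    rw [Finset.sum_range] at this
    exact this
  intro k hk
  have hinv := Matrix.nonsing_inv_mul A hdet
  have hck : c k = ∑ s : Fin D, A⁻¹ ⟨k, hk⟩ s • ∑ j : Fin D, A s j • c j := by
    have h1 : ∀ s : Fin D, A⁻¹ ⟨k, hk⟩ s • ∑ j : Fin D, A s j • c (j : ℕ) =
        ∑ j : Fin D, (A⁻¹ ⟨k, hk⟩ s * A s j) • c (j : ℕ) := by
      intro s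
      rw [Finset.smul_sum]
      exact Finset.sum_congr rfl fun j _ => smul_smul _ _ _
    rw [Finset.sum_congr rfl fun s _ => h1 s, Finset.sum_comm]
    have h2 : ∀ j : Fin D, ∑ s : Fin D, (A⁻¹ ⟨k, hk⟩ s * A s j) • c (j : ℕ) =
        (if j = ⟨k, hk⟩ then c k else 0) := by
      intro j
      rw [← Finset.sum_smul, ← Matrix.mul_apply, hinv, Matrix.one_apply]
      by_cases hj : j = ⟨k, hk⟩
      · rw [if_pos hj, if_pos hj.symm, one_smul, hj]
      · rw [if_neg hj, if_neg (fun h => hj h.symm), zero_smul]
    rw [Finset.sum_congr rfl fun j _ => h2 j, Finset.sum_ite_eq' Finset.univ (⟨k, hk⟩ : Fin D)]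
    simp
  rw [hck]
  exact W.sum_mem fun s _ => W.smul_mem _ (hsum s)

private theorem Vand_coeff_zero {O : Type} [CommRing O] (n i : ℕ) (h : n < i) :
    (descPochhammer O n).coeff i = 0 := by
  induction n generalizing i with
  | zero =>
    rw [descPochhammer_zero, Polynomial.coeff_one, if_neg (by omega)]
  | succ n ih =>
    obtain ⟨j, rfl⟩ : ∃ j, i = j + 1 := ⟨i - 1, by omega⟩
    rw [descPochhammer_succ_right, mul_sub, Polynomial.coeff_sub, Polynomial.coeff_mul_X,
      ← Polynomial.C_eq_natCast, Polynomial.coeff_mul_C, ih j (by omega), ih (j + 1) (by omega),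
      zero_mul, sub_zero]

private theorem Vand_coeff_const {O : Type} [CommRing O] (n : ℕ) :
    (descPochhammer O (n + 1)).coeff 0 = 0 := by
  rw [descPochhammer_succ_left, Polynomial.coeff_X_mul_zero]

private theorem Vand_coeff_lin {O : Type} [CommRing O] (n : ℕ) :
    (descPochhammer O (n + 1)).coeff 1 = (-1) ^ n * (n.factorial : O) := by
  induction n with
  | zero => simp [descPochhammer_one, Polynomial.coeff_X]
  | succ n ih =>
    rw [descPochhammer_succ_right, mul_sub, Polynomial.coeff_sub, Polynomial.coeff_mul_X,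
      ← Polynomial.C_eq_natCast, Polynomial.coeff_mul_C, Vand_coeff_const, ih, Nat.factorial_succ]
    push_cast
    ring

private theorem Vand_fact {O : Type} [CommRing O] {M : ℕ} (hU : UpTo O M) {k : ℕ} (hk : k ≤ M) :
    IsUnit (k.factorial : O) := by
  induction k with
  | zero => simp
  | succ k ih =>
    rw [Nat.factorial_succ, Nat.cast_mul]
    exact (hU _ (by omega) hk).mul (ih (by omega))

private theorem Vand_pow {O E : Type} [CommRing O] [Ring E] [Algebra O E] (M : ℕ) (u : E)
    (hu : u ^ M = 0) (s : ℕ) :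
    (1 + u) ^ s = ∑ k ∈ Finset.range M, ((s.choose k : ℕ) : O) • u ^ k := by
  have h1 : (1 + u) ^ s = ∑ k ∈ Finset.range (s + 1), ((s.choose k : ℕ) : O) • u ^ k := by
    rw [add_comm, (Commute.one_right u).add_pow]
    refine Finset.sum_congr rfl fun k _ => ?_
    rw [one_pow, mul_one, Nat.cast_smul_eq_nsmul, nsmul_eq_mul, Nat.cast_comm]
  have h2 : ∑ k ∈ Finset.range (s + 1), ((s.choose k : ℕ) : O) • u ^ k =
      ∑ k ∈ Finset.range (s + 1 + M), ((s.choose k : ℕ) : O) • u ^ k := by
    refine Finset.sum_subset (fun k hk => ?_) fun k _ hk => ?_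
    · rw [Finset.mem_range] at hk ⊢
      omega
    · rw [Finset.mem_range] at hk
      rw [Nat.choose_eq_zero_of_lt (by omega), Nat.cast_zero, zero_smul]
  have h3 : ∑ k ∈ Finset.range M, ((s.choose k : ℕ) : O) • u ^ k =
      ∑ k ∈ Finset.range (s + 1 + M), ((s.choose k : ℕ) : O) • u ^ k := by
    refine Finset.sum_subset (fun k hk => ?_) fun k _ hk => ?_
    · rw [Finset.mem_range] at hk ⊢
      omega
    · rw [Finset.mem_range] at hk
      rw [pow_eq_zero_of_le (not_lt.1 hk) hu, smul_zero]
  rw [h1, h2, h3]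

theorem powFam {O E : Type} [CommRing O] [Ring E] [Algebra O E] (M : ℕ) (hU : UpTo O M) (u : E)
    (hu : u ^ M = 0) : ∃ e : ℕ → E, e 0 = 1 ∧ e 1 = lg O M u ∧ (∀ k, M < k → e k = 0) ∧
      (∀ k, e k ∈ Algebra.adjoin O {u}) ∧
      ∀ s : ℕ, (1 + u) ^ s = ∑ k ∈ Finset.range (M + 1), (s : O) ^ k • e k := by
  refine ⟨fun i => ∑ k ∈ Finset.range M,
    (Ring.inverse (k.factorial : O) * (descPochhammer O k).coeff i) • u ^ k, ?_, ?_, ?_, ?_, ?_⟩
  · rcases Nat.eq_zero_or_pos M with h0 | h0
    · rw [h0, pow_zero] at hu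
      have : Subsingleton E := subsingleton_of_zero_eq_one hu.symm
      exact Subsingleton.elim _ _
    · obtain ⟨m, rfl⟩ : ∃ m, M = m + 1 := ⟨M - 1, by omega⟩
      change ∑ k ∈ Finset.range (m + 1), _ = _
      rw [Finset.sum_range_succ', Finset.sum_eq_zero, zero_add]
      · simp
      · intro k _
        rw [Vand_coeff_const, mul_zero, zero_smul]
  · change ∑ k ∈ Finset.range M, _ = _
    unfold lg
    have h1 : ∀ k ∈ Finset.Ico 1 M, ((-1 : O) ^ (k + 1) * Ring.inverse (k : O)) • u ^ k =
        (Ring.inverse (k.factorial : O) * (descPochhammer O k).coeff 1) • u ^ k := by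
      intro k hk
      rw [Finset.mem_Ico] at hk
      obtain ⟨j, rfl⟩ : ∃ j, k = j + 1 := ⟨k - 1, by omega⟩
      congr 1
      have hj := hU (j + 1) (by omega) (by omega)
      have hf := Vand_fact hU (show j + 1 ≤ M by omega)
      have e1 := Ring.inverse_mul_cancel _ hj
      have e2 := Ring.inverse_mul_cancel _ hf
      rw [Vand_coeff_lin]
      have e3 : (((j + 1).factorial : ℕ) : O) = ((j + 1 : ℕ) : O) * (j.factorial : O) := by
        rw [Nat.factorial_succ, Nat.cast_mul]
      rw [e3] at e2 ⊢
      have e4 : (-1 : O) ^ (j + 1 + 1) = (-1) ^ j := by ring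
      rw [e4]
      linear_combination (-1 : O) ^ j * Ring.inverse ((j + 1 : ℕ) : O) * (-e2) +
        (-1 : O) ^ j * Ring.inverse (((j + 1 : ℕ) : O) * (j.factorial : O)) * (j.factorial : O) * e1
    rw [Finset.sum_congr rfl h1]
    symm
    refine Finset.sum_subset (fun k hk => ?_) fun k hk hk' => ?_
    · rw [Finset.mem_Ico] at hk
      exact Finset.mem_range.2 hk.2
    · rw [Finset.mem_range] at hk
      rw [Finset.mem_Ico] at hk'
      have hk0 : k = 0 := by omega
      rw [hk0, Vand_coeff_zero 0 1 (by norm_num), mul_zero, zero_smul]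
  · intro i hi
    refine Finset.sum_eq_zero fun k hk => ?_
    rw [Finset.mem_range] at hk
    rw [Vand_coeff_zero k i (by omega), mul_zero, zero_smul]
  · intro i
    refine Subalgebra.sum_mem _ fun k _ => Subalgebra.smul_mem _ (pow_mem ?_ k) _
    exact Algebra.self_mem_adjoin_singleton O u
  · intro s
    rw [Vand_pow (O := O) M u hu s]
    have h1 : ∀ i ∈ Finset.range (M + 1), (s : O) ^ i • ∑ k ∈ Finset.range M,
        (Ring.inverse (k.factorial : O) * (descPochhammer O k).coeff i) • u ^ k =
        ∑ k ∈ Finset.range M, ((s : O) ^ i * (Ring.inverse (k.factorial : O) *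
          (descPochhammer O k).coeff i)) • u ^ k := by
      intro i _
      rw [Finset.smul_sum]
      exact Finset.sum_congr rfl fun k _ => smul_smul _ _ _
    rw [Finset.sum_congr rfl h1, Finset.sum_comm]
    refine Finset.sum_congr rfl fun k hk => ?_
    rw [Finset.mem_range] at hk
    rw [← Finset.sum_smul]
    congr 1
    have hdeg : (descPochhammer O k).natDegree < M + 1 := by
      refine Nat.lt_succ_of_le ?_
      rw [Polynomial.natDegree_le_iff_coeff_eq_zero]
      intro i hi
      exact Vand_coeff_zero k i (by omega)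
    have h2 := Polynomial.eval_eq_sum_range' hdeg (s : O)
    rw [descPochhammer_eval_eq_descFactorial, Nat.descFactorial_eq_factorial_mul_choose,
      Nat.cast_mul] at h2
    have e2 := Ring.inverse_mul_cancel _ (Vand_fact hU hk.le)
    have h3 : ∑ i ∈ Finset.range (M + 1), (s : O) ^ i * (Ring.inverse (k.factorial : O) *
        (descPochhammer O k).coeff i) = Ring.inverse (k.factorial : O) *
        ∑ i ∈ Finset.range (M + 1), (descPochhammer O k).coeff i * (s : O) ^ i := by
      rw [Finset.mul_sum]
      exact Finset.sum_congr rfl fun i _ => by ring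
    rw [h3, ← h2, ← mul_assoc, e2, one_mul]

end Pool.Agent.LgP
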